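import Pool.Agent.Helper513.SI.Defs

set_option autoImplicit false

namespace SI
open RA

theorem run_append1 {V : Type} {k : ℕ} (T : V → Fin k → V) (p : V) (w : List (Fin k))
    (a : Fin k) : run T p (w ++ [a]) = T (run T p w) a := by
  unfold run
  rw [List.foldl_append]
  rfl

/-- the set of acceptance conditions which do not distinguish `p` and `q` -/
def FF {V : Type} {k : ℕ} (T : V → Fin k → V) (p q : V) : Set (V → Bool) :=
  {F | ∀ w, F (run T p w) = F (run T q w)}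

def E0 {V : Type} {k : ℕ} (T : V → Fin k → V) (p q : V) (u v : V) : Prop :=
  ∀ F ∈ FF T p q, F u = F v

theorem E0_equiv {V : Type} {k : ℕ} (T : V → Fin k → V) (p q : V) : Equivalence (E0 T p q) :=
  ⟨fun _ _ _ => rfl, fun h F hF => (h F hF).symm, fun h1 h2 F hF => (h1 F hF).trans (h2 F hF)⟩

theorem E0_compat {V : Type} {k : ℕ} (T : V → Fin k → V) (p q : V) (u v : V)
    (h : E0 T p q u v) (a : Fin k) : E0 T p q (T u a) (T v a) := by
  intro F hF
  refine h (fun x => F (T x a)) ?_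
  intro w
  show F (T (run T p w) a) = F (T (run T q w) a)
  rw [← run_append1 T p w a, ← run_append1 T q w a]
  exact hF _

theorem E0_self {V : Type} {k : ℕ} (T : V → Fin k → V) (p q : V) : E0 T p q p q :=
  fun _ hF => hF []

theorem FF_card {V : Type} [Fintype V] [DecidableEq V] {k : ℕ} [NeZero k] (T : V → Fin k → V)
    (p q : V) (hpq : p ≠ q) (t : ℕ) (ht : (Finset.univ \ visited T p q).card ≤ t) :
    Set.ncard (FF T p q) ≤ 2 ^ ((Fintype.card V + t) / 2) := by
  classical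
  let S : Setoid V := ⟨E0 T p q, E0_equiv T p q⟩
  let r : V → V := fun u => (Quotient.mk S u).out
  have hr : ∀ u, E0 T p q (r u) u := fun u => Quotient.exact (s := S) (Quotient.out_eq _)
  have hr2 : ∀ u v, E0 T p q u v → r u = r v := by
    intro u v h
    have : Quotient.mk S u = Quotient.mk S v := Quotient.sound h
    show (Quotient.mk S u).out = (Quotient.mk S v).out
    rw [this]
  let R : Finset V := Finset.univ.filter (fun u => r u = u)
  let U : Finset V := Finset.univ.filter (fun u => ∃ v, v ≠ u ∧ E0 T p q u v)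
  have hvis : visited T p q ⊆ U := by
    intro u hu
    rw [Finset.mem_filter]
    exact ⟨Finset.mem_univ _, visited_equiv T p q hpq (E0 T p q) (E0_equiv T p q)
      (fun u v h a => E0_compat T p q u v h a) (E0_self T p q) u hu⟩
  have hUc : (Finset.univ \ U).card ≤ t :=
    (Finset.card_le_card (Finset.sdiff_subset_sdiff (Finset.Subset.refl _) hvis)).trans ht
  have h1 : (R ∩ U).card ≤ (Finset.univ \ R).card := by
    have hch : ∀ u ∈ R ∩ U, ∃ v, v ≠ u ∧ E0 T p q u v := by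
      intro u hu
      have := (Finset.mem_inter.1 hu).2
      exact (Finset.mem_filter.1 this).2
    choose! g hg1 hg2 using hch
    refine Finset.card_le_card_of_injOn g ?_ ?_
    · intro u hu
      have hu' : u ∈ R ∩ U := hu
      have huR : r u = u := (Finset.mem_filter.1 (Finset.mem_inter.1 hu').1).2
      have e1 := hr2 _ _ (hg2 u hu')
      simp only [Finset.coe_sdiff, Finset.coe_univ, Set.mem_sdiff, Set.mem_univ, true_and,
        Finset.mem_coe]
      intro hmem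
      have e2 : r (g u) = g u := (Finset.mem_filter.1 hmem).2
      exact hg1 u hu' (by rw [← e2, ← e1, huR])
    · intro u hu v hv huv
      have hu' : u ∈ R ∩ U := hu
      have hv' : v ∈ R ∩ U := hv
      have huR : r u = u := (Finset.mem_filter.1 (Finset.mem_inter.1 hu').1).2
      have hvR : r v = v := (Finset.mem_filter.1 (Finset.mem_inter.1 hv').1).2
      have e1 := hr2 _ _ (hg2 u hu')
      have e2 := hr2 _ _ (hg2 v hv')
      rw [← huR, ← hvR, e1, e2, huv]
  have h2 : R.card = (R ∩ U).card + (R \ U).card := (Finset.card_inter_add_card_sdiff R U).symm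
  have h3 : (R \ U).card ≤ (Finset.univ \ U).card :=
    Finset.card_le_card (Finset.sdiff_subset_sdiff (Finset.subset_univ _) (Finset.Subset.refl _))
  have h4 : R.card + (Finset.univ \ R).card = Fintype.card V := by
    rw [Finset.card_sdiff_of_subset (Finset.subset_univ _), Finset.card_univ]
    have := Finset.card_le_univ R
    omega
  have hR : R.card ≤ (Fintype.card V + t) / 2 := by omega
  have hinj : Set.InjOn (fun (F : V → Bool) (x : {x // x ∈ R}) => F x.1) (FF T p q) := by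
    intro F hF G hG hFG
    funext u
    have hru : r u ∈ R := by
      rw [Finset.mem_filter]
      exact ⟨Finset.mem_univ _, hr2 _ _ (hr u)⟩
    have e1 : F (r u) = F u := hr u F hF
    have e2 : G (r u) = G u := hr u G hG
    have e3 : F (r u) = G (r u) := congrFun hFG ⟨r u, hru⟩
    rw [← e1, ← e2, e3]
  have h5 : Set.ncard (FF T p q) ≤ Set.ncard (Set.univ : Set ({x // x ∈ R} → Bool)) :=
    Set.ncard_le_ncard_of_injOn _ (fun _ _ => Set.mem_univ _) hinj (Set.toFinite _)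
  rw [Set.ncard_univ, Nat.card_eq_fintype_card, Fintype.card_fun, Fintype.card_bool,
    Fintype.card_coe] at h5
  exact h5.trans (Nat.pow_le_pow_right (by norm_num) hR)

theorem bad_card {V : Type} [Fintype V] [DecidableEq V] {k : ℕ} [NeZero k] (T : V → Fin k → V)
    (t : ℕ) (ht : ∀ p q, p ≠ q → (Finset.univ \ visited T p q).card ≤ t) :
    Set.ncard {F : V → Bool | ∃ p q, p ≠ q ∧ F ∈ FF T p q} ≤
      (Fintype.card V) ^ 2 * 2 ^ ((Fintype.card V + t) / 2) := by
  classical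
  have h1 : {F : V → Bool | ∃ p q, p ≠ q ∧ F ∈ FF T p q} =
      ((Finset.univ : Finset (V × V)).biUnion (fun y =>
        if y.1 ≠ y.2 then Finset.univ.filter (fun F => F ∈ FF T y.1 y.2) else ∅) :
        Finset (V → Bool)) := by
    ext F
    simp only [Finset.coe_biUnion, Finset.coe_univ, Set.mem_univ, Set.iUnion_true,
      Set.mem_iUnion, Prod.exists]
    constructor
    · rintro ⟨p, q, hpq, hF⟩
      refine ⟨p, q, ?_⟩
      rw [if_pos hpq]
      simpa using hF
    · rintro ⟨p, q, hF⟩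
      by_cases hpq : p ≠ q
      · rw [if_pos hpq] at hF
        exact ⟨p, q, hpq, by simpa using hF⟩
      · rw [if_neg hpq] at hF
        simp at hF
  rw [h1, Set.ncard_coe_finset]
  refine Finset.card_biUnion_le.trans ?_
  calc ∑ y : V × V, (if y.1 ≠ y.2 then Finset.univ.filter (fun F => F ∈ FF T y.1 y.2)
        else ∅).card ≤ ∑ _y : V × V, 2 ^ ((Fintype.card V + t) / 2) := by
        refine Finset.sum_le_sum fun y _ => ?_
        by_cases hy : y.1 ≠ y.2
        · rw [if_pos hy]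
          have h2 := FF_card T y.1 y.2 hy t (ht _ _ hy)
          have h3 : (Finset.univ.filter (fun F => F ∈ FF T y.1 y.2)).card =
              Set.ncard (FF T y.1 y.2) := by
            rw [← Set.ncard_coe_finset]; congr 1; ext F; simp
          rw [h3]; exact h2
        · rw [if_neg hy]; simp
    _ = (Fintype.card V) ^ 2 * 2 ^ ((Fintype.card V + t) / 2) := by
        simp [Finset.sum_const, Finset.card_univ, Fintype.card_prod, sq]

theorem ncard_prod_first' {α β : Type} [Fintype α] [Fintype β] (S : Set α) :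
    Set.ncard {x : α × β | x.1 ∈ S} = S.ncard * Fintype.card β := by
  have : {x : α × β | x.1 ∈ S} = S ×ˢ (Set.univ : Set β) := by ext x; simp
  rw [this, Set.ncard_prod, Set.ncard_univ, Nat.card_eq_fintype_card]

theorem ncard_fiber_le' {α β : Type} [Fintype α] [Fintype β] (S : Set α) (R : α → β → Prop)
    (b : ℕ) (h : ∀ x ∈ S, Set.ncard {y | R x y} ≤ b) :
    Set.ncard {x : α × β | x.1 ∈ S ∧ R x.1 x.2} ≤ S.ncard * b := by
  classical
  have h1 : {x : α × β | x.1 ∈ S ∧ R x.1 x.2}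
      = ((Finset.univ.filter (· ∈ S)).biUnion
          (fun a => (Finset.univ.filter (fun y => R a y)).image (fun y => (a, y))) :
            Finset (α × β)) := by
    ext ⟨a, y⟩; simp [and_comm]
  rw [h1, Set.ncard_coe_finset]
  refine le_trans Finset.card_biUnion_le ?_
  have h2 : S.ncard = (Finset.univ.filter (· ∈ S)).card := by
    rw [← Set.ncard_coe_finset]; congr 1; ext; simp
  rw [h2, ← smul_eq_mul, ← Finset.sum_const]
  apply Finset.sum_le_sum
  intro a ha
  refine le_trans Finset.card_image_le ?_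
  have h3 := h a (by simpa using ha)
  have h4 : Set.ncard {y | R a y} = (Finset.univ.filter (fun y => R a y)).card := by
    rw [← Set.ncard_coe_finset]; congr 1; ext; simp
  omega

/-- at least a third of the accessible automata (with a random set `F` of final states) are minimal -/
theorem min_fraction (k : ℕ) (hk : 2 ≤ k) : ∃ m0 : ℕ, ∀ m, m0 ≤ m →
    Set.ncard {T : Fin (m+1) → Fin k → Fin (m+1) | Acc T 0} * 2^(m+1)
      ≤ 3 * Set.ncard {x : (Fin (m+1) → Fin k → Fin (m+1)) × (Fin (m+1) → Bool) |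
          Acc x.1 0 ∧ ∀ p q, (∀ w, x.2 (run x.1 p w) = x.2 (run x.1 q w)) → p = q} := by
  have : NeZero k := ⟨by omega⟩
  obtain ⟨s0, C3, m3, h3⟩ := acc_bad k hk
  obtain ⟨C2, h2⟩ := small_struct k s0 hk
  obtain ⟨m6, h6⟩ := log_sq_le (4 * C3)
  obtain ⟨m7, h7⟩ := log_sq_le 32
  refine ⟨m3 + m6 + m7 + 36 * (C2 + 1) + 36, fun m hm => ?_⟩
  classical
  obtain ⟨L, hL⟩ : ∃ L, L = Nat.log 2 (m+1) + 1 := ⟨_, rfl⟩
  obtain ⟨t, ht⟩ : ∃ t, t = C3 * L^2 := ⟨_, rfl⟩
  obtain ⟨S1, hS1⟩ : ∃ S1 : Set (Fin (m+1) → Fin k → Fin (m+1)),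
    S1 = {T : Fin (m+1) → Fin k → Fin (m+1) | RA.Acc T 0 ∧ ∃ u v, u ≠ v ∧ T u = T v} := ⟨_, rfl⟩
  obtain ⟨S2, hS2⟩ : ∃ S2 : Set (Fin (m+1) → Fin k → Fin (m+1)), S2 = {T : Fin (m+1) → Fin k → Fin (m+1) | RA.Acc T 0 ∧
      ∃ M : Finset (Fin (m+1)), M.card ≤ s0 ∧
        Closed T M ∧ ∃ u ∈ M, ∃ v ∈ M, ∃ a, T u a ≠ T v a ∧ T u a ∈ M ∧ T v a ∈ M} := ⟨_, rfl⟩
  obtain ⟨S3, hS3⟩ : ∃ S3 : Set (Fin (m+1) → Fin k → Fin (m+1)), S3 = {T : Fin (m+1) → Fin k → Fin (m+1) | RA.Acc T 0 ∧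
        ∃ p q, p ≠ q ∧ s0 < (visited T p q).card ∧ C3 * (Nat.log 2 (m+1) + 1)^2 <
          (Finset.univ \ visited T p q).card} := ⟨_, rfl⟩
  obtain ⟨Gd, hGd⟩ : ∃ Gd : Set (Fin (m+1) → Fin k → Fin (m+1)), Gd = {T : Fin (m+1) → Fin k → Fin (m+1) | RA.Acc T 0 ∧
        ∀ p q, p ≠ q → (Finset.univ \ visited T p q).card ≤ t} := ⟨_, rfl⟩
  obtain ⟨A, hA⟩ : ∃ A, A = Set.ncard {T : Fin (m+1) → Fin k → Fin (m+1) | Acc T 0} := ⟨_, rfl⟩
  obtain ⟨Mn, hMn⟩ : ∃ Mn : Set ((Fin (m+1) → Fin k → Fin (m+1)) × (Fin (m+1) → Bool)),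
    Mn = {x : (Fin (m+1) → Fin k → Fin (m+1)) × (Fin (m+1) → Bool) | RA.Acc x.1 0 ∧ ∀ p q, (∀ w, x.2 (run x.1 p w) = x.2 (run x.1 q w)) → p = q} :=
    ⟨_, rfl⟩
  rw [← hMn, ← hA]
  -- bounds
  have b1 : 2 * S1.ncard ≤ A := by
    have := identical_rows (Fin (m+1)) k 0
    simp only [Fintype.card_fin, Nat.add_sub_cancel] at this
    rw [← hA, ← hS1] at this
    have e1 : (m+1)^2 ≤ (m+1)^k := Nat.pow_le_pow_right (by omega) hk
    have e2 : (m+1)^2 * (2 * S1.ncard) ≤ (m+1)^2 * A := by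
      calc (m+1)^2 * (2 * S1.ncard) ≤ (m+1)^k * (2 * S1.ncard) := Nat.mul_le_mul_right _ e1
        _ = 2 * (m+1)^k * S1.ncard := by ring
        _ ≤ (m+1) * m * A := this
        _ ≤ (m+1)^2 * A := by
            apply Nat.mul_le_mul_right
            rw [sq]; exact Nat.mul_le_mul_left _ (by omega)
    exact Nat.le_of_mul_le_mul_left e2 (by positivity)
  have b2 : 36 * S2.ncard ≤ A := by
    have := h2 (Fin (m+1)) 0
    simp only [Fintype.card_fin] at this
    rw [← hA, ← hS2] at this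
    have e1 : 36 * (C2 + 1) ≤ m + 1 := by omega
    have e2 : (C2 + 1) * (36 * S2.ncard) ≤ (C2 + 1) * A := by
      calc (C2 + 1) * (36 * S2.ncard) = 36 * (C2 + 1) * S2.ncard := by ring
        _ ≤ (m + 1) * S2.ncard := Nat.mul_le_mul_right _ e1
        _ ≤ C2 * A := this
        _ ≤ (C2 + 1) * A := Nat.mul_le_mul_right _ (by omega)
    exact Nat.le_of_mul_le_mul_left e2 (by omega)
  have b3 : 36 * S3.ncard ≤ A := by
    have := h3 m (by omega)
    rw [← hA, ← hS3] at this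
    exact (Nat.mul_le_mul_right _ (by omega)).trans this
  have b4 : Gd.ncard ≤ A := by
    rw [hA, hGd]
    exact Set.ncard_le_ncard (fun T hT => hT.1) (Set.toFinite _)
  have b5 : 36 * ((m+1)^2 * 2 ^ ((m + 1 + t) / 2)) ≤ 2 ^ (m+1) := by
    have e1 := h6 m (by omega)
    have e2 := h7 m (by omega)
    rw [← hL] at e1 e2
    have e3 : 4 * t ≤ m + 1 := by rw [ht]; linarith
    have e4 : 1 ≤ L := by omega
    have e5 : 6 + 2 * L ≤ 8 * L^2 := by nlinarith
    have e6 : 6 + 2 * L + (m + 1 + t) / 2 ≤ m + 1 := by omega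
    have e7 : m + 1 < 2 ^ L := by
      rw [hL]; exact Nat.lt_pow_succ_log_self (by norm_num) _
    have e8 : (m+1)^2 ≤ 2 ^ (2 * L) := by
      rw [mul_comm 2 L, pow_mul]
      exact Nat.pow_le_pow_left e7.le 2
    calc 36 * ((m+1)^2 * 2 ^ ((m + 1 + t) / 2))
        ≤ 2 ^ 6 * (2 ^ (2 * L) * 2 ^ ((m + 1 + t) / 2)) := by
          apply Nat.mul_le_mul (by norm_num)
          exact Nat.mul_le_mul_right _ e8
      _ = 2 ^ (6 + 2 * L + (m + 1 + t) / 2) := by rw [pow_add, pow_add]; ring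
      _ ≤ 2 ^ (m + 1) := Nat.pow_le_pow_right (by norm_num) e6
  -- covering
  have hcov : {x : (Fin (m+1) → Fin k → Fin (m+1)) × (Fin (m+1) → Bool) |
      x.1 ∈ {T : Fin (m+1) → Fin k → Fin (m+1) | Acc T 0}} ⊆
      Mn ∪ ({x | x.1 ∈ S1} ∪ ({x | x.1 ∈ S2} ∪ ({x | x.1 ∈ S3} ∪
        {x | x.1 ∈ Gd ∧ ∃ p q, p ≠ q ∧ x.2 ∈ FF x.1 p q}))) := by
    rintro ⟨T, F⟩ hT
    have hT' : RA.Acc T 0 := hT
    by_cases c0 : (T, F) ∈ Mn
    · exact Or.inl c0
    refine Or.inr ?_
    by_cases c1 : T ∈ S1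
    · exact Or.inl c1
    refine Or.inr ?_
    by_cases c2 : T ∈ S2
    · exact Or.inl c2
    refine Or.inr ?_
    by_cases c3 : T ∈ S3
    · exact Or.inl c3
    refine Or.inr ?_
    have hlarge : ∀ p q, p ≠ q → (Finset.univ \ visited T p q).card ≤ t := by
      intro p q hpq
      by_contra hcon
      push Not at hcon
      by_cases hs : s0 < (visited T p q).card
      · apply c3
        rw [hS3]
        refine ⟨hT', p, q, hpq, hs, ?_⟩
        rw [← hL, ← ht]; exact hcon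
      · push Not at hs
        apply c2
        rw [hS2]
        refine ⟨hT', visited T p q, hs, visited_closed T p q hpq, p, (visited_mem T p q).1,
          q, (visited_mem T p q).2, ?_⟩
        have hrow : T p ≠ T q := fun h => c1 (by rw [hS1]; exact ⟨hT', p, q, hpq, h⟩)
        obtain ⟨a, ha⟩ : ∃ a, T p a ≠ T q a := by
          by_contra hc; push Not at hc; exact hrow (funext hc)
        rcases visited_pair T p q hpq a with h | h
        · exact absurd h ha
        · exact ⟨a, ha, h.1, h.2⟩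
    refine ⟨by rw [hGd]; exact ⟨hT', hlarge⟩, ?_⟩
    have c0' : ¬ ∀ p q, (∀ w, F (run T p w) = F (run T q w)) → p = q := by
      intro h
      apply c0
      rw [hMn]
      exact ⟨hT', h⟩
    push Not at c0'
    obtain ⟨p, q, h, hpq⟩ := c0'
    exact ⟨p, q, hpq, h⟩
  have hc := Set.ncard_le_ncard hcov (Set.toFinite _)
  rw [ncard_prod_first'] at hc
  have hcardF : Fintype.card (Fin (m+1) → Bool) = 2 ^ (m+1) := by
    rw [Fintype.card_fun, Fintype.card_bool, Fintype.card_fin]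
  rw [hcardF, ← hA] at hc
  have u1 := Set.ncard_union_le Mn ({x | x.1 ∈ S1} ∪ ({x | x.1 ∈ S2} ∪ ({x | x.1 ∈ S3} ∪
        {x | x.1 ∈ Gd ∧ ∃ p q, p ≠ q ∧ x.2 ∈ FF x.1 p q})))
  have u2 := Set.ncard_union_le ({x | x.1 ∈ S1} : Set ((Fin (m+1) → Fin k → Fin (m+1)) ×
    (Fin (m+1) → Bool))) ({x | x.1 ∈ S2} ∪ ({x | x.1 ∈ S3} ∪
        {x | x.1 ∈ Gd ∧ ∃ p q, p ≠ q ∧ x.2 ∈ FF x.1 p q}))
  have u3 := Set.ncard_union_le ({x | x.1 ∈ S2} : Set ((Fin (m+1) → Fin k → Fin (m+1)) ×
    (Fin (m+1) → Bool))) ({x | x.1 ∈ S3} ∪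
        {x | x.1 ∈ Gd ∧ ∃ p q, p ≠ q ∧ x.2 ∈ FF x.1 p q})
  have u4 := Set.ncard_union_le ({x | x.1 ∈ S3} : Set ((Fin (m+1) → Fin k → Fin (m+1)) ×
    (Fin (m+1) → Bool))) {x | x.1 ∈ Gd ∧ ∃ p q, p ≠ q ∧ x.2 ∈ FF x.1 p q}
  have v5 := ncard_fiber_le' (β := Fin (m+1) → Bool) Gd
    (fun T F => ∃ p q, p ≠ q ∧ F ∈ FF T p q) ((m+1)^2 * 2 ^ ((m + 1 + t) / 2)) (by
      intro T hT
      rw [hGd] at hT
      have := bad_card T t hT.2
      rwa [Fintype.card_fin] at this)
  rw [ncard_prod_first', hcardF] at u2 u3 u4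
  obtain ⟨w, hw⟩ : ∃ w, w = 2 ^ (m+1) := ⟨_, rfl⟩
  rw [← hw] at hc u2 u3 u4 b5 ⊢
  have v6 : 36 * (Gd.ncard * ((m+1)^2 * 2 ^ ((m + 1 + t) / 2))) ≤ A * w := by
    calc 36 * (Gd.ncard * ((m+1)^2 * 2 ^ ((m + 1 + t) / 2)))
        = Gd.ncard * (36 * ((m+1)^2 * 2 ^ ((m + 1 + t) / 2))) := by ring
      _ ≤ A * w := Nat.mul_le_mul b4 b5
  have w1 : 2 * (S1.ncard * w) ≤ A * w := by
    rw [← mul_assoc]; exact Nat.mul_le_mul_right _ b1
  have w2 : 36 * (S2.ncard * w) ≤ A * w := by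
    rw [← mul_assoc]; exact Nat.mul_le_mul_right _ b2
  have w3 : 36 * (S3.ncard * w) ≤ A * w := by
    rw [← mul_assoc]; exact Nat.mul_le_mul_right _ b3
  have hfin := hc.trans u1
  generalize S1.ncard * w = X1 at *
  generalize S2.ncard * w = X2 at *
  generalize S3.ncard * w = X3 at *
  generalize Gd.ncard * ((m+1)^2 * 2 ^ ((m + 1 + t) / 2)) = X4 at *
  generalize A * w = Y at *
  have g1 := u2.trans (Nat.add_le_add_left (u3.trans (Nat.add_le_add_left (u4.trans
    (Nat.add_le_add_left v5 _)) _)) _)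
  have g2 := hfin.trans (Nat.add_le_add_left g1 _)
  clear hfin u1 u2 u3 u4 v5 hc hcov g1
  generalize Mn.ncard = Z at *
  omega

end SI
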