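import Mathlib

set_option autoImplicit false

namespace SI

/-- State complexity of a language: the least number of states of a complete deterministic
automaton recognising it. -/
noncomputable def sc {A : Type} (L : Language A) : ℕ :=
  sInf {n | ∃ M : DFA A (Fin n), M.accepts = L}

theorem sc_eq_ncard {A : Type} (L : Language A) (h : L.IsRegular) :
    (Set.range L.leftQuotient).Finite ∧ sc L = (Set.range L.leftQuotient).ncard := by
  have hfin := h.finite_range_leftQuotient
  refine ⟨hfin, le_antisymm ?_ ?_⟩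
  · have : Finite (Set.range L.leftQuotient) := hfin
    have hmem : Nat.card (Set.range L.leftQuotient) ∈ {n | ∃ M : DFA A (Fin n), M.accepts = L} :=
      ⟨DFA.reindex (Finite.equivFin (Set.range L.leftQuotient)) L.toDFA, by
        rw [DFA.accepts_reindex, Language.accepts_toDFA]⟩
    rw [← Nat.card_coe_set_eq]
    exact Nat.sInf_le hmem
  · refine le_csInf ?_ ?_
    · have : Finite (Set.range L.leftQuotient) := hfin
      exact ⟨_, DFA.reindex (Finite.equivFin (Set.range L.leftQuotient)) L.toDFA, by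
        rw [DFA.accepts_reindex, Language.accepts_toDFA]⟩
    · rintro n ⟨M, rfl⟩
      have h1 : Set.range M.accepts.leftQuotient ⊆ M.acceptsFrom '' Set.univ := by
        rw [Language.leftQuotient_accepts, Set.image_univ]
        exact Set.range_comp_subset_range M.eval M.acceptsFrom
      refine (Set.ncard_le_ncard h1 (Set.toFinite _)).trans ?_
      refine (Set.ncard_image_le (Set.toFinite _)).trans ?_
      rw [Set.ncard_univ, Nat.card_eq_fintype_card, Fintype.card_fin]

theorem sc_pos {A : Type} (L : Language A) (h : L.IsRegular) : 1 ≤ sc L := by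
  obtain ⟨h1, h2⟩ := sc_eq_ncard L h
  rw [h2]
  exact (Set.ncard_pos h1).2 (Set.range_nonempty _)

theorem inter_regular {A : Type} (L1 L2 : Language A) (h1 : L1.IsRegular) (h2 : L2.IsRegular) :
    (L1 ⊓ L2).IsRegular := h1.inf h2

theorem sc_inter_le {A : Type} (L1 L2 : Language A) (h1 : L1.IsRegular) (h2 : L2.IsRegular) :
    sc (L1 ⊓ L2) ≤ sc L1 * sc L2 := by
  obtain ⟨f1, e1⟩ := sc_eq_ncard L1 h1
  obtain ⟨f2, e2⟩ := sc_eq_ncard L2 h2
  obtain ⟨_, e3⟩ := sc_eq_ncard (L1 ⊓ L2) (h1.inf h2)
  rw [e1, e2, e3, ← Set.ncard_prod]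
  have hsub : Set.range (L1 ⊓ L2).leftQuotient ⊆
      (fun p : Language A × Language A => p.1 ⊓ p.2) ''
        (Set.range L1.leftQuotient ×ˢ Set.range L2.leftQuotient) := by
    rintro _ ⟨w, rfl⟩
    exact ⟨(L1.leftQuotient w, L2.leftQuotient w), ⟨⟨w, rfl⟩, ⟨w, rfl⟩⟩, rfl⟩
  refine (Set.ncard_le_ncard hsub ((f1.prod f2).image _)).trans ?_
  exact Set.ncard_image_le (f1.prod f2)

theorem le_sc {A : Type} (L : Language A) (h : L.IsRegular) (S : Set (List A)) :
    (L.leftQuotient '' S).ncard ≤ sc L := by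
  obtain ⟨f1, e1⟩ := sc_eq_ncard L h
  rw [e1]
  exact Set.ncard_le_ncard (Set.image_subset_range _ _) f1

end SI
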