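import Pool.Agent.Helper513.SI.Ja

set_option autoImplicit false

namespace SI



/-- the language recognised by the automaton with transition function `x.1`, initial state `0` and
final states `{q | x.2 q = true}` -/
def lang {A : Type} {m : ℕ} (x : (Fin (m+1) → A → Fin (m+1)) × (Fin (m+1) → Bool)) : Language A :=
  {w | x.2 (w.foldl x.1 0) = true}

/-- accessible automata with initial state `0` and no two equivalent states -/
def MinAut (A : Type) (m : ℕ) : Set ((Fin (m+1) → A → Fin (m+1)) × (Fin (m+1) → Bool)) :=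
  {x | (∀ q, ∃ w : List A, w.foldl x.1 0 = q) ∧
    ∀ p q, (∀ w : List A, x.2 (w.foldl x.1 p) = x.2 (w.foldl x.1 q)) → p = q}

/-- the language accepted from the state `q` -/
def langAt_10064 {A : Type} {m : ℕ} (x : (Fin (m+1) → A → Fin (m+1)) × (Fin (m+1) → Bool))
    (q : Fin (m+1)) : Language A := {w | x.2 (w.foldl x.1 q) = true}

theorem mem_langAt_10064 {A : Type} {m : ℕ}
    (x : (Fin (m+1) → A → Fin (m+1)) × (Fin (m+1) → Bool))
    (q : Fin (m+1)) (w : List A) : w ∈ langAt_10064 x q ↔ x.2 (w.foldl x.1 q) = true := Iff.rfl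

theorem langAt_zero_10064 {A : Type} {m : ℕ}
    (x : (Fin (m+1) → A → Fin (m+1)) × (Fin (m+1) → Bool)) : langAt_10064 x 0 = lang x := rfl

theorem langAt_quot_10064 {A : Type} {m : ℕ}
    (x : (Fin (m+1) → A → Fin (m+1)) × (Fin (m+1) → Bool))
    (q : Fin (m+1)) (w : List A) :
    (langAt_10064 x q).leftQuotient w = langAt_10064 x (w.foldl x.1 q) := by
  ext v
  rw [Language.mem_leftQuotient, mem_langAt_10064, mem_langAt_10064, List.foldl_append]

theorem langAt_inj_10064 {A : Type} {m : ℕ}
    (x : (Fin (m+1) → A → Fin (m+1)) × (Fin (m+1) → Bool)) (hx : x ∈ MinAut A m) :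
    Function.Injective (langAt_10064 x) := by
  intro p q hpq
  apply hx.2
  intro w
  have h : w ∈ langAt_10064 x p ↔ w ∈ langAt_10064 x q := by rw [hpq]
  rw [mem_langAt_10064, mem_langAt_10064] at h
  exact Bool.eq_iff_iff.2 h

theorem langAt_range_10064 {A : Type} {m : ℕ}
    (x : (Fin (m+1) → A → Fin (m+1)) × (Fin (m+1) → Bool)) (hx : x ∈ MinAut A m) :
    Set.range (langAt_10064 x) = Set.range (lang x).leftQuotient := by
  ext K
  constructor
  · rintro ⟨q, rfl⟩
    obtain ⟨w, rfl⟩ := hx.1 q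
    exact ⟨w, by rw [← langAt_zero_10064, langAt_quot_10064]⟩
  · rintro ⟨w, rfl⟩
    exact ⟨w.foldl x.1 0, by rw [← langAt_zero_10064, langAt_quot_10064]⟩

theorem lang_regular {A : Type} {m : ℕ} (x : (Fin (m+1) → A → Fin (m+1)) × (Fin (m+1) → Bool)) :
    (lang x).IsRegular := by
  refine ⟨Fin (m+1), inferInstance, ⟨x.1, 0, {q | x.2 q = true}⟩, ?_⟩
  ext w
  rfl

theorem lang_sc {A : Type} {m : ℕ} (x : (Fin (m+1) → A → Fin (m+1)) × (Fin (m+1) → Bool))
    (hx : x ∈ MinAut A m) : sc (lang x) = m + 1 := by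
  rw [(sc_eq_ncard (lang x) (lang_regular x)).2, ← langAt_range_10064 x hx,
    ← Nat.card_coe_set_eq, Nat.card_range_of_injective (langAt_inj_10064 x hx)]
  simp

section fib10064

variable {A : Type} {m : ℕ} (L : Language A)

theorem quot_mem_10064 {K : Language A} (hK : K ∈ Set.range L.leftQuotient) (a : List A) :
    K.leftQuotient a ∈ Set.range L.leftQuotient := by
  obtain ⟨w, rfl⟩ := hK
  exact ⟨w ++ a, by rw [Language.leftQuotient_append]⟩

open Classical in
/-- the automaton of an enumeration of the left quotients -/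
noncomputable def aut_10064 (g : Fin (m+1) ≃ Set.range L.leftQuotient) :
    (Fin (m+1) → A → Fin (m+1)) × (Fin (m+1) → Bool) :=
  (fun q a => g.symm ⟨(g q).1.leftQuotient [a], quot_mem_10064 L (g q).2 [a]⟩,
    fun q => decide ([] ∈ (g q).1))

theorem aut_snd_10064 (g : Fin (m+1) ≃ Set.range L.leftQuotient) (q : Fin (m+1)) :
    (aut_10064 L g).2 q = true ↔ [] ∈ (g q).1 := by
  simp [aut_10064]

theorem aut_foldl_10064 (g : Fin (m+1) ≃ Set.range L.leftQuotient) (w : List A) :
    ∀ q, (g (w.foldl (aut_10064 L g).1 q)).1 = (g q).1.leftQuotient w := by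
  induction w with
  | nil => intro q; simp
  | cons a w ih =>
    intro q
    rw [List.foldl_cons, ih]
    have h1 : (g ((aut_10064 L g).1 q a)).1 = (g q).1.leftQuotient [a] := by
      show (g (g.symm ⟨(g q).1.leftQuotient [a], _⟩)).1 = _
      rw [Equiv.apply_symm_apply]
    rw [h1, ← Language.leftQuotient_append]
    rfl

theorem aut_langAt_10064 (g : Fin (m+1) ≃ Set.range L.leftQuotient) (q : Fin (m+1)) :
    langAt_10064 (aut_10064 L g) q = (g q).1 := by
  ext w
  rw [mem_langAt_10064]
  have h1 : (aut_10064 L g).2 (w.foldl (aut_10064 L g).1 q) = true ↔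
      [] ∈ (g (w.foldl (aut_10064 L g).1 q)).1 := aut_snd_10064 L g _
  rw [h1, aut_foldl_10064, Language.mem_leftQuotient, List.append_nil]

theorem aut_inj_10064 : Function.Injective
    (aut_10064 L : (Fin (m+1) ≃ Set.range L.leftQuotient) → _) := by
  intro g g' h
  ext q : 2
  rw [← aut_langAt_10064, ← aut_langAt_10064, h]

theorem aut_mem_10064 (g : Fin (m+1) ≃ Set.range L.leftQuotient) (hg : (g 0).1 = L) :
    aut_10064 L g ∈ MinAut A m ∧ lang (aut_10064 L g) = L := by
  refine ⟨⟨?_, ?_⟩, ?_⟩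
  · intro q
    obtain ⟨w, hw⟩ := (g q).2
    refine ⟨w, ?_⟩
    apply g.injective
    apply Subtype.ext
    rw [aut_foldl_10064, hg, hw]
  · intro p q h
    apply g.injective
    apply Subtype.ext
    rw [← aut_langAt_10064, ← aut_langAt_10064]
    ext w
    rw [mem_langAt_10064, mem_langAt_10064, h]
  · rw [← langAt_zero_10064, aut_langAt_10064, hg]

theorem aut_surj_10064 (x : (Fin (m+1) → A → Fin (m+1)) × (Fin (m+1) → Bool))
    (hx : x ∈ MinAut A m) (hL : lang x = L) :
    ∃ g : Fin (m+1) ≃ Set.range L.leftQuotient, (g 0).1 = L ∧ aut_10064 L g = x := by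
  have hr : Set.range (langAt_10064 x) = Set.range L.leftQuotient := by
    rw [langAt_range_10064 x hx, hL]
  let f : Fin (m+1) → Set.range L.leftQuotient := fun q => ⟨langAt_10064 x q, by
    rw [← hr]; exact ⟨q, rfl⟩⟩
  have hf : Function.Bijective f := by
    constructor
    · intro p q h
      exact langAt_inj_10064 x hx (congrArg Subtype.val h)
    · rintro ⟨K, hK⟩
      rw [← hr] at hK
      obtain ⟨q, hq⟩ := hK
      exact ⟨q, Subtype.ext hq⟩
  have hg : ∀ q, ((Equiv.ofBijective f hf) q).1 = langAt_10064 x q := fun q => rfl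
  refine ⟨Equiv.ofBijective f hf, ?_, ?_⟩
  · rw [hg, langAt_zero_10064, hL]
  · apply Prod.ext
    · funext q a
      show (Equiv.ofBijective f hf).symm ⟨_, _⟩ = x.1 q a
      rw [Equiv.symm_apply_eq]
      apply Subtype.ext
      show ((Equiv.ofBijective f hf) q).1.leftQuotient [a] = _
      rw [hg, hg, langAt_quot_10064]
      rfl
    · funext q
      rw [Bool.eq_iff_iff, aut_snd_10064, hg, mem_langAt_10064]
      rfl

end fib10064

theorem fiber_card {A : Type} {m : ℕ} (L : Language A) (h : L.IsRegular) (hs : sc L = m + 1) :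
    {x | x ∈ MinAut A m ∧ lang x = L}.ncard = m.factorial := by
  obtain ⟨hfin, hsc⟩ := sc_eq_ncard L h
  rw [hs] at hsc
  have hFin : Finite (Set.range L.leftQuotient) := hfin
  have hcard : Nat.card (Set.range L.leftQuotient) = m + 1 := by
    rw [Nat.card_coe_set_eq, ← hsc]
  have hL0 : L ∈ Set.range L.leftQuotient := ⟨[], by simp⟩
  obtain ⟨E, hE⟩ : ∃ E : Fin (m+1) ≃ Set.range L.leftQuotient, E 0 = ⟨L, hL0⟩ := by
    let E0 : Fin (m+1) ≃ Set.range L.leftQuotient := (Finite.equivFinOfCardEq hcard).symm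
    refine ⟨(Equiv.swap 0 (E0.symm ⟨L, hL0⟩)).trans E0, ?_⟩
    rw [Equiv.trans_apply, Equiv.swap_apply_left, Equiv.apply_symm_apply]
  let Φ : Equiv.Perm (Fin m) → (Fin (m+1) → A → Fin (m+1)) × (Fin (m+1) → Bool) :=
    fun e => aut_10064 L ((Equiv.Perm.decomposeFin.symm (0, e)).trans E)
  have hΦ : Function.Injective Φ := by
    intro e e' hee
    have h1 := aut_inj_10064 L hee
    have h2 : (Equiv.Perm.decomposeFin.symm (0, e) : Equiv.Perm (Fin (m+1))) =
        Equiv.Perm.decomposeFin.symm (0, e') := by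
      apply Equiv.ext
      intro q
      have h3 := congrArg (fun k : Fin (m+1) ≃ Set.range L.leftQuotient => k q) h1
      exact E.injective h3
    have h4 := Equiv.Perm.decomposeFin.symm.injective h2
    exact (Prod.ext_iff.1 h4).2
  have hset : {x | x ∈ MinAut A m ∧ lang x = L} = Set.range Φ := by
    ext x
    constructor
    · rintro ⟨hx, hL⟩
      obtain ⟨g, hg0, hg⟩ := aut_surj_10064 L x hx hL
      have hσ0 : (g.trans E.symm) 0 = 0 := by
        rw [Equiv.trans_apply, Equiv.symm_apply_eq, hE]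
        exact Subtype.ext hg0
      set σ : Equiv.Perm (Fin (m+1)) := g.trans E.symm with hσ
      have h5 : Equiv.Perm.decomposeFin.symm (Equiv.Perm.decomposeFin σ) = σ :=
        Equiv.symm_apply_apply _ _
      have h6 : (Equiv.Perm.decomposeFin σ).1 = 0 := by
        have h7 := Equiv.Perm.decomposeFin_symm_apply_zero (Equiv.Perm.decomposeFin σ).1
          (Equiv.Perm.decomposeFin σ).2
        rw [Prod.mk.eta, h5, hσ0] at h7
        exact h7.symm
      refine ⟨(Equiv.Perm.decomposeFin σ).2, ?_⟩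
      show aut_10064 L ((Equiv.Perm.decomposeFin.symm
        (0, (Equiv.Perm.decomposeFin σ).2)).trans E) = x
      rw [← h6, Prod.mk.eta, h5, ← hg]
      congr 1
      ext q : 1
      simp [hσ]
    · rintro ⟨e, rfl⟩
      apply aut_mem_10064
      rw [Equiv.trans_apply, Equiv.Perm.decomposeFin_symm_apply_zero, hE]
  rw [hset, ← Nat.card_coe_set_eq, Nat.card_range_of_injective hΦ, Nat.card_eq_fintype_card,
    Fintype.card_perm, Fintype.card_fin]

end SI
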