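import Pool.Agent.Helper513.SI.Jb

set_option autoImplicit false

namespace SI

/-- the regular languages over `A` of state complexity `n` -/
def R (A : Type) (n : ℕ) : Set (Language A) := {L | L.IsRegular ∧ sc L = n}

/-- the expected state complexity of the intersection of two independent uniformly random
languages of state complexity `n` -/
noncomputable def E (A : Type) (n : ℕ) : ℝ :=
  (∑ᶠ p ∈ (R A n) ×ˢ (R A n), (sc (p.1 ⊓ p.2) : ℝ)) / ((R A n).ncard : ℝ)^2








theorem R_finite (A : Type) [Finite A] (n : ℕ) : (R A n).Finite := by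
  rcases n with _ | m
  · have : R A 0 = ∅ := by
      ext L
      simp only [Set.mem_empty_iff_false, iff_false]
      rintro ⟨h1, h2⟩
      obtain ⟨hf, he⟩ := sc_eq_ncard L h1
      rw [h2] at he
      have := (Set.ncard_eq_zero hf).1 he.symm
      exact (Set.range_nonempty L.leftQuotient).ne_empty this
    rw [this]
    exact Set.finite_empty
  · refine (Set.finite_range (lang : (Fin (m+1) → A → Fin (m+1)) × (Fin (m+1) → Bool) → Language A)).subset ?_
    rintro L ⟨h1, h2⟩
    have h := fiber_card L h1 h2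
    have hne : {x | x ∈ MinAut A m ∧ lang x = L}.Nonempty := by
      apply Set.nonempty_of_ncard_ne_zero
      rw [h]
      exact Nat.factorial_ne_zero m
    obtain ⟨x, _, hx⟩ := hne
    exact ⟨x, hx⟩

theorem R_nonempty (A : Type) [Nonempty A] (n : ℕ) (hn : 1 ≤ n) : (R A n).Nonempty := by
  obtain ⟨a⟩ := ‹Nonempty A›
  let L : Language A := {w | n - 1 ≤ w.length}
  let g : ℕ → Language A := fun i => {v | n - 1 ≤ i + v.length}
  have hq : ∀ w : List A, L.leftQuotient w = g w.length := by
    intro w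
    ext v
    change n - 1 ≤ (w ++ v).length ↔ n - 1 ≤ w.length + v.length
    rw [List.length_append]
  have hr : Set.range L.leftQuotient = g '' (Set.Iio n) := by
    ext K
    constructor
    · rintro ⟨w, rfl⟩
      refine ⟨min w.length (n - 1), ?_, ?_⟩
      · simp only [Set.mem_Iio]
        omega
      · rw [hq]
        ext v
        change n - 1 ≤ min w.length (n - 1) + v.length ↔ n - 1 ≤ w.length + v.length
        omega
    · rintro ⟨i, _, rfl⟩
      refine ⟨List.replicate i a, ?_⟩
      rw [hq, List.length_replicate]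
  have hinj : Set.InjOn g (Set.Iio n) := by
    have key : ∀ i j : ℕ, i < j → j < n → g i ≠ g j := by
      intro i j hij hj he
      have h1 : List.replicate (n - 1 - j) a ∈ g j := by
        change n - 1 ≤ j + (List.replicate (n - 1 - j) a).length
        rw [List.length_replicate]
        omega
      rw [← he] at h1
      change n - 1 ≤ i + (List.replicate (n - 1 - j) a).length at h1
      rw [List.length_replicate] at h1
      omega
    intro i hi j hj he
    rcases lt_trichotomy i j with h | h | h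
    · exact absurd he (key i j h hj)
    · exact h
    · exact absurd he.symm (key j i h hi)
  have hfin : (Set.range L.leftQuotient).Finite := by
    rw [hr]
    exact (Set.finite_Iio n).image g
  have hreg : L.IsRegular := Language.isRegular_iff_finite_range_leftQuotient.2 hfin
  refine ⟨L, hreg, ?_⟩
  rw [(sc_eq_ncard L hreg).2, hr, Set.ncard_image_of_injOn hinj]
  rw [← Finset.coe_Iio, Set.ncard_coe_finset]
  simp

open Classical in
theorem sum_lang_aux (A : Type) [Finite A] (m : ℕ) [Fintype (MinAut A m)] (f : Language A → ℝ) :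
    ∑ x ∈ (MinAut A m).toFinset, f (lang x)
      = (m.factorial : ℝ) * ∑ L ∈ (R_finite A (m+1)).toFinset, f L := by
  have hmaps : ∀ x ∈ (MinAut A m).toFinset, lang x ∈ (R_finite A (m+1)).toFinset := by
    intro x hx
    rw [Set.mem_toFinset] at hx
    rw [Set.Finite.mem_toFinset]
    exact ⟨lang_regular x, lang_sc x hx⟩
  rw [← Finset.sum_fiberwise_of_maps_to hmaps, Finset.mul_sum]
  refine Finset.sum_congr rfl ?_
  intro L hL
  rw [Set.Finite.mem_toFinset] at hL
  have h1 : ∑ x ∈ (MinAut A m).toFinset with lang x = L, f (lang x)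
      = ∑ x ∈ (MinAut A m).toFinset with lang x = L, f L := by
    refine Finset.sum_congr rfl ?_
    intro x hx
    rw [(Finset.mem_filter.1 hx).2]
  rw [h1, Finset.sum_const, nsmul_eq_mul]
  congr 1
  have h2 := fiber_card L hL.1 hL.2
  have h3 : {x | x ∈ MinAut A m ∧ lang x = L}
      = (((MinAut A m).toFinset.filter (fun x => lang x = L) : Finset _) : Set _) := by
    ext x
    simp
  rw [h3, Set.ncard_coe_finset] at h2
  rw [h2]

open Classical in
theorem E_mul (A : Type) [Finite A] (m : ℕ) [Fintype (MinAut A m)] :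
    E A (m+1) * ((MinAut A m).ncard : ℝ)^2
      = ∑ x ∈ (MinAut A m).toFinset, ∑ y ∈ (MinAut A m).toFinset,
          (sc (lang x ⊓ lang y) : ℝ) := by
  have hR := R_finite A (m+1)
  have h1 : ∑ x ∈ (MinAut A m).toFinset, ∑ y ∈ (MinAut A m).toFinset,
          (sc (lang x ⊓ lang y) : ℝ)
      = (m.factorial : ℝ) * ∑ L ∈ hR.toFinset, ((m.factorial : ℝ) * ∑ K ∈ hR.toFinset,
          (sc (L ⊓ K) : ℝ)) := by
    rw [← sum_lang_aux A m (fun L => (m.factorial : ℝ) * ∑ K ∈ hR.toFinset, (sc (L ⊓ K) : ℝ))]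
    refine Finset.sum_congr rfl ?_
    intro x _
    exact sum_lang_aux A m (fun K => (sc (lang x ⊓ K) : ℝ))
  have h2 : ((MinAut A m).ncard : ℝ) = (m.factorial : ℝ) * (hR.toFinset.card : ℝ) := by
    have := sum_lang_aux A m (fun _ => (1 : ℝ))
    rw [Finset.sum_const, Finset.sum_const, nsmul_eq_mul, nsmul_eq_mul, mul_one, mul_one] at this
    rw [Set.ncard_eq_toFinset_card', this]
  have h3 : ((R A (m+1)).ncard : ℝ) = (hR.toFinset.card : ℝ) := by
    rw [Set.ncard_eq_toFinset_card _ hR]
  have h4 : ∑ᶠ p ∈ (R A (m+1)) ×ˢ (R A (m+1)), (sc (p.1 ⊓ p.2) : ℝ)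
      = ∑ L ∈ hR.toFinset, ∑ K ∈ hR.toFinset, (sc (L ⊓ K) : ℝ) := by
    rw [← Finset.sum_product']
    rw [finsum_mem_eq_finite_toFinset_sum _ (hR.prod hR)]
    refine Finset.sum_congr ?_ (fun _ _ => rfl)
    ext p
    simp
  rw [h1, ← Finset.mul_sum, h2]
  unfold E
  rw [h3, h4]
  by_cases hc : (hR.toFinset.card : ℝ) = 0
  · have he : hR.toFinset = ∅ := by
      rw [← Finset.card_eq_zero]
      exact_mod_cast hc
    rw [he]
    simp
  · field_simp

/-- relabelling of letters -/
def phi {A B : Type} (e : A ≃ B) : Language A ≃ Language B where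
  toFun L := {w | w.map e.symm ∈ L}
  invFun L := {w | w.map e ∈ L}
  left_inv L := by
    ext w
    change (w.map e).map e.symm ∈ L ↔ w ∈ L
    rw [List.map_map]
    simp
  right_inv L := by
    ext w
    change (w.map e.symm).map e ∈ L ↔ w ∈ L
    rw [List.map_map]
    simp

theorem phi_acc {A B : Type} (e : A ≃ B) {σ : Type} (M : DFA A σ) :
    (M.comap e.symm).accepts = phi e M.accepts := by
  rw [DFA.accepts_comap]
  rfl

theorem phi_symm {A B : Type} (e : A ≃ B) : (phi e).symm = phi e.symm := rfl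

theorem phi_sc {A B : Type} (e : A ≃ B) (L : Language A) : sc (phi e L) = sc L := by
  unfold sc
  congr 1
  ext n
  constructor
  · rintro ⟨M, hM⟩
    refine ⟨M.comap e, ?_⟩
    have := phi_acc e.symm M
    rw [Equiv.symm_symm] at this
    rw [this, hM, ← phi_symm, Equiv.symm_apply_apply]
  · rintro ⟨M, hM⟩
    refine ⟨M.comap e.symm, ?_⟩
    rw [phi_acc, hM]

theorem phi_reg {A B : Type} (e : A ≃ B) (L : Language A) (h : L.IsRegular) :
    (phi e L).IsRegular := by
  obtain ⟨σ, hσ, M, hM⟩ := h
  exact ⟨σ, hσ, M.comap e.symm, by rw [phi_acc, hM]⟩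

theorem phi_R {A B : Type} (e : A ≃ B) (n : ℕ) (L : Language A) (h : L ∈ R A n) :
    phi e L ∈ R B n := ⟨phi_reg e L h.1, by rw [phi_sc]; exact h.2⟩

theorem phi_image {A B : Type} (e : A ≃ B) (n : ℕ) : phi e '' R A n = R B n := by
  ext L
  constructor
  · rintro ⟨K, hK, rfl⟩
    exact phi_R e n K hK
  · intro hL
    refine ⟨phi e.symm L, phi_R e.symm n L hL, ?_⟩
    rw [← phi_symm, Equiv.apply_symm_apply]

theorem phi_inf {A B : Type} (e : A ≃ B) (L K : Language A) :
    phi e (L ⊓ K) = phi e L ⊓ phi e K := rfl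

theorem E_map (A B : Type) (e : A ≃ B) (n : ℕ) : E A n = E B n := by
  unfold E
  have h1 : (R B n).ncard = (R A n).ncard := by
    rw [← phi_image e n, Set.ncard_image_of_injective _ (phi e).injective]
  rw [h1]
  congr 1
  refine finsum_mem_eq_of_bijOn (Prod.map (phi e) (phi e)) ?_ ?_
  · refine ⟨?_, ?_, ?_⟩
    · rintro ⟨L, K⟩ ⟨hL, hK⟩
      exact ⟨phi_R e n L hL, phi_R e n K hK⟩
    · exact ((phi e).injective.prodMap (phi e).injective).injOn
    · rintro ⟨L, K⟩ ⟨hL, hK⟩
      refine ⟨(phi e.symm L, phi e.symm K), ⟨phi_R e.symm n L hL, phi_R e.symm n K hK⟩, ?_⟩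
      simp only [Prod.map, ← phi_symm, Equiv.apply_symm_apply]
  · rintro ⟨L, K⟩ _
    change (sc (L ⊓ K) : ℝ) = (sc (phi e L ⊓ phi e K) : ℝ)
    rw [← phi_inf, phi_sc]

end SI
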