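import Pool.Agent.Helper513.SI.Defs

set_option autoImplicit false

namespace SI
open RA
variable {V : Type} {k : ℕ}

theorem run_traj [NeZero k] (T : V → Fin k → V) (p : V) (w : List (Fin k)) :
    ∃ W : ℕ → Fin k, traj T p W w.length = run T p w := by
  refine ⟨fun i => w.getD i 0, ?_⟩
  have key : ∀ t, t ≤ w.length → traj T p (fun i => w.getD i 0) t = run T p (w.take t) := by
    intro t
    induction t with
    | zero => intro _; simp [traj, run]
    | succ t ih =>
      intro ht
      have h1 : t < w.length := ht
      have h2 := ih h1.le
      show T (traj T p (fun i => w.getD i 0) t) (w.getD t 0) = _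
      rw [h2, List.take_succ_eq_append_getElem h1]
      unfold run
      rw [List.foldl_append, List.foldl_cons, List.foldl_nil, List.getD_eq_getElem _ _ h1]
  have := key w.length le_rfl
  rw [List.take_length] at this
  exact this

/-- TARGET: changing cells whose old target stays reachable keeps accessibility. -/
theorem acc_modify (T T' : V → Fin k → V) (o : V) (hT : Acc T o)
    (h : ∀ x a, T' x a ≠ T x a → ∃ w, run T' o w = T x a) : Acc T' o := by
  have key : ∀ w : List (Fin k), ∃ w', run T' o w' = run T o w := by
    intro w
    induction w using List.reverseRecOn with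
    | nil => exact ⟨[], rfl⟩
    | append_singleton w a ih =>
      obtain ⟨w', hw'⟩ := ih
      have h1 : run T o (w ++ [a]) = T (run T o w) a := by
        unfold run; rw [List.foldl_append, List.foldl_cons, List.foldl_nil]
      by_cases hc : T' (run T o w) a = T (run T o w) a
      · refine ⟨w' ++ [a], ?_⟩
        have h2 : run T' o (w' ++ [a]) = T' (run T' o w') a := by
          unfold run; rw [List.foldl_append, List.foldl_cons, List.foldl_nil]
        rw [h1, h2, hw', hc]
      · rw [h1]
        exact h _ _ hc
  intro q
  obtain ⟨w, hw⟩ := hT q
  obtain ⟨w', hw'⟩ := key w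
  exact ⟨w', hw'.trans hw⟩

theorem run_traj' (T : V → Fin k → V) (p : V) (W : ℕ → Fin k) (t : ℕ) :
    run T p ((List.range t).map W) = traj T p W t := by
  induction t with
  | zero => rfl
  | succ t ih =>
    rw [List.range_succ, List.map_append, List.map_cons, List.map_nil]
    unfold run at ih ⊢
    rw [List.foldl_append, List.foldl_cons, List.foldl_nil, ih]
    rfl

end SI
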