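import Pool.Agent.Helper513.SI.A

set_option autoImplicit false

namespace SI
open RA
variable {V : Type} {k : ℕ}


end SI

namespace SI
open RA
variable {V : Type} {k : ℕ}

/-- walk with resets: the letter `none` means going back to `o` -/
def rtraj (T : V → Fin k → V) (o : V) (W : ℕ → Option (Fin k)) : ℕ → V
  | 0 => o
  | t + 1 => match W t with
    | none => o
    | some a => T (rtraj T o W t) a

/-- cells used in the first `N` steps -/
def rcells [DecidableEq V] (T : V → Fin k → V) (o : V) (W : ℕ → Option (Fin k)) (N : ℕ) :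
    Finset (V × Fin k) :=
  (Finset.range N).biUnion (fun t => match W t with
    | none => ∅
    | some a => {(rtraj T o W t, a)})

/-- states visited in the first `N` steps -/
def rvis [DecidableEq V] (T : V → Fin k → V) (o : V) (W : ℕ → Option (Fin k)) (N : ℕ) : Finset V :=
  (Finset.range (N + 1)).image (rtraj T o W)

theorem ec_mem_rcells [DecidableEq V] (T : V → Fin k → V) (o : V) (W : ℕ → Option (Fin k)) (t : ℕ)
    (x : V × Fin k) :
    x ∈ rcells T o W t ↔ ∃ s < t, ∃ a, W s = some a ∧ x = (rtraj T o W s, a) := by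
  unfold rcells
  simp only [Finset.mem_biUnion, Finset.mem_range]
  constructor
  · rintro ⟨s, hs, hx⟩
    cases h : W s with
    | none =>
      rw [h] at hx
      simp at hx
    | some a =>
      rw [h] at hx
      exact ⟨s, hs, a, h, by simpa using hx⟩
  · rintro ⟨s, hs, a, ha, hx⟩
    refine ⟨s, hs, ?_⟩
    rw [ha, hx]
    simp

theorem ec_mem_rvis [DecidableEq V] (T : V → Fin k → V) (o : V) (W : ℕ → Option (Fin k)) (t : ℕ)
    (v : V) : v ∈ rvis T o W t ↔ ∃ s ≤ t, rtraj T o W s = v := by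
  unfold rvis
  simp only [Finset.mem_image, Finset.mem_range, Nat.lt_succ_iff]

theorem ec_rtraj_some (T : V → Fin k → V) (o : V) (W : ℕ → Option (Fin k)) (t : ℕ) (a : Fin k)
    (h : W t = some a) : rtraj T o W (t + 1) = T (rtraj T o W t) a := by
  simp only [rtraj, h]

theorem ec_rtraj_none (T : V → Fin k → V) (o : V) (W : ℕ → Option (Fin k)) (t : ℕ)
    (h : W t = none) : rtraj T o W (t + 1) = o := by
  simp only [rtraj, h]

theorem ec_rcells_none [DecidableEq V] (T : V → Fin k → V) (o : V) (W : ℕ → Option (Fin k)) (t : ℕ)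
    (h : W t = none) : rcells T o W (t + 1) = rcells T o W t := by
  ext x
  rw [ec_mem_rcells, ec_mem_rcells]
  constructor
  · rintro ⟨s, hs, a, ha, hx⟩
    rcases Nat.lt_succ_iff_lt_or_eq.1 hs with h1 | h1
    · exact ⟨s, h1, a, ha, hx⟩
    · rw [h1, h] at ha
      exact absurd ha (by simp)
  · rintro ⟨s, hs, a, ha, hx⟩
    exact ⟨s, Nat.lt_succ_of_lt hs, a, ha, hx⟩

theorem ec_rcells_some [DecidableEq V] (T : V → Fin k → V) (o : V) (W : ℕ → Option (Fin k)) (t : ℕ)
    (a : Fin k) (h : W t = some a) :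
    rcells T o W (t + 1) = insert (rtraj T o W t, a) (rcells T o W t) := by
  ext x
  rw [Finset.mem_insert, ec_mem_rcells, ec_mem_rcells]
  constructor
  · rintro ⟨s, hs, b, hb, hx⟩
    rcases Nat.lt_succ_iff_lt_or_eq.1 hs with h1 | h1
    · exact Or.inr ⟨s, h1, b, hb, hx⟩
    · left
      rw [h1] at hb hx
      rw [h] at hb
      rw [hx, Option.some_injective _ hb]
  · rintro (hx | ⟨s, hs, b, hb, hx⟩)
    · exact ⟨t, Nat.lt_succ_self t, a, h, hx⟩
    · exact ⟨s, Nat.lt_succ_of_lt hs, b, hb, hx⟩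

theorem ec_rvis_succ [DecidableEq V] (T : V → Fin k → V) (o : V) (W : ℕ → Option (Fin k)) (t : ℕ) :
    rvis T o W (t + 1) = insert (rtraj T o W (t + 1)) (rvis T o W t) := by
  ext v
  rw [Finset.mem_insert, ec_mem_rvis, ec_mem_rvis]
  constructor
  · rintro ⟨s, hs, hx⟩
    rcases Nat.le_succ_iff.1 hs with h1 | h1
    · exact Or.inr ⟨s, h1, hx⟩
    · left
      rw [← hx, h1]
  · rintro (hx | ⟨s, hs, hx⟩)
    · exact ⟨t + 1, le_rfl, hx.symm⟩
    · exact ⟨s, Nat.le_succ_of_le hs, hx⟩

/-- the excess -/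
def ec_e [DecidableEq V] (T : V → Fin k → V) (o : V) (W : ℕ → Option (Fin k)) (t : ℕ) : ℤ :=
  (rcells T o W t).card + 1 - (rvis T o W t).card

theorem ec_zero [DecidableEq V] (T : V → Fin k → V) (o : V) (W : ℕ → Option (Fin k)) :
    ec_e T o W 0 = 0 := by
  unfold ec_e
  have h1 : rcells T o W 0 = ∅ := by
    ext x
    rw [ec_mem_rcells]
    simp
  have h2 : rvis T o W 0 = {o} := by
    ext v
    rw [ec_mem_rvis, Finset.mem_singleton]
    constructor
    · rintro ⟨s, hs, hx⟩
      rw [Nat.le_zero.1 hs] at hx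
      exact hx.symm
    · intro h
      exact ⟨0, le_rfl, h.symm⟩
  rw [h1, h2]
  simp

theorem ec_step [DecidableEq V] (T : V → Fin k → V) (o : V) (W : ℕ → Option (Fin k)) (t : ℕ) :
    ec_e T o W (t + 1) = ec_e T o W t ∨
    (ec_e T o W (t + 1) = ec_e T o W t + 1 ∧ ∃ a, W t = some a ∧
      (rtraj T o W t, a) ∉ rcells T o W t ∧ ∃ j ≤ t, T (rtraj T o W t) a = rtraj T o W j) := by
  unfold ec_e
  cases h : W t with
  | none =>
    left
    have h1 : rtraj T o W (t + 1) ∈ rvis T o W t := by
      rw [ec_mem_rvis]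
      exact ⟨0, Nat.zero_le t, (ec_rtraj_none T o W t h).symm⟩
    rw [ec_rcells_none T o W t h, ec_rvis_succ, Finset.insert_eq_of_mem h1]
  | some a =>
    have hr := ec_rtraj_some T o W t a h
    by_cases hx : (rtraj T o W t, a) ∈ rcells T o W t
    · left
      have h1 : rtraj T o W (t + 1) ∈ rvis T o W t := by
        rw [ec_mem_rcells] at hx
        obtain ⟨s, hs, b, hb, he⟩ := hx
        rw [Prod.mk.injEq] at he
        rw [ec_mem_rvis]
        refine ⟨s + 1, hs, ?_⟩
        rw [ec_rtraj_some T o W s b hb, hr, he.1, he.2]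
      rw [ec_rcells_some T o W t a h, ec_rvis_succ, Finset.insert_eq_of_mem h1,
        Finset.insert_eq_of_mem hx]
    · rw [ec_rcells_some T o W t a h, ec_rvis_succ, Finset.card_insert_of_notMem hx]
      by_cases h1 : rtraj T o W (t + 1) ∈ rvis T o W t
      · right
        rw [Finset.insert_eq_of_mem h1]
        refine ⟨by push_cast; ring, a, rfl, hx, ?_⟩
        rw [ec_mem_rvis] at h1
        obtain ⟨j, hj, hj'⟩ := h1
        exact ⟨j, hj, by rw [← hr, hj']⟩
      · left
        rw [Finset.card_insert_of_notMem h1]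
        push_cast
        ring

theorem ec_mono [DecidableEq V] (T : V → Fin k → V) (o : V) (W : ℕ → Option (Fin k)) :
    Monotone (ec_e T o W) := by
  apply monotone_nat_of_le_succ
  intro t
  rcases ec_step T o W t with h | h
  · exact h.ge
  · rw [h.1]
    linarith

theorem ec_exists [DecidableEq V] (T : V → Fin k → V) (o : V) (W : ℕ → Option (Fin k)) (c : ℕ) :
    ∀ N : ℕ, (c : ℤ) + 1 ≤ ec_e T o W N →
    ∃ t < N, ec_e T o W t = c ∧ ∃ a, W t = some a ∧
      (rtraj T o W t, a) ∉ rcells T o W t ∧ ∃ j ≤ t, T (rtraj T o W t) a = rtraj T o W j := by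
  intro N
  induction N with
  | zero =>
    intro h
    rw [ec_zero] at h
    omega
  | succ N ih =>
    intro h
    by_cases h1 : (c : ℤ) + 1 ≤ ec_e T o W N
    · obtain ⟨t, ht, h2⟩ := ih h1
      exact ⟨t, Nat.lt_succ_of_lt ht, h2⟩
    · rcases ec_step T o W N with h2 | ⟨h2, h3⟩
      · rw [h2] at h
        exact absurd h h1
      · refine ⟨N, Nat.lt_succ_self N, ?_, h3⟩
        rw [h2] at h
        omega

/-- agreement on the cells used -/
theorem ec_agree [DecidableEq V] (T T' : V → Fin k → V) (o : V) (W : ℕ → Option (Fin k)) (t : ℕ)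
    (h : ∀ x ∈ rcells T o W t, T' x.1 x.2 = T x.1 x.2) :
    ∀ s ≤ t, rtraj T' o W s = rtraj T o W s := by
  intro s
  induction s with
  | zero =>
    intro _
    rfl
  | succ s ih =>
    intro hs
    have ih' := ih (Nat.le_of_succ_le hs)
    cases hW : W s with
    | none => rw [ec_rtraj_none T' o W s hW, ec_rtraj_none T o W s hW]
    | some a =>
      rw [ec_rtraj_some T' o W s a hW, ec_rtraj_some T o W s a hW, ih']
      apply h (rtraj T o W s, a)
      rw [ec_mem_rcells]
      exact ⟨s, hs, a, hW, rfl⟩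

theorem ec_agree_e [DecidableEq V] (T T' : V → Fin k → V) (o : V) (W : ℕ → Option (Fin k)) (t : ℕ)
    (h : ∀ x ∈ rcells T o W t, T' x.1 x.2 = T x.1 x.2) : ec_e T' o W t = ec_e T o W t := by
  have h1 := ec_agree T T' o W t h
  have h2 : rcells T' o W t = rcells T o W t := by
    ext x
    rw [ec_mem_rcells, ec_mem_rcells]
    constructor
    · rintro ⟨s, hs, a, ha, hx⟩
      exact ⟨s, hs, a, ha, by rw [hx, h1 s hs.le]⟩
    · rintro ⟨s, hs, a, ha, hx⟩
      exact ⟨s, hs, a, ha, by rw [hx, h1 s hs.le]⟩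
  have h3 : rvis T' o W t = rvis T o W t := by
    ext v
    rw [ec_mem_rvis, ec_mem_rvis]
    constructor
    · rintro ⟨s, hs, hx⟩
      exact ⟨s, hs, by rw [← hx, h1 s hs]⟩
    · rintro ⟨s, hs, hx⟩
      exact ⟨s, hs, by rw [← hx, h1 s hs]⟩
  unfold ec_e
  rw [h2, h3]

theorem ec_reach (T : V → Fin k → V) (o : V) (W : ℕ → Option (Fin k)) :
    ∀ t, ∃ w, run T o w = rtraj T o W t := by
  intro t
  induction t with
  | zero => exact ⟨[], rfl⟩
  | succ t ih =>
    cases hW : W t with
    | none =>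
      rw [ec_rtraj_none T o W t hW]
      exact ⟨[], rfl⟩
    | some a =>
      obtain ⟨w, hw⟩ := ih
      refine ⟨w ++ [a], ?_⟩
      rw [ec_rtraj_some T o W t a hW, ← hw]
      unfold run
      rw [List.foldl_append]
      rfl

/-- table with one cell changed -/
def ec_upd [DecidableEq V] (T : V → Fin k → V) (x : V × Fin k) (y : V) : V → Fin k → V :=
  fun v b => if (v, b) = x then y else T v b

/-- the set of tables with excess at least `c` -/
def ec_E [DecidableEq V] (o : V) (W : ℕ → Option (Fin k)) (N c : ℕ) : Set (V → Fin k → V) :=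
  {T | Acc T o ∧ (rvis T o W N).card + c ≤ (rcells T o W N).card + 1}

theorem ec_E_iff [DecidableEq V] (o : V) (W : ℕ → Option (Fin k)) (N c : ℕ) (T : V → Fin k → V) :
    T ∈ ec_E o W N c ↔ Acc T o ∧ (c : ℤ) ≤ ec_e T o W N := by
  unfold ec_E ec_e
  constructor
  · rintro ⟨h1, h2⟩
    exact ⟨h1, by omega⟩
  · rintro ⟨h1, h2⟩
    exact ⟨h1, by omega⟩

theorem ec_main [Fintype V] [DecidableEq V] (o : V) (W : ℕ → Option (Fin k)) (N c : ℕ) :
    (ec_E o W N (c + 1)).ncard * Fintype.card V ≤ (ec_E o W N c).ncard * (N * (N + 1)) := by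
  classical
  have hex : ∀ T : V → Fin k → V, ∃ q : ℕ × ℕ × Option (Fin k), T ∈ ec_E o W N (c + 1) →
      q.1 < N ∧ ec_e T o W q.1 = c ∧ ∃ a, q.2.2 = some a ∧ W q.1 = some a ∧
      (rtraj T o W q.1, a) ∉ rcells T o W q.1 ∧ q.2.1 ≤ q.1 ∧
      T (rtraj T o W q.1) a = rtraj T o W q.2.1 := by
    intro T
    by_cases hT : T ∈ ec_E o W N (c + 1)
    · rw [ec_E_iff] at hT
      have h1 : (c : ℤ) + 1 ≤ ec_e T o W N := by
        have := hT.2
        push_cast at this
        exact this
      obtain ⟨t, ht, he, a, ha, hx, j, hj, hj'⟩ := ec_exists T o W c N h1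
      exact ⟨(t, j, some a), fun _ => ⟨ht, he, a, rfl, ha, hx, hj, hj'⟩⟩
    · exact ⟨(0, 0, none), fun h => absurd h hT⟩
  choose q hq using hex
  -- the map
  let f : (V → Fin k → V) × V → (V → Fin k → V) × (ℕ × ℕ) := fun p =>
    (match (q p.1).2.2 with
      | none => p.1
      | some a => ec_upd p.1 (rtraj p.1 o W (q p.1).1, a) p.2, ((q p.1).1, (q p.1).2.1))
  have hfv : ∀ (T : V → Fin k → V) (y : V) (a : Fin k), (q T).2.2 = some a →
      f (T, y) = (ec_upd T (rtraj T o W (q T).1, a) y, ((q T).1, (q T).2.1)) := by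
    intro T y a ha
    simp only [f, ha]
  -- agreement of the modified table
  have hagree : ∀ (T : V → Fin k → V) (y : V) (a : Fin k) (t : ℕ),
      (rtraj T o W t, a) ∉ rcells T o W t → ∀ x ∈ rcells T o W t,
      ec_upd T (rtraj T o W t, a) y x.1 x.2 = T x.1 x.2 := by
    intro T y a t hn x hx
    unfold ec_upd
    rw [if_neg]
    intro h
    apply hn
    rw [← h]
    exact hx
  have hcard1 : (ec_E o W N (c + 1) ×ˢ (Set.univ : Set V)).ncard
      = (ec_E o W N (c + 1)).ncard * Fintype.card V := by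
    rw [Set.ncard_prod, Set.ncard_univ, Nat.card_eq_fintype_card]
  have hcard2 : (ec_E o W N c ×ˢ ((↑(Finset.range N) : Set ℕ) ×ˢ (↑(Finset.range (N + 1)) : Set ℕ))).ncard
      = (ec_E o W N c).ncard * (N * (N + 1)) := by
    rw [Set.ncard_prod, Set.ncard_prod, Set.ncard_coe_finset, Set.ncard_coe_finset,
      Finset.card_range, Finset.card_range]
  rw [← hcard1, ← hcard2]
  apply Set.ncard_le_ncard_of_injOn f
  · rintro ⟨T, y⟩ ⟨hT, -⟩
    obtain ⟨h1, h2, a, ha, hWa, hn, hj, hj'⟩ := hq T hT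
    rw [hfv T y a ha]
    have hag := hagree T y a (q T).1 hn
    refine ⟨?_, ?_, ?_⟩
    · rw [ec_E_iff]
      constructor
      · apply acc_modify T _ o ((ec_E_iff o W N (c + 1) T).1 hT).1
        intro x b hxb
        have hxb' : (x, b) = (rtraj T o W (q T).1, a) := by
          by_contra hne
          apply hxb
          show (if (x, b) = (rtraj T o W (q T).1, a) then y else T x b) = T x b
          rw [if_neg hne]
        rw [Prod.mk.injEq] at hxb'
        rw [hxb'.1, hxb'.2, hj', ← ec_agree T _ o W (q T).1 hag (q T).2.1 hj]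
        exact ec_reach _ o W _
      · have h3 := ec_agree_e T _ o W (q T).1 hag
        rw [← h2, ← h3]
        exact ec_mono _ o W h1.le
    · exact Finset.mem_coe.2 (Finset.mem_range.2 h1)
    · exact Finset.mem_coe.2 (Finset.mem_range.2 (lt_of_le_of_lt hj (Nat.lt_succ_of_lt h1)))
  · rintro ⟨T1, y1⟩ ⟨hT1, -⟩ ⟨T2, y2⟩ ⟨hT2, -⟩ heq
    obtain ⟨h1, h2, a, ha, hWa, hn, hj, hj'⟩ := hq T1 hT1
    obtain ⟨k1, k2, b, hb, hWb, kn, kj, kj'⟩ := hq T2 hT2
    rw [hfv T1 y1 a ha, hfv T2 y2 b hb] at heq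
    rw [Prod.mk.injEq, Prod.mk.injEq] at heq
    obtain ⟨e1, e2, e3⟩ := heq
    have hag1 := hagree T1 y1 a (q T1).1 hn
    have hag2 := hagree T2 y2 b (q T2).1 kn
    rw [← e2] at k1 kj hWb kn kj' hag2 e1
    rw [← e3] at kj kj'
    have hab : a = b := by
      rw [hWa] at hWb
      exact Option.some_injective _ hWb
    subst hab
    obtain ⟨t, ht⟩ : ∃ t, t = (q T1).1 := ⟨_, rfl⟩
    obtain ⟨j, hjj⟩ : ∃ j, j = (q T1).2.1 := ⟨_, rfl⟩
    rw [← ht] at e1 h1 hj hn hj' kj kn kj' hag1 hag2
    rw [← hjj] at hj hj' kj kj'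
    have s1 := ec_agree T1 _ o W t hag1
    have s2 := ec_agree T2 _ o W t hag2
    rw [← e1] at s2
    have hx : rtraj T1 o W t = rtraj T2 o W t := by
      rw [← s1 t le_rfl, ← s2 t le_rfl]
    have hjx : rtraj T1 o W j = rtraj T2 o W j := by
      rw [← s1 j hj, ← s2 j hj]
    have hT : T1 = T2 := by
      funext v w
      by_cases hvw : (v, w) = (rtraj T1 o W t, a)
      · rw [Prod.mk.injEq] at hvw
        rw [hvw.1, hvw.2, hj', hx, kj', hjx]
      · have h5 := congrFun (congrFun e1 v) w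
        unfold ec_upd at h5
        rw [if_neg hvw, if_neg (by rw [← hx]; exact hvw)] at h5
        exact h5
    have hy : y1 = y2 := by
      have h5 := congrFun (congrFun e1 (rtraj T1 o W t)) a
      unfold ec_upd at h5
      rw [if_pos rfl, if_pos (by rw [hx])] at h5
      exact h5
    rw [hT, hy]

theorem excess_count [Fintype V] [DecidableEq V] (o : V) (W : ℕ → Option (Fin k)) (N c : ℕ) :
    Set.ncard {T : V → Fin k → V | Acc T o ∧ (rvis T o W N).card + c ≤ (rcells T o W N).card + 1}
      * (Fintype.card V)^c ≤ (N*(N+1))^c * Set.ncard {T : V → Fin k → V | Acc T o} := by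
  have key : ∀ c : ℕ, (ec_E o W N c).ncard * (Fintype.card V) ^ c
      ≤ (N * (N + 1)) ^ c * Set.ncard {T : V → Fin k → V | Acc T o} := by
    intro c
    induction c with
    | zero =>
      rw [pow_zero, pow_zero, mul_one, one_mul]
      exact Set.ncard_le_ncard (fun T hT => hT.1) (Set.toFinite _)
    | succ c ih =>
      calc (ec_E o W N (c + 1)).ncard * (Fintype.card V) ^ (c + 1)
          = ((ec_E o W N (c + 1)).ncard * Fintype.card V) * (Fintype.card V) ^ c := by ring
        _ ≤ ((ec_E o W N c).ncard * (N * (N + 1))) * (Fintype.card V) ^ c :=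
            Nat.mul_le_mul_right _ (ec_main o W N c)
        _ = (N * (N + 1)) * ((ec_E o W N c).ncard * (Fintype.card V) ^ c) := by ring
        _ ≤ (N * (N + 1)) * ((N * (N + 1)) ^ c * Set.ncard {T : V → Fin k → V | Acc T o}) :=
            Nat.mul_le_mul_left _ ih
        _ = _ := by ring
  exact key c

theorem excess2_count [Fintype V] [DecidableEq V] (o : V) (W1 W2 : ℕ → Fin k) (L c : ℕ) :
    Set.ncard {T : V → Fin k → V | Acc T o ∧ (Y2 T o W1 W2 L).card + c ≤ (X2 T o W1 W2 L).card + 1}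
      * (Fintype.card V)^c ≤ ((2*L+1)*(2*L+2))^c * Set.ncard {T : V → Fin k → V | Acc T o} := by
  let W : ℕ → Option (Fin k) := fun t =>
    if t < L then some (W1 t) else if t = L then none else some (W2 (t - (L + 1)))
  have hW1 : ∀ t, t < L → W t = some (W1 t) := fun t ht => if_pos ht
  have hW0 : W L = none := by
    show (if L < L then some (W1 L) else if L = L then none else some (W2 (L - (L + 1)))) = none
    rw [if_neg (lt_irrefl L), if_pos rfl]
  have hW2 : ∀ s, W (L + 1 + s) = some (W2 s) := by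
    intro s
    show (if L + 1 + s < L then some (W1 (L + 1 + s)) else if L + 1 + s = L then none
      else some (W2 (L + 1 + s - (L + 1)))) = some (W2 s)
    rw [if_neg (by omega), if_neg (by omega)]
    congr 2
    omega
  have r1 : ∀ (T : V → Fin k → V) t, t ≤ L → rtraj T o W t = traj T o W1 t := by
    intro T t
    induction t with
    | zero =>
      intro _
      rfl
    | succ t ih =>
      intro ht
      rw [ec_rtraj_some T o W t (W1 t) (hW1 t ht), ih (Nat.le_of_succ_le ht)]
      rfl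
  have r2 : ∀ (T : V → Fin k → V) s, rtraj T o W (L + 1 + s) = traj T o W2 s := by
    intro T s
    induction s with
    | zero => exact ec_rtraj_none T o W L hW0
    | succ s ih =>
      have e : L + 1 + (s + 1) = (L + 1 + s) + 1 := by omega
      rw [e, ec_rtraj_some T o W (L + 1 + s) (W2 s) (hW2 s), ih]
      rfl
  have hc : ∀ T : V → Fin k → V, rcells T o W (2 * L + 1) = X2 T o W1 W2 L := by
    intro T
    ext x
    rw [ec_mem_rcells]
    unfold X2 cell
    simp only [Finset.mem_union, Finset.mem_image, Finset.mem_range]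
    constructor
    · rintro ⟨s, hs, a, ha, hx⟩
      rcases lt_trichotomy s L with h | h | h
      · left
        rw [hW1 s h] at ha
        refine ⟨s, h, ?_⟩
        rw [hx, r1 T s h.le, Option.some_injective _ ha]
      · rw [h, hW0] at ha
        exact absurd ha (by simp)
      · right
        obtain ⟨m, rfl⟩ : ∃ m, s = L + 1 + m := ⟨s - (L + 1), by omega⟩
        rw [hW2 m] at ha
        refine ⟨m, by omega, ?_⟩
        rw [hx, r2 T m, Option.some_injective _ ha]
    · rintro (⟨s, hs, hx⟩ | ⟨s, hs, hx⟩)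
      · exact ⟨s, by omega, W1 s, hW1 s hs, by rw [← hx, r1 T s hs.le]⟩
      · exact ⟨L + 1 + s, by omega, W2 s, hW2 s, by rw [← hx, r2 T s]⟩
  have hv : ∀ T : V → Fin k → V, rvis T o W (2 * L + 1) = Y2 T o W1 W2 L := by
    intro T
    ext v
    rw [ec_mem_rvis]
    unfold Y2
    simp only [Finset.mem_union, Finset.mem_image, Finset.mem_range, Nat.lt_succ_iff]
    constructor
    · rintro ⟨s, hs, hx⟩
      rcases le_or_gt s L with h | h
      · left
        exact ⟨s, h, by rw [← hx, r1 T s h]⟩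
      · right
        obtain ⟨m, rfl⟩ : ∃ m, s = L + 1 + m := ⟨s - (L + 1), by omega⟩
        exact ⟨m, by omega, by rw [← hx, r2 T m]⟩
    · rintro (⟨s, hs, hx⟩ | ⟨s, hs, hx⟩)
      · exact ⟨s, by omega, by rw [← hx, r1 T s hs]⟩
      · exact ⟨L + 1 + s, by omega, by rw [← hx, r2 T s]⟩
  have h := excess_count o W (2 * L + 1) c
  simp only [hc, hv] at h
  exact h

end SI
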