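import Pool.Agent.Helper513.SI.A

set_option autoImplicit false

namespace SI
open RA
variable {V : Type} {k : ℕ}


end SI

namespace SI
open RA
variable {V : Type} {k : ℕ}

theorem mc_traj (T T' : V → Fin k → V) (o : V) (W : ℕ → Fin k) (n : ℕ)
    (h : ∀ j, j < n → T' (traj T o W j) (W j) = T (traj T o W j) (W j)) :
    ∀ j, j ≤ n → traj T' o W j = traj T o W j := by
  intro j
  induction j with
  | zero => intro _; rfl
  | succ j ih =>
    intro hj
    show T' (traj T' o W j) (W j) = T (traj T o W j) (W j)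
    rw [ih (by omega), h j (by omega)]

open Classical in
/-- change of one cell -/
noncomputable def mcU (T : V → Fin k → V) (x : V × Fin k) (y : V) : V → Fin k → V :=
  fun v a => if (v, a) = x then y else T v a

theorem mcU_ne (T : V → Fin k → V) (x : V × Fin k) (y : V) (v : V) (a : Fin k)
    (h : (v, a) ≠ x) : mcU T x y v a = T v a := by
  unfold mcU
  rw [if_neg h]

theorem mcU_eq (T : V → Fin k → V) (x : V × Fin k) (y : V) : mcU T x y x.1 x.2 = y := by
  unfold mcU
  rw [if_pos rfl]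

theorem mc_facts (o : V) (W1 W2 : ℕ → Fin k) (t : ℕ) (T : V → Fin k → V) (y : V)
    (h1 : ∀ j, j ≤ t → cell T o W1 j ≠ cell T o W2 t)
    (h2 : ∀ j, j < t → cell T o W2 j ≠ cell T o W2 t) :
    (traj (mcU T (cell T o W2 t) y) o W1 (t + 1) = traj T o W1 (t + 1)) ∧
      traj (mcU T (cell T o W2 t) y) o W2 t = traj T o W2 t := by
  constructor
  · refine mc_traj _ _ _ _ (t + 1) (fun j hj => ?_) _ le_rfl
    exact mcU_ne _ _ _ _ _ (h1 j (by omega))
  · refine mc_traj _ _ _ _ t (fun j hj => ?_) _ le_rfl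
    exact mcU_ne _ _ _ _ _ (h2 j hj)

theorem merge_count [Fintype V] [DecidableEq V] (o : V) (W1 W2 : ℕ → Fin k) (t : ℕ) :
    Set.ncard {T : V → Fin k → V | Acc T o ∧ traj T o W1 (t+1) = traj T o W2 (t+1) ∧
        (∀ j, j ≤ t → cell T o W1 j ≠ cell T o W2 t) ∧
        (∀ j, j < t → cell T o W2 j ≠ cell T o W2 t)} * Fintype.card V
      ≤ Set.ncard {T : V → Fin k → V | Acc T o} := by
  have hcard : Fintype.card V = (Set.univ : Set V).ncard := by
    rw [Set.ncard_univ, Nat.card_eq_fintype_card]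
  rw [hcard, ← Set.ncard_prod]
  refine Set.ncard_le_ncard_of_injOn (fun p => mcU p.1 (cell p.1 o W2 t) p.2) ?_ ?_ (Set.toFinite _)
  · rintro ⟨T, y⟩ ⟨⟨hA, hm, h1, h2⟩, -⟩
    obtain ⟨e1, e2⟩ := mc_facts o W1 W2 t T y h1 h2
    show Acc (mcU T (cell T o W2 t) y) o
    refine acc_modify T _ o hA ?_
    intro v a hva
    have hx : (v, a) = cell T o W2 t := by
      by_contra hne
      exact hva (mcU_ne _ _ _ _ _ hne)
    refine ⟨(List.range (t + 1)).map W1, ?_⟩
    rw [run_traj', e1, hm]
    show T (traj T o W2 t) (W2 t) = T v a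
    have h3 : v = traj T o W2 t := congrArg Prod.fst hx
    have h4 : a = W2 t := congrArg Prod.snd hx
    rw [h3, h4]
  · rintro ⟨T, y⟩ ⟨⟨hA, hm, h1, h2⟩, -⟩ ⟨T', y'⟩ ⟨⟨hA', hm', h1', h2'⟩, -⟩ heq
    simp only at heq
    obtain ⟨e1, e2⟩ := mc_facts o W1 W2 t T y h1 h2
    obtain ⟨e1', e2'⟩ := mc_facts o W1 W2 t T' y' h1' h2'
    rw [heq] at e1 e2
    have hc : cell T o W2 t = cell T' o W2 t := by
      unfold cell
      rw [← e2, ← e2']
    have hy : y = y' := by
      have h3 := mcU_eq T (cell T o W2 t) y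
      rw [heq, hc, mcU_eq] at h3
      exact h3.symm
    have hT : T = T' := by
      funext v a
      by_cases hx : (v, a) = cell T o W2 t
      · have h3 : v = traj T o W2 t := congrArg Prod.fst hx
        have h3' : v = traj T' o W2 t := congrArg Prod.fst (hx.trans hc)
        have h4 : a = W2 t := congrArg Prod.snd hx
        have h5 : T v a = traj T o W2 (t + 1) := by rw [h3, h4]; rfl
        have h5' : T' v a = traj T' o W2 (t + 1) := by rw [h3', h4]; rfl
        rw [h5, h5', ← hm, ← hm', ← e1, ← e1']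
      · have h6 := congrFun (congrFun heq v) a
        rw [mcU_ne _ _ _ _ _ hx, mcU_ne _ _ _ _ _ (by rw [← hc]; exact hx)] at h6
        exact h6
    rw [hT, hy]

end SI
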