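import Pool.Agent.Helper513.SI.A

set_option autoImplicit false

namespace SI
open RA
variable {V : Type} {k : ℕ}


end SI

namespace SI
open RA
variable {V : Type} {k : ℕ}

private theorem reach_update [DecidableEq V] (T : V → Fin k → V) (s : V) (ρ : Fin k → V) :
    ∀ (w : List (Fin k)) (p : V), run T p w = s → ∃ w', run (Function.update T s ρ) p w' = s := by
  intro w
  induction w with
  | nil => exact fun p hp => ⟨[], hp⟩
  | cons a w ih =>
    intro p hp
    by_cases h : p = s
    · exact ⟨[], h⟩
    · obtain ⟨w', hw'⟩ := ih (T p a) hp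
      refine ⟨a :: w', ?_⟩
      show run (Function.update T s ρ) (Function.update T s ρ p a) w' = s
      rw [Function.update_of_ne h]
      exact hw'

theorem sink_count (V : Type) [Fintype V] [DecidableEq V] (k : ℕ) (o : V) :
    Set.ncard {T : V → Fin k → V | Acc T o ∧ ∃ s, ∀ a, T s a = s} * (Fintype.card V)^k
      ≤ Fintype.card V * Set.ncard {T : V → Fin k → V | Acc T o} := by
  classical
  let sk : (V → Fin k → V) → V := fun T => if h : ∃ s, ∀ a, T s a = s then h.choose else o
  have hsk : ∀ T : V → Fin k → V, (∃ s, ∀ a, T s a = s) → ∀ a, T (sk T) a = sk T := by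
    intro T h
    simp only [sk, dif_pos h]
    exact h.choose_spec
  let f : (V → Fin k → V) × (Fin k → V) → V × (V → Fin k → V) :=
    fun x => (sk x.1, Function.update x.1 (sk x.1) x.2)
  have h1 : Set.ncard ({T : V → Fin k → V | Acc T o ∧ ∃ s, ∀ a, T s a = s} ×ˢ
      (Set.univ : Set (Fin k → V))) ≤
      Set.ncard ((Set.univ : Set V) ×ˢ {T : V → Fin k → V | Acc T o}) := by
    apply Set.ncard_le_ncard_of_injOn f
    · rintro ⟨T, ρ⟩ ⟨⟨hT, hs⟩, -⟩
      refine ⟨Set.mem_univ _, ?_⟩
      show Acc (Function.update T (sk T) ρ) o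
      apply acc_modify T _ o hT
      intro x a hx
      have hxs : x = sk T := by
        by_contra hne
        exact hx (by rw [Function.update_of_ne hne])
      rw [hxs, hsk T hs a]
      obtain ⟨w, hw⟩ := hT (sk T)
      exact reach_update T (sk T) ρ w o hw
    · rintro ⟨T, ρ⟩ ⟨⟨-, hs⟩, -⟩ ⟨T', ρ'⟩ ⟨⟨-, hs'⟩, -⟩ h
      have e1 : sk T = sk T' := congrArg Prod.fst h
      have e2 : Function.update T (sk T) ρ = Function.update T' (sk T') ρ' := congrArg Prod.snd h
      have e3 : ρ = ρ' := by
        have := congrFun e2 (sk T)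
        rw [Function.update_self, e1, Function.update_self] at this
        exact this
      have e4 : T = T' := by
        funext x
        by_cases hx : x = sk T
        · funext a
          rw [hx, hsk T hs a, e1, hsk T' hs' a]
        · have := congrFun e2 x
          rw [Function.update_of_ne hx, Function.update_of_ne (by rw [← e1]; exact hx)] at this
          exact this
      rw [e3, e4]

  rw [Set.ncard_prod, Set.ncard_prod, Set.ncard_univ, Set.ncard_univ, Nat.card_eq_fintype_card,
    Nat.card_eq_fintype_card, Fintype.card_fun, Fintype.card_fin] at h1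
  exact h1

end SI
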