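import Pool.Agent.Helper338.RA.Assembly

set_option autoImplicit false

namespace SI
open RA
variable {V : Type} {k : ℕ}

/-- trajectory from `p` along the infinite word `W` -/
def traj (T : V → Fin k → V) (p : V) (W : ℕ → Fin k) : ℕ → V
  | 0 => p
  | t + 1 => T (traj T p W t) (W t)

/-- the cell (state, letter) of the transition table used at step `t` -/
def cell (T : V → Fin k → V) (p : V) (W : ℕ → Fin k) (t : ℕ) : V × Fin k := (traj T p W t, W t)

/-- cells used by the two walks along `W1` and `W2` during the first `L` steps -/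
def X2 [DecidableEq V] (T : V → Fin k → V) (o : V) (W1 W2 : ℕ → Fin k) (L : ℕ) :
    Finset (V × Fin k) :=
  (Finset.range L).image (cell T o W1) ∪ (Finset.range L).image (cell T o W2)

/-- states visited by the two walks -/
def Y2 [DecidableEq V] (T : V → Fin k → V) (o : V) (W1 W2 : ℕ → Fin k) (L : ℕ) : Finset V :=
  (Finset.range (L + 1)).image (traj T o W1) ∪ (Finset.range (L + 1)).image (traj T o W2)

end SI

namespace SI
open RA
variable {V : Type} {k : ℕ}

/-- extend a finite word by the letter 0 -/
def ext [NeZero k] {H : ℕ} (z : Fin H → Fin k) : ℕ → Fin k :=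
  fun t => if h : t < H then z ⟨t, h⟩ else 0

/-- concatenation of two finite words (continued by 0) -/
def cat [NeZero k] {l H : ℕ} (w : Fin l → Fin k) (z : Fin H → Fin k) : ℕ → Fin k :=
  fun t => if h : t < l then w ⟨t, h⟩ else ext z (t - l)

/-- the tests along `z` do not distinguish the product states reached by `w` and by `w'` -/
def Fail [NeZero k] (o : V) {l H : ℕ} (x y : (V → Fin k → V) × (V → Bool))
    (w w' : Fin l → Fin k) (z : Fin H → Fin k) : Prop :=
  ∀ i, i ≤ H →
    (x.2 (traj x.1 o (cat w z) (l+i)) && y.2 (traj y.1 o (cat w z) (l+i)))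
      = (x.2 (traj x.1 o (cat w' z) (l+i)) && y.2 (traj y.1 o (cat w' z) (l+i)))

/-- `w` and `w'` agree after position `t` -/
def Ag {k l : ℕ} (w w' : Fin l → Fin k) (t : ℕ) : Prop := ∀ j : Fin l, t < (j : ℕ) → w j = w' j

end SI
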