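import Pool.Agent.Helper513.SI.Defs

set_option autoImplicit false

namespace SI
open RA
variable {V : Type} {k : ℕ}


theorem core {V C : Type} [DecidableEq V] [DecidableEq C] (tgt src : C → V) (o : V)
    (S : Bool → ℕ → V) (K : Bool → ℕ → C) (hS0 : ∀ b, S b 0 = o) (hsrc : ∀ b i, src (K b i) = S b i)
    (htgt : ∀ b i, tgt (K b i) = S b (i + 1)) (L t : ℕ) (ht : t < L) (v : V)
    (hv : ∀ b, S b (t + 1) = v) (hK : K true t ≠ K false t)
    (X : Finset C) (hX : ∀ c, c ∈ X ↔ ∃ b i, i < L ∧ K b i = c)
    (Y : Finset V) (hY : ∀ y, y ∈ Y ↔ ∃ b i, i ≤ L ∧ S b i = y) :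
    Y.card ≤ X.card ∧ (X.card ≤ Y.card →
      (∀ b b' i j, i ≤ L → j ≤ L → S b i = S b' j → i = j) ∧
      (∀ j ≤ t, S true j = S false j → ∀ i < j, K true i = K false i)) := by
  have hmaps : ∀ c ∈ X, tgt c ∈ Y := by
    intro c hc
    obtain ⟨b, i, hi, rfl⟩ := (hX c).1 hc
    exact (hY _).2 ⟨b, i + 1, hi, (htgt b i).symm⟩
  have hcard : X.card = ∑ y ∈ Y, (X.filter (fun c => tgt c = y)).card :=
    Finset.card_eq_sum_card_fiberwise hmaps
  have hoY : o ∈ Y := (hY o).2 ⟨true, 0, Nat.zero_le _, hS0 _⟩
  have hvY : v ∈ Y := (hY v).2 ⟨true, t + 1, ht, hv _⟩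
  have hmemf : ∀ b i, i < L → K b i ∈ X.filter (fun c => tgt c = S b (i + 1)) := by
    intro b i hi
    rw [Finset.mem_filter]
    exact ⟨(hX _).2 ⟨b, i, hi, rfl⟩, htgt b i⟩
  have hv2 : 2 ≤ (X.filter (fun c => tgt c = v)).card := by
    have h1 := hmemf true t ht
    have h2 := hmemf false t ht
    rw [hv] at h1 h2
    have h3 : 1 < (X.filter (fun c => tgt c = v)).card :=
      Finset.one_lt_card.2 ⟨_, h1, _, h2, hK⟩
    exact h3
  have hpt : ∀ y ∈ Y, 1 + (if y = v then 1 else 0) ≤
      (X.filter (fun c => tgt c = y)).card + (if y = o then 1 else 0) := by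
    intro y hy
    by_cases hyv : y = v
    · subst hyv
      rw [if_pos rfl]
      omega
    · rw [if_neg hyv]
      by_cases hyo : y = o
      · rw [if_pos hyo]
        omega
      · rw [if_neg hyo]
        obtain ⟨b, i, hi, rfl⟩ := (hY y).1 hy
        rcases i with _ | i
        · exact absurd (hS0 b) hyo
        · have := Finset.card_pos.2 ⟨_, hmemf b i hi⟩
          omega
  have hs1 : ∑ y ∈ Y, (1 + (if y = v then 1 else 0)) = Y.card + 1 := by
    rw [Finset.sum_add_distrib, Finset.sum_ite_eq' Y v (fun _ => 1), if_pos hvY]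
    simp
  have hs2 : ∑ y ∈ Y, ((X.filter (fun c => tgt c = y)).card + (if y = o then 1 else 0)) =
      X.card + 1 := by
    rw [Finset.sum_add_distrib, Finset.sum_ite_eq' Y o (fun _ => 1), if_pos hoY, ← hcard]
  have hle := Finset.sum_le_sum hpt
  rw [hs1, hs2] at hle
  refine ⟨by omega, fun hex => ?_⟩
  have heq : ∑ y ∈ Y, (1 + (if y = v then 1 else 0)) =
      ∑ y ∈ Y, ((X.filter (fun c => tgt c = y)).card + (if y = o then 1 else 0)) := by
    rw [hs1, hs2]; omega
  have hall := (Finset.sum_eq_sum_iff_of_le hpt).1 heq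
  have hvo : v ≠ o := by
    intro h
    have := hall v hvY
    rw [if_pos rfl, if_pos h] at this
    omega
  have hindv : (X.filter (fun c => tgt c = v)).card = 2 := by
    have := hall v hvY
    rw [if_pos rfl, if_neg hvo] at this
    omega
  have hindo : (X.filter (fun c => tgt c = o)).card = 0 := by
    have := hall o hoY
    rw [if_pos rfl, if_neg (Ne.symm hvo)] at this
    omega
  have hindy : ∀ y ∈ Y, y ≠ v → y ≠ o → (X.filter (fun c => tgt c = y)).card = 1 := by
    intro y hy h1 h2
    have := hall y hy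
    rw [if_neg h1, if_neg h2] at this
    omega
  -- (a)
  have ha : ∀ b i, i < L → S b (i + 1) ≠ o := by
    intro b i hi h
    have h1 := hmemf b i hi
    rw [h] at h1
    have := Finset.card_pos.2 ⟨_, h1⟩
    omega
  -- (b)
  have hb : ∀ b b' i j, i < L → j < L → S b (i + 1) = S b' (j + 1) → S b (i + 1) ≠ v →
      K b i = K b' j := by
    intro b b' i j hi hj h hne
    have h1 := hmemf b i hi
    have h2 := hmemf b' j hj
    rw [← h] at h2
    have h3 := hindy _ ((hY _).2 ⟨b, i + 1, hi, rfl⟩) hne (ha b i hi)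
    obtain ⟨c, hc⟩ := Finset.card_eq_one.1 h3
    rw [hc, Finset.mem_singleton] at h1 h2
    rw [h1, h2]
  -- trace back
  have hC : ∀ (A B : Bool) (i d : ℕ), 0 < d → i + d < L → (∀ m ≤ i, S A m ≠ v) →
      S A i ≠ S B (i + d) := by
    intro A B i
    induction i with
    | zero =>
      intro d hd hL _ h
      rw [hS0] at h
      obtain ⟨d, rfl⟩ := Nat.exists_eq_succ_of_ne_zero hd.ne'
      refine ha B d (by omega) ?_
      simpa using h.symm
    | succ i ih =>
      intro d hd hL hno h
      have h1 : i + 1 + d = (i + d) + 1 := by omega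
      rw [h1] at h
      have h2 := hb A B i (i + d) (by omega) (by omega) h (hno _ le_rfl)
      have h3 := congrArg src h2
      rw [hsrc, hsrc] at h3
      exact ih d hd (by omega) (fun m hm => hno m (by omega)) h3
  -- least visit of `v`
  have hex1 : ∃ i, i ≤ L ∧ ∃ b, S b i = v := ⟨t + 1, ht, true, hv _⟩
  classical
  set tm := Nat.find hex1 with htm
  obtain ⟨htmL, A, hA⟩ : tm ≤ L ∧ ∃ b, S b tm = v := Nat.find_spec hex1
  have hmin : ∀ i, i < tm → ∀ b, S b i ≠ v := by
    intro i hi b h
    exact Nat.find_min hex1 hi ⟨by omega, b, h⟩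
  have htm0 : tm ≠ 0 := by
    intro h
    rw [h, hS0] at hA
    exact hvo hA.symm
  obtain ⟨t', ht'⟩ := Nat.exists_eq_succ_of_ne_zero htm0
  have hfib : X.filter (fun c => tgt c = v) = {K true t, K false t} := by
    symm
    apply Finset.eq_of_subset_of_card_le
    · intro c hc
      rw [Finset.mem_insert, Finset.mem_singleton] at hc
      rcases hc with rfl | rfl
      · have := hmemf true t ht
        rwa [hv] at this
      · have := hmemf false t ht
        rwa [hv] at this
    · rw [hindv, Finset.card_pair hK]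
  have hcell : ∀ b j, j < L → S b (j + 1) = v → ∃ c, K b j = K c t := by
    intro b j hj h
    have h1 := hmemf b j hj
    rw [h, hfib, Finset.mem_insert, Finset.mem_singleton] at h1
    rcases h1 with h1 | h1
    · exact ⟨true, h1⟩
    · exact ⟨false, h1⟩
  have htmt : tm = t + 1 := by
    have h1 : tm ≤ t + 1 := by
      by_contra h
      push Not at h
      exact hmin _ h true (hv _)
    by_contra hne
    have h2 : t' < t := by omega
    have hA' : S A (t' + 1) = v := by
      have : tm = t' + 1 := ht'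
      rw [← this]; exact hA
    obtain ⟨c, hc⟩ := hcell A t' (by omega) hA'
    have h3 := congrArg src hc
    rw [hsrc, hsrc] at h3
    refine hC A c t' (t - t') (by omega) (by omega) (fun m hm => hmin m (by omega) A) ?_
    have : t' + (t - t') = t := by omega
    rw [this]
    exact h3
  -- (3)
  have h3 : ∀ b i, i ≤ L → S b i = v → i = t + 1 := by
    intro b i hi h
    rcases i with _ | j
    · rw [hS0] at h; exact absurd h.symm hvo
    · obtain ⟨c, hc⟩ := hcell b j hi h
      have h4 : t + 1 ≤ j + 1 := by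
        by_contra h'
        push Not at h'
        exact hmin (j + 1) (by omega) b h
      by_contra hne
      have h5 := congrArg src hc
      rw [hsrc, hsrc] at h5
      refine hC c b t (j - t) (by omega) (by omega) (fun m hm => hmin m (by omega) c) ?_
      have : t + (j - t) = j := by omega
      rw [this]
      exact h5.symm
  -- (4)
  have h4 : ∀ i d b b', 0 < d → i + d ≤ L → S b i ≠ S b' (i + d) := by
    intro i
    induction i with
    | zero =>
      intro d b b' hd hL h
      rw [hS0] at h
      obtain ⟨d, rfl⟩ := Nat.exists_eq_succ_of_ne_zero hd.ne'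
      refine ha b' d (by omega) ?_
      simpa using h.symm
    | succ i ih =>
      intro d b b' hd hL h
      by_cases hvv : S b (i + 1) = v
      · have e1 := h3 b (i + 1) (by omega) hvv
        have e2 := h3 b' (i + 1 + d) hL (by rw [← h]; exact hvv)
        omega
      · have h1 : i + 1 + d = (i + d) + 1 := by omega
        rw [h1] at h
        have h2 := hb b b' i (i + d) (by omega) (by omega) h hvv
        have h3 := congrArg src h2
        rw [hsrc, hsrc] at h3
        exact ih d b b' hd (by omega) h3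
  refine ⟨?_, ?_⟩
  · intro b b' i j hi hj h
    rcases lt_trichotomy i j with hij | hij | hij
    · exfalso
      refine h4 i (j - i) b b' (by omega) (by omega) ?_
      have : i + (j - i) = j := by omega
      rw [this]; exact h
    · exact hij
    · exfalso
      refine h4 j (i - j) b' b (by omega) (by omega) ?_
      have : j + (i - j) = i := by omega
      rw [this]; exact h.symm
  · intro j
    induction j with
    | zero => intro _ _ i hi; omega
    | succ j ih =>
      intro hj h i hi
      have hne : S true (j + 1) ≠ v := by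
        intro hvv
        have := h3 true (j + 1) (by omega) hvv
        omega
      have h1 := hb true false j j (by omega) (by omega) h hne
      rcases Nat.lt_succ_iff_lt_or_eq.1 hi with h2 | h2
      · have h5 := congrArg src h1
        rw [hsrc, hsrc] at h5
        exact ih (by omega) h5 i h2
      · rw [h2]; exact h1

theorem exists_last [DecidableEq V] (T : V → Fin k → V) (o : V) (W1 W2 : ℕ → Fin k) (l : ℕ)
    (hne : ∃ j, j < l ∧ W1 j ≠ W2 j) (t0 : ℕ) (h0 : l ≤ t0)
    (hm : traj T o W1 t0 = traj T o W2 t0) :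
    ∃ t, t < t0 ∧ cell T o W1 t ≠ cell T o W2 t ∧ traj T o W1 (t + 1) = traj T o W2 (t + 1) ∧
      ∀ j, t < j → j < t0 → cell T o W1 j = cell T o W2 j := by
  obtain ⟨j0, hj0, hj0'⟩ := hne
  set F : Finset ℕ := (Finset.range t0).filter (fun t => cell T o W1 t ≠ cell T o W2 t) with hF
  have hFn : F.Nonempty := by
    refine ⟨j0, ?_⟩
    rw [hF, Finset.mem_filter, Finset.mem_range]
    refine ⟨by omega, fun h => hj0' (congrArg Prod.snd h)⟩
  set t := F.max' hFn with ht
  have htF : t ∈ F := F.max'_mem hFn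
  rw [hF, Finset.mem_filter, Finset.mem_range] at htF
  have hlast : ∀ j, t < j → j < t0 → cell T o W1 j = cell T o W2 j := by
    intro j h1 h2
    by_contra h3
    have : j ∈ F := by
      rw [hF, Finset.mem_filter, Finset.mem_range]
      exact ⟨h2, h3⟩
    have := F.le_max' j this
    omega
  refine ⟨t, htF.1, htF.2, ?_, hlast⟩
  rcases Nat.lt_or_ge (t + 1) t0 with h | h
  · have := hlast (t + 1) (by omega) h
    exact congrArg Prod.fst this
  · have : t + 1 = t0 := by omega
    rw [this]; exact hm

theorem core_apply [DecidableEq V] (T : V → Fin k → V) (o : V) (W1 W2 : ℕ → Fin k) (L t : ℕ)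
    (ht : t < L) (hc : cell T o W1 t ≠ cell T o W2 t)
    (hm : traj T o W1 (t + 1) = traj T o W2 (t + 1)) :
    (Y2 T o W1 W2 L).card ≤ (X2 T o W1 W2 L).card ∧
    ((X2 T o W1 W2 L).card ≤ (Y2 T o W1 W2 L).card →
      (∀ b b' i j, i ≤ L → j ≤ L →
        traj T o (cond b W1 W2) i = traj T o (cond b' W1 W2) j → i = j) ∧
      (∀ j ≤ t, traj T o W1 j = traj T o W2 j → ∀ i < j, cell T o W1 i = cell T o W2 i)) := by
  refine core (fun c : V × Fin k => T c.1 c.2) Prod.fst o (fun b => traj T o (cond b W1 W2))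
    (fun b => cell T o (cond b W1 W2)) (fun b => rfl) (fun b i => rfl) (fun b i => rfl) L t ht
    (traj T o W1 (t + 1)) ?_ hc _ ?_ _ ?_
  · intro b
    cases b
    · exact hm.symm
    · rfl
  · intro c
    simp only [X2, Finset.mem_union, Finset.mem_image, Finset.mem_range, Bool.exists_bool, cond]
    exact or_comm
  · intro y
    simp only [Y2, Finset.mem_union, Finset.mem_image, Finset.mem_range, Bool.exists_bool, cond,
      Nat.lt_succ_iff]
    exact or_comm

/-- if two different words lead to the same state then there is at least one collision -/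
theorem merged_excess [DecidableEq V] (T : V → Fin k → V) (o : V) (W1 W2 : ℕ → Fin k) (l L : ℕ)
    (hne : ∃ j, j < l ∧ W1 j ≠ W2 j) (t0 : ℕ) (h0 : l ≤ t0) (h0L : t0 ≤ L)
    (hm : traj T o W1 t0 = traj T o W2 t0) :
    (Y2 T o W1 W2 L).card ≤ (X2 T o W1 W2 L).card := by
  obtain ⟨t, ht, hc, hm', -⟩ := exists_last T o W1 W2 l hne t0 h0 hm
  exact (core_apply T o W1 W2 L t (by omega) hc hm').1

/-- the shape of the exploration when the only collision is a merging of the two walks -/
theorem merge_structure [DecidableEq V] (T : V → Fin k → V) (o : V) (W1 W2 : ℕ → Fin k) (l L : ℕ)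
    (hl : l ≤ L) (hex : (X2 T o W1 W2 L).card ≤ (Y2 T o W1 W2 L).card)
    (hz : ∀ j, l ≤ j → j < L → W1 j = W2 j) (hne : ∃ j, j < l ∧ W1 j ≠ W2 j)
    (t0 : ℕ) (h0 : l ≤ t0) (h0L : t0 ≤ L) (hm : traj T o W1 t0 = traj T o W2 t0) :
    ∃ t, t < L ∧ traj T o W1 (t+1) = traj T o W2 (t+1) ∧
      (∀ j, j ≤ t → cell T o W1 j ≠ cell T o W2 t) ∧
      (∀ j, j < t → cell T o W2 j ≠ cell T o W2 t) ∧
      (∀ j, t < j → j < l → W1 j = W2 j) ∧
      (∀ j, l ≤ j → j ≤ t → traj T o W1 j ≠ traj T o W2 j) ∧
      (∀ i j, i ≤ L → j ≤ L → traj T o W1 i = traj T o W1 j → i = j) ∧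
      (∀ i j, i ≤ L → j ≤ L → traj T o W1 i = traj T o W2 j → i = j) ∧
      (∀ i j, i ≤ L → j ≤ L → traj T o W2 i = traj T o W2 j → i = j) := by
  obtain ⟨t, ht, hc, hm', hlast⟩ := exists_last T o W1 W2 l hne t0 h0 hm
  obtain ⟨h4, h7⟩ := (core_apply T o W1 W2 L t (by omega) hc hm').2 hex
  refine ⟨t, by omega, hm', ?_, ?_, ?_, ?_, fun i j => h4 true true i j,
    fun i j => h4 true false i j, fun i j => h4 false false i j⟩
  · intro j hj h
    have h1 : traj T o W1 j = traj T o W2 t := congrArg Prod.fst h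
    have h2 := h4 true false j t (by omega) (by omega) h1
    rw [h2] at h
    exact hc h
  · intro j hj h
    have h1 : traj T o W2 j = traj T o W2 t := congrArg Prod.fst h
    have h2 := h4 false false j t (by omega) (by omega) h1
    omega
  · intro j h1 h2
    exact congrArg Prod.snd (hlast j h1 (by omega))
  · intro j h1 h2 h
    obtain ⟨j0, hj0, hj0'⟩ := hne
    exact hj0' (congrArg Prod.snd (h7 j h2 h j0 (by omega)))

end SI
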