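import Pool.Agent.Helper513.SI.Defs

set_option autoImplicit false

namespace SI

/-- flipping action -/
def fcAct {V : Type} [DecidableEq V] (a b c d : V) (u : Bool × Bool × Bool × Bool)
    (x : (V → Bool) × (V → Bool)) : (V → Bool) × (V → Bool) :=
  (fun v => xor (xor (x.1 v) (u.1 && decide (v = a))) (u.2.1 && decide (v = b)),
   fun v => xor (xor (x.2 v) (u.2.2.1 && decide (v = c))) (u.2.2.2 && decide (v = d)))

theorem fcAct_inv {V : Type} [DecidableEq V] (a b c d : V) (u : Bool × Bool × Bool × Bool)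
    (x : (V → Bool) × (V → Bool)) : fcAct a b c d u (fcAct a b c d u x) = x := by
  have key : ∀ p q r : Bool, xor (xor (xor (xor p q) r) q) r = p := by decide
  unfold fcAct
  ext v
  · simp only [key]
  · simp only [key]

theorem fc_dec1 : ∀ p q r s : Bool, (Finset.univ.filter (fun u : Bool × Bool × Bool × Bool =>
    ((xor p u.1) && (xor r u.2.2.1)) = ((xor q u.2.1) && (xor s u.2.2.2)))).card ≤ 12 := by
  decide

theorem fc_dec2 : ∀ p r s : Bool, (Finset.univ.filter (fun u : Bool × Bool × Bool × Bool =>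
    ((xor (xor p u.1) u.2.1) && (xor r u.2.2.1)) =
      ((xor (xor p u.1) u.2.1) && (xor s u.2.2.2)))).card ≤ 12 := by
  decide

theorem fc_dec3 : ∀ p q r : Bool, (Finset.univ.filter (fun u : Bool × Bool × Bool × Bool =>
    ((xor p u.1) && (xor (xor r u.2.2.1) u.2.2.2)) =
      ((xor q u.2.1) && (xor (xor r u.2.2.1) u.2.2.2)))).card ≤ 12 := by
  decide

theorem fc_count {V : Type} [DecidableEq V] (a b c d : V) (h : a ≠ b ∨ c ≠ d)
    (x : (V → Bool) × (V → Bool)) :
    (Finset.univ.filter (fun u : Bool × Bool × Bool × Bool =>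
      ((fcAct a b c d u x).1 a && (fcAct a b c d u x).2 c) =
      ((fcAct a b c d u x).1 b && (fcAct a b c d u x).2 d))).card ≤ 12 := by
  by_cases hab : a = b
  · have hcd : c ≠ d := by tauto
    subst hab
    have := fc_dec2 (x.1 a) (x.2 c) (x.2 d)
    simpa [fcAct, hcd, hcd.symm] using this
  · by_cases hcd : c = d
    · subst hcd
      have := fc_dec3 (x.1 a) (x.1 b) (x.2 c)
      simpa [fcAct, hab, Ne.symm hab] using this
    · have := fc_dec1 (x.1 a) (x.1 b) (x.2 c) (x.2 d)
      simpa [fcAct, hab, Ne.symm hab, hcd, Ne.symm hcd] using this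

theorem fc_step {V : Type} [Fintype V] [DecidableEq V] (a b c d : V) (h : a ≠ b ∨ c ≠ d)
    (P : (V → Bool) × (V → Bool) → Prop) [DecidablePred P]
    (hP : ∀ u x, P (fcAct a b c d u x) ↔ P x) :
    4 * (Finset.univ.filter (fun x : (V → Bool) × (V → Bool) =>
      P x ∧ (x.1 a && x.2 c) = (x.1 b && x.2 d))).card ≤ 3 * (Finset.univ.filter P).card := by
  have h1 : ∀ u : Bool × Bool × Bool × Bool, (Finset.univ.filter (fun x : (V → Bool) × (V → Bool) =>
      P x ∧ (x.1 a && x.2 c) = (x.1 b && x.2 d))).card =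
      (Finset.univ.filter (fun x : (V → Bool) × (V → Bool) =>
      P x ∧ ((fcAct a b c d u x).1 a && (fcAct a b c d u x).2 c) =
      ((fcAct a b c d u x).1 b && (fcAct a b c d u x).2 d))).card := by
    intro u
    refine Finset.card_bij' (fun x _ => fcAct a b c d u x) (fun x _ => fcAct a b c d u x) ?_ ?_ ?_ ?_
    · intro x hx
      simp only [Finset.mem_filter, Finset.mem_univ, true_and] at hx ⊢
      rw [fcAct_inv, hP]
      exact hx
    · intro x hx
      simp only [Finset.mem_filter, Finset.mem_univ, true_and] at hx ⊢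
      rw [hP]
      exact hx
    · intro x _
      exact fcAct_inv a b c d u x
    · intro x _
      exact fcAct_inv a b c d u x
  have h2 : 16 * (Finset.univ.filter (fun x : (V → Bool) × (V → Bool) =>
      P x ∧ (x.1 a && x.2 c) = (x.1 b && x.2 d))).card =
      ∑ u : Bool × Bool × Bool × Bool, (Finset.univ.filter (fun x : (V → Bool) × (V → Bool) =>
      P x ∧ ((fcAct a b c d u x).1 a && (fcAct a b c d u x).2 c) =
      ((fcAct a b c d u x).1 b && (fcAct a b c d u x).2 d))).card := by
    rw [← Finset.sum_congr rfl (fun u _ => h1 u), Finset.sum_const]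
    simp
  have h3 : ∑ u : Bool × Bool × Bool × Bool, (Finset.univ.filter (fun x : (V → Bool) × (V → Bool) =>
      P x ∧ ((fcAct a b c d u x).1 a && (fcAct a b c d u x).2 c) =
      ((fcAct a b c d u x).1 b && (fcAct a b c d u x).2 d))).card ≤ 12 * (Finset.univ.filter P).card := by
    simp only [Finset.card_filter]
    rw [Finset.sum_comm, Finset.mul_sum]
    refine Finset.sum_le_sum fun x _ => ?_
    by_cases hx : P x
    · simp only [hx, true_and, if_true, mul_one]
      have := fc_count a b c d h x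
      rw [Finset.card_filter] at this
      exact this
    · simp [hx]
  omega


theorem fail_count (V : Type) [Fintype V] [DecidableEq V] (J : Finset ℕ) (a b c d : ℕ → V)
    (h1 : ∀ i ∈ J, ∀ j ∈ J, i ≠ j → a i ≠ a j ∧ a i ≠ b j ∧ b i ≠ b j)
    (h2 : ∀ i ∈ J, ∀ j ∈ J, i ≠ j → c i ≠ c j ∧ c i ≠ d j ∧ d i ≠ d j)
    (h3 : ∀ i ∈ J, a i ≠ b i ∨ c i ≠ d i) :
    4^J.card * Set.ncard {x : (V → Bool) × (V → Bool) |
        ∀ i ∈ J, (x.1 (a i) && x.2 (c i)) = (x.1 (b i) && x.2 (d i))}
      ≤ 3^J.card * 4^(Fintype.card V) := by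
  classical
  rw [Set.ncard_eq_toFinset_card']
  simp only [Set.toFinset_ofPred]
  induction J using Finset.induction_on with
  | empty =>
    simp only [Finset.card_empty, pow_zero, one_mul, Finset.notMem_empty, IsEmpty.forall_iff,
      implies_true, Finset.filter_true]
    rw [Finset.card_univ, Fintype.card_prod, Fintype.card_fun, Fintype.card_bool, ← mul_pow]
    exact le_refl _
  | insert i J hi ih =>
    have ih' := ih (fun i hi j hj => h1 i (Finset.mem_insert_of_mem hi) j (Finset.mem_insert_of_mem hj))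
      (fun i hi j hj => h2 i (Finset.mem_insert_of_mem hi) j (Finset.mem_insert_of_mem hj))
      (fun i hi => h3 i (Finset.mem_insert_of_mem hi))
    rw [Finset.card_insert_of_notMem hi, pow_succ, pow_succ]
    have hiJ : ∀ j ∈ J, i ≠ j := fun j hj h => hi (h ▸ hj)
    have step := fc_step (a i) (b i) (c i) (d i) (h3 i (Finset.mem_insert_self i J))
      (fun x : (V → Bool) × (V → Bool) =>
        ∀ i ∈ J, (x.1 (a i) && x.2 (c i)) = (x.1 (b i) && x.2 (d i))) (by
        intro u x
        refine forall₂_congr fun j hj => ?_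
        have e1 := h1 i (Finset.mem_insert_self i J) j (Finset.mem_insert_of_mem hj) (hiJ j hj)
        have e2 := h1 j (Finset.mem_insert_of_mem hj) i (Finset.mem_insert_self i J) (hiJ j hj).symm
        have e3 := h2 i (Finset.mem_insert_self i J) j (Finset.mem_insert_of_mem hj) (hiJ j hj)
        have e4 := h2 j (Finset.mem_insert_of_mem hj) i (Finset.mem_insert_self i J) (hiJ j hj).symm
        simp [fcAct, e1.1.symm, e1.2.1.symm, e1.2.2.symm, e2.2.1, e3.1.symm, e3.2.1.symm,
          e3.2.2.symm, e4.2.1])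
    have e5 : (Finset.univ.filter (fun x : (V → Bool) × (V → Bool) =>
        ∀ i_1 ∈ insert i J, (x.1 (a i_1) && x.2 (c i_1)) = (x.1 (b i_1) && x.2 (d i_1)))) =
        (Finset.univ.filter (fun x : (V → Bool) × (V → Bool) =>
        (∀ i ∈ J, (x.1 (a i) && x.2 (c i)) = (x.1 (b i) && x.2 (d i))) ∧
          (x.1 (a i) && x.2 (c i)) = (x.1 (b i) && x.2 (d i)))) := by
      ext x
      simp only [Finset.mem_filter, Finset.mem_univ, true_and, Finset.forall_mem_insert]
      tauto
    rw [e5]
    calc 4 ^ J.card * 4 * _ = 4 ^ J.card * (4 * _) := by rw [mul_assoc]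
      _ ≤ 4 ^ J.card * (3 * _) := Nat.mul_le_mul_left _ step
      _ = 3 * (4 ^ J.card * _) := by ring
      _ ≤ 3 * (3 ^ J.card * 4 ^ Fintype.card V) := Nat.mul_le_mul_left _ ih'
      _ = _ := by ring

end SI
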