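import Pool.Agent.Helper513.SI.Defs

set_option autoImplicit false

namespace SI
open RA
variable {V : Type} {k : ℕ}

section aux
variable [DecidableEq V] (T : V → Fin k → V) (p : V) (W : ℕ → Fin k)

/-- cells used before step `t` -/
def UU (t : ℕ) : Finset (V × Fin k) := (Finset.range t).image (cell T p W)

/-- states visited up to time `t` -/
def VV (t : ℕ) : Finset V := (Finset.range (t + 1)).image (traj T p W)

theorem UU_succ (t : ℕ) : UU T p W (t + 1) = insert (cell T p W t) (UU T p W t) := by
  unfold UU
  rw [Finset.range_add_one, Finset.image_insert]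

theorem VV_succ (t : ℕ) : VV T p W (t + 1) = insert (traj T p W (t + 1)) (VV T p W t) := by
  unfold VV
  rw [Finset.range_add_one (n := t + 1), Finset.image_insert]

theorem old_visited {t : ℕ} (h : cell T p W t ∈ UU T p W t) :
    traj T p W (t + 1) ∈ VV T p W t := by
  obtain ⟨j, hj, he⟩ := Finset.mem_image.1 h
  have h1 : traj T p W j = traj T p W t := congrArg Prod.fst he
  have h2 : W j = W t := congrArg Prod.snd he
  have h3 : traj T p W (t + 1) = traj T p W (j + 1) := by
    show T (traj T p W t) (W t) = T (traj T p W j) (W j)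
    rw [h1, h2]
  rw [h3]
  have := Finset.mem_range.1 hj
  exact Finset.mem_image_of_mem _ (Finset.mem_range.2 (by omega))

theorem D_mono1 (t : ℕ) : (UU T p W t).card + (VV T p W (t + 1)).card ≤
    (UU T p W (t + 1)).card + (VV T p W t).card := by
  rw [UU_succ, VV_succ]
  by_cases h : cell T p W t ∈ UU T p W t
  · rw [Finset.insert_eq_of_mem h, Finset.insert_eq_of_mem (old_visited T p W h)]
  · rw [Finset.card_insert_of_notMem h]
    have := Finset.card_insert_le (traj T p W (t + 1)) (VV T p W t)
    omega

theorem D_mono {t H : ℕ} (h : t ≤ H) : (UU T p W t).card + (VV T p W H).card ≤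
    (UU T p W H).card + (VV T p W t).card := by
  induction h with
  | refl => omega
  | @step m _ ih =>
    have := D_mono1 T p W m
    rw [Nat.succ_eq_add_one]
    omega

theorem maps_UU (t : ℕ) : ∀ c ∈ UU T p W t, c.1 ∈ VV T p W t := by
  intro c hc
  obtain ⟨j, hj, rfl⟩ := Finset.mem_image.1 hc
  have := Finset.mem_range.1 hj
  exact Finset.mem_image_of_mem (traj T p W) (Finset.mem_range.2 (by omega : j < t + 1))

theorem key (hk : 2 ≤ k) (hs : ∀ s, ∃ a, T s a ≠ s) (t : ℕ)
    (hD : (UU T p W t).card ≤ (VV T p W t).card + 1) :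
    ∃ c : Fin k × Fin k, ¬ ((traj T p W t, c.1) ∈ UU T p W t ∧
      (T (traj T p W t) c.1, c.2) ∈ UU T p W t) := by
  classical
  by_contra hcon
  push Not at hcon
  obtain ⟨a, ha⟩ := hs (traj T p W t)
  have y0 : Fin k := ⟨0, by omega⟩
  have h1 : ∀ x, (traj T p W t, x) ∈ UU T p W t := fun x => (hcon (x, y0)).1
  have h2 : ∀ y, (T (traj T p W t) a, y) ∈ UU T p W t := fun y => (hcon (a, y)).2
  have hsV : traj T p W t ∈ VV T p W t := maps_UU T p W t _ (h1 y0)
  have hsV' : T (traj T p W t) a ∈ VV T p W t := maps_UU T p W t _ (h2 y0)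
  have hcard := Finset.card_eq_sum_card_fiberwise (f := Prod.fst) (s := UU T p W t)
    (t := VV T p W t) (maps_UU T p W t)
  have hsat : ∀ v, (∀ x, (v, x) ∈ UU T p W t) →
      2 ≤ ((UU T p W t).filter (fun c => c.1 = v)).card := by
    intro v hv
    have hsub : (Finset.univ.image (fun x : Fin k => (v, x))) ⊆
        (UU T p W t).filter (fun c => c.1 = v) := by
      intro c hc
      obtain ⟨x, -, rfl⟩ := Finset.mem_image.1 hc
      exact Finset.mem_filter.2 ⟨hv x, rfl⟩
    have hc := Finset.card_le_card hsub
    rw [Finset.card_image_of_injective _ (fun x y h => congrArg Prod.snd h), Finset.card_univ,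
      Fintype.card_fin] at hc
    omega
  have hfib : ∀ u ∈ VV T p W t, 1 + (if u = traj T p W t then 1 else 0) +
      (if u = T (traj T p W t) a then 1 else 0) ≤
      ((UU T p W t).filter (fun c => c.1 = u)).card := by
    intro u hu
    by_cases hus : u = traj T p W t
    · have hus' : u ≠ T (traj T p W t) a := by
        rw [hus]
        exact fun h => ha h.symm
      rw [if_pos hus, if_neg hus', hus]
      exact hsat _ h1
    · by_cases hus' : u = T (traj T p W t) a
      · rw [if_neg hus, if_pos hus', hus']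
        exact hsat _ h2
      · rw [if_neg hus, if_neg hus']
        obtain ⟨j, hj, rfl⟩ := Finset.mem_image.1 hu
        have hjt : j ≠ t := fun h => hus (by rw [h])
        have := Finset.mem_range.1 hj
        exact Finset.card_pos.2 ⟨cell T p W j, Finset.mem_filter.2
          ⟨Finset.mem_image_of_mem _ (Finset.mem_range.2 (by omega)), rfl⟩⟩
  have hsum := Finset.sum_le_sum hfib
  rw [← hcard, Finset.sum_add_distrib, Finset.sum_add_distrib] at hsum
  rw [Finset.sum_ite_eq' (VV T p W t), Finset.sum_ite_eq' (VV T p W t), if_pos hsV, if_pos hsV',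
    Finset.sum_const, smul_eq_mul, mul_one] at hsum
  omega

open Classical in
/-- a pair of letters leading to a new cell -/
noncomputable def g0 [NeZero k] (s : V) (U : Finset (V × Fin k)) : Fin k × Fin k :=
  if h : ∃ c : Fin k × Fin k, ¬ ((s, c.1) ∈ U ∧ (T s c.1, c.2) ∈ U) then Classical.choose h
  else (0, 0)

theorem g0_spec [NeZero k] {s : V} {U : Finset (V × Fin k)}
    (h : ∃ c : Fin k × Fin k, ¬ ((s, c.1) ∈ U ∧ (T s c.1, c.2) ∈ U)) :
    ¬ ((s, (g0 T s U).1) ∈ U ∧ (T s (g0 T s U).1, (g0 T s U).2) ∈ U) := by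
  unfold g0
  rw [dif_pos h]
  exact Classical.choose_spec h

/-- the forbidden pair after a prefix of length `t` -/
noncomputable def gg [NeZero k] {H : ℕ} (t : ℕ) (z : Fin H → Fin k) : Fin k × Fin k :=
  g0 T (traj T p (ext z) t) (UU T p (ext z) t)

omit [DecidableEq V] in
theorem traj_congr {W W' : ℕ → Fin k} {t : ℕ} (h : ∀ j < t, W j = W' j) :
    traj T p W t = traj T p W' t := by
  induction t with
  | zero => rfl
  | succ t ih =>
    show T (traj T p W t) (W t) = T (traj T p W' t) (W' t)
    rw [ih (fun j hj => h j (by omega)), h t (by omega)]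

theorem UU_congr {W W' : ℕ → Fin k} {t : ℕ} (h : ∀ j < t, W j = W' j) :
    UU T p W t = UU T p W' t := by
  unfold UU
  apply Finset.image_congr
  intro j hj
  have hj' : j < t := by simpa using hj
  show (traj T p W j, W j) = (traj T p W' j, W' j)
  rw [traj_congr T p (fun j' hj' => h j' (by omega)), h j hj']

theorem gg_congr [NeZero k] {H : ℕ} (t : ℕ) (z z' : Fin H → Fin k)
    (h : ∀ j : Fin H, j.val < t → z j = z' j) : gg T p t z = gg T p t z' := by
  have h1 : ∀ j < t, ext z j = ext z' j := by
    intro j hj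
    unfold ext
    by_cases hjH : j < H
    · rw [dif_pos hjH, dif_pos hjH, h _ hj]
    · rw [dif_neg hjH, dif_neg hjH]
  unfold gg
  rw [traj_congr T p h1, UU_congr T p h1]

/-- number of old steps -/
theorem card_old (t : ℕ) : t ≤ ((Finset.range t).filter
    (fun j => cell T p W j ∈ UU T p W j)).card + (UU T p W t).card := by
  induction t with
  | zero => exact Nat.zero_le _
  | succ t ih =>
    rw [UU_succ, Finset.range_add_one, Finset.filter_insert]
    by_cases h : cell T p W t ∈ UU T p W t
    · rw [if_pos h, Finset.insert_eq_of_mem h, Finset.card_insert_of_notMem (by simp)]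
      omega
    · rw [if_neg h, Finset.card_insert_of_notMem h]
      omega

/-- number of steps with a new cell and a visited target -/
theorem card_exc (t : ℕ) : ((Finset.range t).filter
    (fun j => cell T p W j ∉ UU T p W j ∧ traj T p W (j + 1) ∈ VV T p W j)).card +
      (VV T p W t).card ≤ (UU T p W t).card + 1 := by
  induction t with
  | zero =>
    have : (VV T p W 0).card ≤ 1 := by
      unfold VV
      refine Finset.card_image_le.trans ?_
      simp
    rw [Finset.range_zero, Finset.filter_empty, Finset.card_empty]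
    omega
  | succ t ih =>
    rw [UU_succ, VV_succ, Finset.range_add_one, Finset.filter_insert]
    by_cases h : cell T p W t ∈ UU T p W t
    · rw [if_neg (fun h' => h'.1 h), Finset.insert_eq_of_mem h,
        Finset.insert_eq_of_mem (old_visited T p W h)]
      exact ih
    · rw [Finset.card_insert_of_notMem h]
      by_cases h2 : traj T p W (t + 1) ∈ VV T p W t
      · rw [if_pos ⟨h, h2⟩, Finset.insert_eq_of_mem h2, Finset.card_insert_of_notMem (by simp)]
        omega
      · rw [if_neg (fun h' => h2 h'.2), Finset.card_insert_of_notMem h2]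
        omega

/-- a long run of old steps -/
theorem exists_run (H r : ℕ)
    (hD : ((Finset.range H).image (cell T p W)).card
          ≤ ((Finset.range (H+1)).image (traj T p W)).card + 1)
    (hV : ((Finset.range (H+1)).image (traj T p W)).card + (2*r+3) ≤ H+1) :
    ∃ i, i < H ∧ i + r ≤ H ∧ ∀ j < r, cell T p W (i + j) ∈ UU T p W (i + j) := by
  classical
  by_contra hcon
  push Not at hcon
  have hD' : (UU T p W H).card ≤ (VV T p W H).card + 1 := hD
  have hV' : (VV T p W H).card + (2*r+3) ≤ H+1 := hV
  have h1 := card_old T p W H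
  have h2 := card_exc T p W H
  -- the starts of the runs
  have h0 : cell T p W 0 ∉ UU T p W 0 := by
    unfold UU
    simp
  have hst : ((Finset.range H).filter (fun j => cell T p W (j + 1) ∈ UU T p W (j + 1) ∧
      cell T p W j ∉ UU T p W j)).card ≤ 2 := by
    have hsub : (Finset.range H).filter (fun j => cell T p W (j + 1) ∈ UU T p W (j + 1) ∧
      cell T p W j ∉ UU T p W j) ⊆ (Finset.range H).filter
        (fun j => cell T p W j ∉ UU T p W j ∧ traj T p W (j + 1) ∈ VV T p W j) := by
      intro j hj
      rw [Finset.mem_filter] at hj ⊢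
      obtain ⟨hjH, hj1, hj2⟩ := hj
      refine ⟨hjH, hj2, ?_⟩
      obtain ⟨i, hi, he⟩ := Finset.mem_image.1 hj1
      have h3 : traj T p W i = traj T p W (j + 1) := congrArg Prod.fst he
      rw [← h3]
      exact Finset.mem_image_of_mem _ hi
    have := Finset.card_le_card hsub
    omega
  have hcover : (Finset.range H).filter (fun j => cell T p W j ∈ UU T p W j) ⊆
      ((Finset.range H).filter (fun j => cell T p W (j + 1) ∈ UU T p W (j + 1) ∧
      cell T p W j ∉ UU T p W j)).biUnion (fun j => Finset.Ico (j + 1) (j + 1 + r)) := by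
    intro o ho
    rw [Finset.mem_filter, Finset.mem_range] at ho
    obtain ⟨hoH, hoO⟩ := ho
    -- the least start
    have hex : ∃ a, a ≤ o ∧ ∀ x, a ≤ x → x ≤ o → cell T p W x ∈ UU T p W x :=
      ⟨o, le_rfl, fun x hx1 hx2 => by rw [le_antisymm hx2 hx1]; exact hoO⟩
    obtain ⟨ha1, ha2⟩ := Nat.find_spec hex
    have hamin := fun m hm => Nat.find_min hex (m := m) hm
    generalize Nat.find hex = a at *
    have ha0 : a ≠ 0 := by
      intro h
      exact h0 (ha2 0 (by omega) (by omega))
    obtain ⟨b, rfl⟩ := Nat.exists_eq_succ_of_ne_zero ha0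
    have hb : cell T p W b ∉ UU T p W b := by
      intro hb
      apply hamin b (Nat.lt_succ_self b)
      refine ⟨by omega, ?_⟩
      intro x hx1 hx2
      rcases hx1.lt_or_eq with h | h
      · exact ha2 x h hx2
      · rw [← h]
        exact hb
    rw [Finset.mem_biUnion]
    refine ⟨b, ?_, ?_⟩
    · rw [Finset.mem_filter, Finset.mem_range]
      exact ⟨by omega, ha2 (b + 1) le_rfl ha1, hb⟩
    · rw [Finset.mem_Ico]
      refine ⟨ha1, ?_⟩
      by_contra hge
      rw [not_lt] at hge
      obtain ⟨j, hj, hj'⟩ := hcon (b + 1) (by omega) (by omega)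
      exact hj' (ha2 (b + 1 + j) (by omega) (by omega))
  have h3 := (Finset.card_le_card hcover).trans Finset.card_biUnion_le
  have h4 : ∑ j ∈ (Finset.range H).filter (fun j => cell T p W (j + 1) ∈ UU T p W (j + 1) ∧
      cell T p W j ∉ UU T p W j), (Finset.Ico (j + 1) (j + 1 + r)).card ≤ 2 * r := by
    have h5 : ∀ j ∈ (Finset.range H).filter (fun j => cell T p W (j + 1) ∈ UU T p W (j + 1) ∧
      cell T p W j ∉ UU T p W j), (Finset.Ico (j + 1) (j + 1 + r)).card = r := by
      intro j _
      rw [Nat.card_Ico]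
      omega
    rw [Finset.sum_congr rfl h5, Finset.sum_const, smul_eq_mul]
    exact Nat.mul_le_mul_right _ hst
  omega

end aux

theorem ext_lt [NeZero k] {H : ℕ} (z : Fin H → Fin k) {t : ℕ} (h : t < H) :
    ext z t = z ⟨t, h⟩ := by
  unfold ext
  rw [dif_pos h]

/-- change two letters -/
def upd2 {H : ℕ} (t : ℕ) (z : Fin H → Fin k) (c : Fin k × Fin k) : Fin H → Fin k :=
  fun j => if j.val = t then c.1 else if j.val = t + 1 then c.2 else z j

theorem upd2_t [NeZero k] {H t : ℕ} (ht : t + 1 < H) (z : Fin H → Fin k) (c : Fin k × Fin k) :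
    ext (upd2 t z c) t = c.1 := by
  rw [ext_lt _ (by omega : t < H)]
  simp [upd2]

theorem upd2_t1 [NeZero k] {H t : ℕ} (ht : t + 1 < H) (z : Fin H → Fin k) (c : Fin k × Fin k) :
    ext (upd2 t z c) (t + 1) = c.2 := by
  rw [ext_lt _ ht]
  simp [upd2]

theorem upd2_lt [NeZero k] {H t : ℕ} (z : Fin H → Fin k) (c : Fin k × Fin k) {j : ℕ}
    (hj : j < t) : ext (upd2 t z c) j = ext z j := by
  unfold ext
  by_cases hjH : j < H
  · rw [dif_pos hjH, dif_pos hjH]
    simp only [upd2]
    rw [if_neg (by omega), if_neg (by omega)]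
  · rw [dif_neg hjH, dif_neg hjH]

theorem count_blocks [NeZero k] {H : ℕ} (i : ℕ) (f : ℕ → (Fin H → Fin k) → Fin k × Fin k)
    (hf : ∀ t z z', (∀ j : Fin H, j.val < t → z j = z' j) → f t z = f t z') (q : ℕ)
    (hq : i + 2 * q ≤ H) :
    (Finset.univ.filter (fun z : Fin H → Fin k => ∀ m < q,
      (ext z (i + 2 * m), ext z (i + 2 * m + 1)) ≠ f (i + 2 * m) z)).card * (k ^ 2) ^ q ≤
      (k ^ 2 - 1) ^ q * k ^ H := by
  classical
  induction q with
  | zero =>
    rw [pow_zero, pow_zero, mul_one, one_mul]
    refine (Finset.card_filter_le _ _).trans ?_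
    rw [Finset.card_univ, Fintype.card_fun, Fintype.card_fin, Fintype.card_fin]
  | succ q ih =>
    have ih' := ih (by omega)
    have hkey : (Finset.univ.filter (fun z : Fin H → Fin k => ∀ m < q + 1,
        (ext z (i + 2 * m), ext z (i + 2 * m + 1)) ≠ f (i + 2 * m) z)).card * k ^ 2 ≤
        (Finset.univ.filter (fun z : Fin H → Fin k => ∀ m < q,
        (ext z (i + 2 * m), ext z (i + 2 * m + 1)) ≠ f (i + 2 * m) z)).card * (k ^ 2 - 1) := by
      have h1 : (Finset.univ.filter (fun z : Fin H → Fin k => ∀ m < q + 1,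
          (ext z (i + 2 * m), ext z (i + 2 * m + 1)) ≠ f (i + 2 * m) z)).card * k ^ 2 =
          ((Finset.univ.filter (fun z : Fin H → Fin k => ∀ m < q + 1,
          (ext z (i + 2 * m), ext z (i + 2 * m + 1)) ≠ f (i + 2 * m) z)) ×ˢ
            (Finset.univ : Finset (Fin k × Fin k))).card := by
        rw [Finset.card_product, Finset.card_univ, Fintype.card_prod, Fintype.card_fin, sq]
      have h2 : (((Finset.univ.filter (fun z : Fin H → Fin k => ∀ m < q,
          (ext z (i + 2 * m), ext z (i + 2 * m + 1)) ≠ f (i + 2 * m) z)) ×ˢ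
            (Finset.univ : Finset (Fin k × Fin k))).filter
              (fun c => c.2 ≠ f (i + 2 * q) c.1)).card =
          (Finset.univ.filter (fun z : Fin H → Fin k => ∀ m < q,
          (ext z (i + 2 * m), ext z (i + 2 * m + 1)) ≠ f (i + 2 * m) z)).card * (k ^ 2 - 1) := by
        rw [Finset.card_filter, Finset.sum_product]
        have h3 : ∀ z ∈ Finset.univ.filter (fun z : Fin H → Fin k => ∀ m < q,
            (ext z (i + 2 * m), ext z (i + 2 * m + 1)) ≠ f (i + 2 * m) z),
            (∑ c : Fin k × Fin k, if c ≠ f (i + 2 * q) z then 1 else 0) = k ^ 2 - 1 := by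
          intro z _
          rw [← Finset.card_filter, Finset.filter_ne', Finset.card_erase_of_mem (Finset.mem_univ _),
            Finset.card_univ, Fintype.card_prod, Fintype.card_fin, sq]
        rw [Finset.sum_congr rfl h3, Finset.sum_const, smul_eq_mul]
      rw [h1, ← h2]
      apply Finset.card_le_card_of_injOn
        (fun c => (upd2 (i + 2 * q) c.1 c.2, (ext c.1 (i + 2 * q), ext c.1 (i + 2 * q + 1))))
      · rintro ⟨z, c⟩ hz
        rw [Finset.mem_coe, Finset.mem_product, Finset.mem_filter] at hz
        obtain ⟨⟨-, hz⟩, -⟩ := hz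
        rw [Finset.mem_coe, Finset.mem_filter, Finset.mem_product, Finset.mem_filter]
        refine ⟨⟨⟨Finset.mem_univ _, ?_⟩, Finset.mem_univ _⟩, ?_⟩
        · intro m hm
          show (ext (upd2 (i + 2 * q) z c) (i + 2 * m),
            ext (upd2 (i + 2 * q) z c) (i + 2 * m + 1)) ≠
            f (i + 2 * m) (upd2 (i + 2 * q) z c)
          rw [upd2_lt z c (by omega), upd2_lt z c (by omega),
            hf (i + 2 * m) (upd2 (i + 2 * q) z c) z (by
              intro j hj
              simp only [upd2]
              rw [if_neg (by omega), if_neg (by omega)])]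
          exact hz m (by omega)
        · show (ext z (i + 2 * q), ext z (i + 2 * q + 1)) ≠
            f (i + 2 * q) (upd2 (i + 2 * q) z c)
          rw [hf (i + 2 * q) (upd2 (i + 2 * q) z c) z (by
              intro j hj
              simp only [upd2]
              rw [if_neg (by omega), if_neg (by omega)])]
          exact hz q (by omega)
      · rintro ⟨z, c⟩ hz ⟨z', c'⟩ hz' heq
        have hH : i + 2 * q + 1 < H := by omega
        have e1 : upd2 (i + 2 * q) z c = upd2 (i + 2 * q) z' c' := congrArg Prod.fst heq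
        have e2 : (ext z (i + 2 * q), ext z (i + 2 * q + 1)) =
          (ext z' (i + 2 * q), ext z' (i + 2 * q + 1)) := congrArg Prod.snd heq
        have c1 : c = c' := by
          have a1 := upd2_t hH z c
          have a2 := upd2_t1 hH z c
          rw [e1, upd2_t hH] at a1
          rw [e1, upd2_t1 hH] at a2
          exact Prod.ext a1.symm a2.symm
        have c2 : z = z' := by
          funext j
          by_cases hj : j.val = i + 2 * q
          · have a1 : ext z (i + 2 * q) = ext z' (i + 2 * q) := congrArg Prod.fst e2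
            rw [ext_lt z (by omega), ext_lt z' (by omega)] at a1
            have hj' : j = ⟨i + 2 * q, by omega⟩ := Fin.ext hj
            rw [hj']
            exact a1
          · by_cases hj1 : j.val = i + 2 * q + 1
            · have a1 : ext z (i + 2 * q + 1) = ext z' (i + 2 * q + 1) := congrArg Prod.snd e2
              rw [ext_lt z (by omega), ext_lt z' (by omega)] at a1
              have hj' : j = ⟨i + 2 * q + 1, by omega⟩ := Fin.ext hj1
              rw [hj']
              exact a1
            · have a1 := congrFun e1 j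
              simp only [upd2] at a1
              rw [if_neg hj, if_neg hj1, if_neg hj, if_neg hj1] at a1
              exact a1
        rw [c1, c2]
    calc (Finset.univ.filter (fun z : Fin H → Fin k => ∀ m < q + 1,
        (ext z (i + 2 * m), ext z (i + 2 * m + 1)) ≠ f (i + 2 * m) z)).card * (k ^ 2) ^ (q + 1)
        = ((Finset.univ.filter (fun z : Fin H → Fin k => ∀ m < q + 1,
        (ext z (i + 2 * m), ext z (i + 2 * m + 1)) ≠ f (i + 2 * m) z)).card * k ^ 2) *
          (k ^ 2) ^ q := by ring
      _ ≤ ((Finset.univ.filter (fun z : Fin H → Fin k => ∀ m < q,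
        (ext z (i + 2 * m), ext z (i + 2 * m + 1)) ≠ f (i + 2 * m) z)).card * (k ^ 2 - 1)) *
          (k ^ 2) ^ q := Nat.mul_le_mul_right _ hkey
      _ = ((Finset.univ.filter (fun z : Fin H → Fin k => ∀ m < q,
        (ext z (i + 2 * m), ext z (i + 2 * m + 1)) ≠ f (i + 2 * m) z)).card * (k ^ 2) ^ q) *
          (k ^ 2 - 1) := by ring
      _ ≤ ((k ^ 2 - 1) ^ q * k ^ H) * (k ^ 2 - 1) := Nat.mul_le_mul_right _ ih'
      _ = (k ^ 2 - 1) ^ (q + 1) * k ^ H := by ring

/-- words for which the steps `i, ..., i+r-1` use only cells which were used before -/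
theorem long_old_count [NeZero k] [DecidableEq V] (T : V → Fin k → V) (p : V) (hk : 2 ≤ k)
    (hs : ∀ s, ∃ a, T s a ≠ s) (H i r : ℕ) (hir : i + r ≤ H) :
    Set.ncard {z : Fin H → Fin k |
        ((Finset.range H).image (cell T p (ext z))).card
          ≤ ((Finset.range (H+1)).image (traj T p (ext z))).card + 1 ∧
        ∀ j, j < r → ∃ j', j' < i + j ∧ cell T p (ext z) j' = cell T p (ext z) (i + j)}
      * (k^2)^(r/2) ≤ (k^2-1)^(r/2) * k^H := by
  classical
  have hsub : {z : Fin H → Fin k |
        ((Finset.range H).image (cell T p (ext z))).card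
          ≤ ((Finset.range (H+1)).image (traj T p (ext z))).card + 1 ∧
        ∀ j, j < r → ∃ j', j' < i + j ∧ cell T p (ext z) j' = cell T p (ext z) (i + j)} ⊆
      ((Finset.univ.filter (fun z : Fin H → Fin k => ∀ m < r / 2,
        (ext z (i + 2 * m), ext z (i + 2 * m + 1)) ≠ gg T p (i + 2 * m) z) :
          Finset (Fin H → Fin k)) : Set (Fin H → Fin k)) := by
    rintro z ⟨hD, hold⟩
    rw [Finset.mem_coe, Finset.mem_filter]
    refine ⟨Finset.mem_univ _, ?_⟩
    intro m hm
    have ht : i + 2 * m ≤ H := by omega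
    have hDt : (UU T p (ext z) (i + 2 * m)).card ≤ (VV T p (ext z) (i + 2 * m)).card + 1 := by
      have h1 := D_mono T p (ext z) ht
      have hD' : (UU T p (ext z) H).card ≤ (VV T p (ext z) H).card + 1 := hD
      omega
    obtain ⟨c, hc⟩ := key T p (ext z) hk hs (i + 2 * m) hDt
    have hspec := g0_spec T (s := traj T p (ext z) (i + 2 * m))
      (U := UU T p (ext z) (i + 2 * m)) ⟨c, hc⟩
    intro heq
    have heq' : g0 T (traj T p (ext z) (i + 2 * m)) (UU T p (ext z) (i + 2 * m)) =
      (ext z (i + 2 * m), ext z (i + 2 * m + 1)) := heq.symm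
    rw [heq'] at hspec
    apply hspec
    have q1 : cell T p (ext z) (i + 2 * m) ∈ UU T p (ext z) (i + 2 * m) := by
      obtain ⟨j', hj', he⟩ := hold (2 * m) (by omega)
      rw [← he]
      exact Finset.mem_image_of_mem _ (Finset.mem_range.2 hj')
    have q2 : cell T p (ext z) (i + 2 * m + 1) ∈ UU T p (ext z) (i + 2 * m + 1) := by
      obtain ⟨j', hj', he⟩ := hold (2 * m + 1) (by omega)
      have e : i + (2 * m + 1) = i + 2 * m + 1 := by omega
      rw [e] at hj' he
      rw [← he]
      exact Finset.mem_image_of_mem _ (Finset.mem_range.2 hj')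
    rw [UU_succ, Finset.insert_eq_of_mem q1] at q2
    exact ⟨q1, q2⟩
  have h1 := Set.ncard_le_ncard hsub (Finset.finite_toSet _)
  rw [Set.ncard_coe_finset] at h1
  exact (Nat.mul_le_mul_right _ h1).trans
    (count_blocks i (gg T p) (gg_congr T p) (r / 2) (by omega))

/-- a walk along a random word has few repeated states, if the exploration has small excess -/
theorem few_visits_count [NeZero k] [DecidableEq V] (T : V → Fin k → V) (p : V) (hk : 2 ≤ k)
    (hs : ∀ s, ∃ a, T s a ≠ s) (H r : ℕ) :
    Set.ncard {z : Fin H → Fin k |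
        ((Finset.range H).image (cell T p (ext z))).card
          ≤ ((Finset.range (H+1)).image (traj T p (ext z))).card + 1 ∧
        ((Finset.range (H+1)).image (traj T p (ext z))).card + (2*r+3) ≤ H+1}
      * (k^2)^(r/2) ≤ H * (k^2-1)^(r/2) * k^H := by
  classical
  have hsub : {z : Fin H → Fin k |
        ((Finset.range H).image (cell T p (ext z))).card
          ≤ ((Finset.range (H+1)).image (traj T p (ext z))).card + 1 ∧
        ((Finset.range (H+1)).image (traj T p (ext z))).card + (2*r+3) ≤ H+1} ⊆
      ⋃ i ∈ (Finset.range H).filter (fun i => i + r ≤ H), {z : Fin H → Fin k |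
        ((Finset.range H).image (cell T p (ext z))).card
          ≤ ((Finset.range (H+1)).image (traj T p (ext z))).card + 1 ∧
        ∀ j, j < r → ∃ j', j' < i + j ∧ cell T p (ext z) j' = cell T p (ext z) (i + j)} := by
    rintro z ⟨hD, hV⟩
    obtain ⟨i, hi, hir, hold⟩ := exists_run T p (ext z) H r hD hV
    rw [Set.mem_iUnion₂]
    refine ⟨i, Finset.mem_filter.2 ⟨Finset.mem_range.2 hi, hir⟩, hD, ?_⟩
    intro j hj
    obtain ⟨j', hj', he⟩ := Finset.mem_image.1 (hold j hj)
    exact ⟨j', Finset.mem_range.1 hj', he⟩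
  have h1 := Set.ncard_le_ncard hsub (Set.toFinite _)
  have h2 := Finset.set_ncard_biUnion_le ((Finset.range H).filter (fun i => i + r ≤ H))
    (fun i => {z : Fin H → Fin k |
        ((Finset.range H).image (cell T p (ext z))).card
          ≤ ((Finset.range (H+1)).image (traj T p (ext z))).card + 1 ∧
        ∀ j, j < r → ∃ j', j' < i + j ∧ cell T p (ext z) j' = cell T p (ext z) (i + j)})
  refine (Nat.mul_le_mul_right _ (h1.trans h2)).trans ?_
  rw [Finset.sum_mul]
  refine (Finset.sum_le_sum (fun i hi => long_old_count T p hk hs H i r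
    (Finset.mem_filter.1 hi).2)).trans ?_
  rw [Finset.sum_const, smul_eq_mul, mul_assoc]
  apply Nat.mul_le_mul_right
  refine (Finset.card_filter_le _ _).trans ?_
  rw [Finset.card_range]

end SI
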