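import Pool.Agent.Helper513.SI.Defs

set_option autoImplicit false

namespace SI
open RA
variable {V : Type} {k : ℕ}

theorem te_step {α β : Type} [DecidableEq α] [DecidableEq β] (X : Finset α) (Y : Finset β)
    (x : α) (y : β) (h : x ∈ X → y ∈ Y) :
    X.card + (insert y Y).card ≤ (insert x X).card + Y.card := by
  by_cases hx : x ∈ X
  · rw [Finset.insert_eq_of_mem hx, Finset.insert_eq_of_mem (h hx)]
  · rw [Finset.card_insert_of_notMem hx]
    have := Finset.card_insert_le y Y
    omega

theorem te_down [DecidableEq V] (T : V → Fin k → V) (o : V) (W : ℕ → Fin k) (l L : ℕ)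
    (hl : l ≤ L) :
    ((Finset.Ico l L).image (cell T o W)).card + ((Finset.Icc 0 L).image (traj T o W)).card ≤
      ((Finset.Ico 0 L).image (cell T o W)).card +
        ((Finset.Icc l L).image (traj T o W)).card := by
  induction l with
  | zero => omega
  | succ l ih =>
    have ih' := ih (by omega)
    have e1 : Finset.Ico l L = insert l (Finset.Ico (l + 1) L) := by
      ext i
      simp only [Finset.mem_insert, Finset.mem_Ico]
      omega
    have e2 : Finset.Icc l L = insert l (Finset.Icc (l + 1) L) := by
      ext i
      simp only [Finset.mem_insert, Finset.mem_Icc]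
      omega
    rw [e1, e2, Finset.image_insert, Finset.image_insert] at ih'
    have h1 := te_step ((Finset.Ico (l + 1) L).image (cell T o W))
      ((Finset.Icc (l + 1) L).image (traj T o W)) (cell T o W l) (traj T o W l) (by
        intro h
        obtain ⟨i, hi, hc⟩ := Finset.mem_image.mp h
        rw [Finset.mem_Ico] at hi
        refine Finset.mem_image.mpr ⟨i, Finset.mem_Icc.mpr (by omega), ?_⟩
        exact congrArg Prod.fst hc)
    omega

theorem te_up [DecidableEq V] (T : V → Fin k → V) (o : V) (W1 W2 : ℕ → Fin k) (L j : ℕ) :
    ((Finset.range L).image (cell T o W1)).card +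
      ((Finset.range (L + 1)).image (traj T o W1) ∪
        (Finset.range (j + 1)).image (traj T o W2)).card ≤
    ((Finset.range L).image (cell T o W1) ∪ (Finset.range j).image (cell T o W2)).card +
      ((Finset.range (L + 1)).image (traj T o W1)).card := by
  induction j with
  | zero =>
    have h1 : (Finset.range (L + 1)).image (traj T o W1) ∪
        (Finset.range (0 + 1)).image (traj T o W2) = (Finset.range (L + 1)).image (traj T o W1) := by
      apply Finset.union_eq_left.mpr
      intro v hv
      obtain ⟨i, hi, hc⟩ := Finset.mem_image.mp hv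
      rw [Finset.mem_range] at hi
      have hi0 : i = 0 := by omega
      subst hi0
      exact Finset.mem_image.mpr ⟨0, Finset.mem_range.mpr (by omega), hc⟩
    rw [h1, Finset.range_zero, Finset.image_empty, Finset.union_empty]
  | succ j ih =>
    have e1 : (Finset.range (j + 1)).image (cell T o W2) =
        insert (cell T o W2 j) ((Finset.range j).image (cell T o W2)) := by
      rw [Finset.range_add_one, Finset.image_insert]
    have e2 : (Finset.range (j + 1 + 1)).image (traj T o W2) =
        insert (traj T o W2 (j + 1)) ((Finset.range (j + 1)).image (traj T o W2)) := by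
      rw [Finset.range_add_one, Finset.image_insert]
    rw [e1, e2, Finset.union_insert, Finset.union_insert]
    have h1 := te_step
      ((Finset.range L).image (cell T o W1) ∪ (Finset.range j).image (cell T o W2))
      ((Finset.range (L + 1)).image (traj T o W1) ∪
        (Finset.range (j + 1)).image (traj T o W2)) (cell T o W2 j) (traj T o W2 (j + 1)) (by
        intro h
        rw [Finset.mem_union] at h ⊢
        rcases h with h | h
        · left
          obtain ⟨i, hi, hc⟩ := Finset.mem_image.mp h
          rw [Finset.mem_range] at hi
          refine Finset.mem_image.mpr ⟨i + 1, Finset.mem_range.mpr (by omega), ?_⟩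
          show T (traj T o W1 i) (W1 i) = T (traj T o W2 j) (W2 j)
          rw [show traj T o W1 i = traj T o W2 j from congrArg Prod.fst hc,
            show W1 i = W2 j from congrArg Prod.snd hc]
        · right
          obtain ⟨i, hi, hc⟩ := Finset.mem_image.mp h
          rw [Finset.mem_range] at hi
          refine Finset.mem_image.mpr ⟨i + 1, Finset.mem_range.mpr (by omega), ?_⟩
          show T (traj T o W2 i) (W2 i) = T (traj T o W2 j) (W2 j)
          rw [show traj T o W2 i = traj T o W2 j from congrArg Prod.fst hc,
            show W2 i = W2 j from congrArg Prod.snd hc])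
    omega

theorem te_one [DecidableEq V] (T : V → Fin k → V) (o : V) (W1 W2 : ℕ → Fin k) (l L d : ℕ)
    (hl : l ≤ L) (h : (X2 T o W1 W2 L).card ≤ (Y2 T o W1 W2 L).card + d) :
    ((Finset.Ico l L).image (cell T o W1)).card
        ≤ ((Finset.Icc l L).image (traj T o W1)).card + d := by
  have h1 := te_down T o W1 l L hl
  have h2 := te_up T o W1 W2 L L
  have e1 : Finset.Ico 0 L = Finset.range L := by
    ext i; simp
  have e2 : Finset.Icc 0 L = Finset.range (L + 1) := by
    ext i
    simp only [Finset.mem_Icc, Finset.mem_range]
    omega
  rw [e1, e2] at h1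
  unfold X2 Y2 at h
  omega

/-- the excess of the exploration along a tail of one of the two walks is at most the total one -/
theorem tail_excess [DecidableEq V] (T : V → Fin k → V) (o : V) (W1 W2 : ℕ → Fin k) (l L d : ℕ)
    (hl : l ≤ L) (h : (X2 T o W1 W2 L).card ≤ (Y2 T o W1 W2 L).card + d) :
    ((Finset.Ico l L).image (cell T o W1)).card
        ≤ ((Finset.Icc l L).image (traj T o W1)).card + d ∧
    ((Finset.Ico l L).image (cell T o W2)).card
        ≤ ((Finset.Icc l L).image (traj T o W2)).card + d := by
  refine ⟨te_one T o W1 W2 l L d hl h, te_one T o W2 W1 l L d hl ?_⟩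
  have e1 : X2 T o W2 W1 L = X2 T o W1 W2 L := Finset.union_comm _ _
  have e2 : Y2 T o W2 W1 L = Y2 T o W1 W2 L := Finset.union_comm _ _
  rw [e1, e2]
  exact h

end SI
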