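import Pool.Agent.Helper513.SI.Defs

set_option autoImplicit false

namespace SI



theorem qsum (l : ℕ) (b : ℕ) :
    ∑ a ∈ Finset.range (b + 1), ((1:ℝ)/2) ^ (l - 1 - a) ≤
      2 * ((1:ℝ)/2) ^ (l - 1 - b) + ((b + 1 - l : ℕ) : ℝ) := by
  induction b with
  | zero =>
    rw [Finset.sum_range_one]
    have : (0:ℝ) ≤ ((1:ℝ)/2) ^ (l - 1 - 0) := by positivity
    have h2 : (0:ℝ) ≤ ((0 + 1 - l : ℕ) : ℝ) := Nat.cast_nonneg _
    linarith
  | succ b ih =>
    rw [Finset.sum_range_succ]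
    by_cases h : b + 1 < l
    · have e1 : l - 1 - b = (l - 1 - (b + 1)) + 1 := by omega
      have e2 : b + 1 - l = 0 := by omega
      have e3 : b + 1 + 1 - l = 0 := by omega
      rw [e1, pow_succ, e2] at ih
      rw [e3]
      push_cast at ih ⊢
      linarith
    · have e1 : l - 1 - b = 0 := by omega
      have e2 : l - 1 - (b + 1) = 0 := by omega
      have e3 : b + 1 + 1 - l = (b + 1 - l) + 1 := by omega
      rw [e1] at ih
      rw [e2, e3]
      push_cast at ih ⊢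
      linarith

theorem hsum (H : ℕ) : ∑ j ∈ Finset.range H, ((3:ℝ)/4) ^ (j + 1) * (2 + ((j : ℝ) + 1)) =
    18 - (3 * H + 18) * ((3:ℝ)/4) ^ H := by
  induction H with
  | zero => simp
  | succ H ih =>
    rw [Finset.sum_range_succ, ih, pow_succ]
    push_cast
    ring

theorem gsum (l : ℕ) : ∑ b ∈ Finset.range l, ((1:ℝ)/2) ^ (l - 1 - b) ≤ 2 := by
  rw [Finset.sum_range_reflect (fun j => ((1:ℝ)/2) ^ j) l]
  have : ∀ l : ℕ, ∑ j ∈ Finset.range l, ((1:ℝ)/2) ^ j = 2 - 2 * ((1:ℝ)/2) ^ l := by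
    intro l
    induction l with
    | zero => simp
    | succ l ih => rw [Finset.sum_range_succ, ih, pow_succ]; ring
  rw [this]
  have : (0:ℝ) ≤ ((1:ℝ)/2) ^ l := by positivity
  linarith

theorem bsum (l H : ℕ) : ∑ b ∈ Finset.range (l + H), ((3:ℝ)/4) ^ (b + 1 - l) *
    (2 * ((1:ℝ)/2) ^ (l - 1 - b) + ((b + 1 - l : ℕ) : ℝ)) ≤ 22 := by
  rw [Finset.sum_range_add]
  have h1 : ∑ b ∈ Finset.range l, ((3:ℝ)/4) ^ (b + 1 - l) *
      (2 * ((1:ℝ)/2) ^ (l - 1 - b) + ((b + 1 - l : ℕ) : ℝ)) ≤ 4 := by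
    have : ∑ b ∈ Finset.range l, ((3:ℝ)/4) ^ (b + 1 - l) *
      (2 * ((1:ℝ)/2) ^ (l - 1 - b) + ((b + 1 - l : ℕ) : ℝ)) =
      2 * ∑ b ∈ Finset.range l, ((1:ℝ)/2) ^ (l - 1 - b) := by
      rw [Finset.mul_sum]
      apply Finset.sum_congr rfl
      intro b hb
      rw [Finset.mem_range] at hb
      have e : b + 1 - l = 0 := by omega
      rw [e]
      simp
    rw [this]
    linarith [gsum l]
  have h2 : ∑ j ∈ Finset.range H, ((3:ℝ)/4) ^ (l + j + 1 - l) *
      (2 * ((1:ℝ)/2) ^ (l - 1 - (l + j)) + ((l + j + 1 - l : ℕ) : ℝ)) ≤ 18 := by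
    have : ∑ j ∈ Finset.range H, ((3:ℝ)/4) ^ (l + j + 1 - l) *
      (2 * ((1:ℝ)/2) ^ (l - 1 - (l + j)) + ((l + j + 1 - l : ℕ) : ℝ)) =
      ∑ j ∈ Finset.range H, ((3:ℝ)/4) ^ (j + 1) * (2 + ((j : ℝ) + 1)) := by
      apply Finset.sum_congr rfl
      intro j _
      have e1 : l + j + 1 - l = j + 1 := by omega
      have e2 : l - 1 - (l + j) = 0 := by omega
      rw [e1, e2]
      push_cast
      ring
    rw [this, hsum]
    have : (0:ℝ) ≤ (3 * H + 18) * ((3:ℝ)/4) ^ H := by positivity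
    linarith
  linarith

theorem prod_two (s l : ℕ) :
    ∏ j ∈ Finset.range l, (if s < j then (2:ℝ) else 1) = 2 ^ (l - 1 - s) := by
  induction l with
  | zero => simp
  | succ l ih =>
    rw [Finset.prod_range_succ, ih]
    by_cases h : s < l
    · rw [if_pos h]
      have : l + 1 - 1 - s = (l - 1 - s) + 1 := by omega
      rw [this, pow_succ]
    · rw [if_neg h]
      have e1 : l + 1 - 1 - s = 0 := by omega
      have e2 : l - 1 - s = 0 := by omega
      rw [e1, e2]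
      norm_num

open Classical in
theorem card_ag (k : ℕ) (hk : 2 ≤ k) (l s : ℕ) (w : Fin l → Fin k) :
    ((Finset.univ.filter (fun w' : Fin l → Fin k => Ag w w' s)).card : ℝ) ≤
      (k:ℝ) ^ l * ((1:ℝ)/2) ^ (l - 1 - s) := by
  have h1 : Finset.univ.filter (fun w' : Fin l → Fin k => Ag w w' s) =
      Fintype.piFinset (fun j : Fin l => if s < (j:ℕ) then ({w j} : Finset (Fin k)) else Finset.univ) := by
    ext w'
    rw [Finset.mem_filter, Fintype.mem_piFinset]
    constructor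
    · rintro ⟨-, h⟩ j
      by_cases hj : s < (j:ℕ)
      · rw [if_pos hj, Finset.mem_singleton]
        exact (h j hj).symm
      · rw [if_neg hj]
        exact Finset.mem_univ _
    · intro h
      refine ⟨Finset.mem_univ _, fun j hj => ?_⟩
      have := h j
      rw [if_pos hj, Finset.mem_singleton] at this
      exact this.symm
  rw [h1, Fintype.card_piFinset]
  have h2 : ∀ j : Fin l, (((if s < (j:ℕ) then ({w j} : Finset (Fin k)) else Finset.univ).card : ℕ) : ℝ)
      = if s < (j:ℕ) then (1:ℝ) else k := by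
    intro j
    by_cases hj : s < (j:ℕ)
    · rw [if_pos hj, if_pos hj]; simp
    · rw [if_neg hj, if_neg hj]; simp
  push_cast
  rw [Finset.prod_congr rfl (fun j _ => h2 j)]
  rw [one_div, inv_pow, ← div_eq_mul_inv, le_div_iff₀ (by positivity), ← prod_two s l,
    ← Fin.prod_univ_eq_prod_range (fun j => if s < j then (2:ℝ) else 1) l, ← Finset.prod_mul_distrib]
  have h3 : (k:ℝ) ^ l = ∏ _j : Fin l, (k:ℝ) := by
    rw [Finset.prod_const, Finset.card_univ, Fintype.card_fin]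
  rw [h3]
  apply Finset.prod_le_prod
  · intro j _
    split_ifs <;> positivity
  · intro j _
    have hk' : (2:ℝ) ≤ k := by exact_mod_cast hk
    split_ifs
    · linarith
    · linarith

theorem minmax_sum (l H : ℕ) : ∑ t ∈ Finset.range (l + H), ∑ t' ∈ Finset.range (l + H),
    ((1:ℝ)/2) ^ (l - 1 - min t t') * ((3:ℝ)/4)^(max t t' + 1 - l) ≤ 44 := by
  have h1 : ∑ t ∈ Finset.range (l + H), ∑ t' ∈ Finset.range (l + H),
      ((1:ℝ)/2) ^ (l - 1 - min t t') * ((3:ℝ)/4)^(max t t' + 1 - l) ≤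
      (∑ t ∈ Finset.range (l + H), ∑ t' ∈ Finset.range (l + H),
        if t' ≤ t then ((1:ℝ)/2) ^ (l - 1 - t') * ((3:ℝ)/4)^(t + 1 - l) else 0) +
      ∑ t ∈ Finset.range (l + H), ∑ t' ∈ Finset.range (l + H),
        if t ≤ t' then ((1:ℝ)/2) ^ (l - 1 - t) * ((3:ℝ)/4)^(t' + 1 - l) else 0 := by
    rw [← Finset.sum_add_distrib]
    apply Finset.sum_le_sum
    intro t _
    rw [← Finset.sum_add_distrib]
    apply Finset.sum_le_sum
    intro t' _
    rcases le_total t t' with h | h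
    · rw [min_eq_left h, max_eq_right h, if_pos h]
      have : (0:ℝ) ≤ if t' ≤ t then ((1:ℝ)/2) ^ (l - 1 - t') * ((3:ℝ)/4)^(t + 1 - l) else 0 := by
        split_ifs <;> positivity
      linarith
    · rw [min_eq_right h, max_eq_left h, if_pos h]
      have : (0:ℝ) ≤ if t ≤ t' then ((1:ℝ)/2) ^ (l - 1 - t) * ((3:ℝ)/4)^(t' + 1 - l) else 0 := by
        split_ifs <;> positivity
      linarith
  have h2 : ∑ t ∈ Finset.range (l + H), ∑ t' ∈ Finset.range (l + H),
      (if t' ≤ t then ((1:ℝ)/2) ^ (l - 1 - t') * ((3:ℝ)/4)^(t + 1 - l) else 0) ≤ 22 := by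
    refine le_trans (Finset.sum_le_sum fun t ht => ?_) (bsum l H)
    rw [Finset.mem_range] at ht
    rw [← Finset.sum_filter]
    have e : (Finset.range (l + H)).filter (fun t' => t' ≤ t) = Finset.range (t + 1) := by
      ext x
      simp only [Finset.mem_filter, Finset.mem_range]
      omega
    rw [e, ← Finset.sum_mul, mul_comm]
    exact mul_le_mul_of_nonneg_left (qsum l t) (by positivity)
  have h3 : ∑ t ∈ Finset.range (l + H), ∑ t' ∈ Finset.range (l + H),
      (if t ≤ t' then ((1:ℝ)/2) ^ (l - 1 - t) * ((3:ℝ)/4)^(t' + 1 - l) else 0) ≤ 22 := by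
    rw [Finset.sum_comm]
    exact h2
  linarith

theorem swap3 {α β γ : Type*} (A : Finset α) (B : Finset β) (C : Finset γ) (f : α → β → γ → ℝ) :
    ∑ a ∈ A, ∑ b ∈ B, ∑ c ∈ C, f a b c = ∑ c ∈ C, ∑ a ∈ A, ∑ b ∈ B, f a b c :=
  (Finset.sum_congr rfl fun a _ => Finset.sum_comm).trans Finset.sum_comm

open Classical in
theorem pair_sum (k : ℕ) (hk : 2 ≤ k) (l H : ℕ) :
    ∑ w : Fin l → Fin k, ∑ w' : Fin l → Fin k,
      ∑ t ∈ Finset.range (l + H), ∑ t' ∈ Finset.range (l + H),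
        (if Ag w w' t ∧ Ag w w' t' then ((3:ℝ)/4)^(max t t' + 1 - l) else 0)
      ≤ 44 * ((k:ℝ)^l)^2 := by
  rw [swap3]
  have h1 : ∀ t t' : ℕ, ∑ w : Fin l → Fin k, ∑ w' : Fin l → Fin k,
      (if Ag w w' t ∧ Ag w w' t' then ((3:ℝ)/4)^(max t t' + 1 - l) else 0) ≤
      ((k:ℝ)^l)^2 * (((1:ℝ)/2) ^ (l - 1 - min t t') * ((3:ℝ)/4)^(max t t' + 1 - l)) := by
    intro t t'
    have h2 : ∀ w : Fin l → Fin k, ∑ w' : Fin l → Fin k,
        (if Ag w w' t ∧ Ag w w' t' then ((3:ℝ)/4)^(max t t' + 1 - l) else 0) ≤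
        (k:ℝ) ^ l * ((1:ℝ)/2) ^ (l - 1 - min t t') * ((3:ℝ)/4)^(max t t' + 1 - l) := by
      intro w
      calc ∑ w' : Fin l → Fin k,
          (if Ag w w' t ∧ Ag w w' t' then ((3:ℝ)/4)^(max t t' + 1 - l) else 0)
          ≤ ∑ w' : Fin l → Fin k,
          (if Ag w w' (min t t') then ((3:ℝ)/4)^(max t t' + 1 - l) else 0) := by
            apply Finset.sum_le_sum
            intro w' _
            by_cases h : Ag w w' t ∧ Ag w w' t'
            · rw [if_pos h, if_pos]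
              rcases min_choice t t' with e | e
              · rw [e]; exact h.1
              · rw [e]; exact h.2
            · rw [if_neg h]
              split_ifs <;> positivity
        _ = ((Finset.univ.filter (fun w' : Fin l → Fin k => Ag w w' (min t t'))).card : ℝ) *
              ((3:ℝ)/4)^(max t t' + 1 - l) := by
            rw [← Finset.sum_filter, Finset.sum_const, nsmul_eq_mul]
        _ ≤ _ := mul_le_mul_of_nonneg_right (card_ag k hk l _ w) (by positivity)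
    calc ∑ w : Fin l → Fin k, ∑ w' : Fin l → Fin k,
        (if Ag w w' t ∧ Ag w w' t' then ((3:ℝ)/4)^(max t t' + 1 - l) else 0)
        ≤ ∑ _w : Fin l → Fin k,
          (k:ℝ) ^ l * ((1:ℝ)/2) ^ (l - 1 - min t t') * ((3:ℝ)/4)^(max t t' + 1 - l) :=
          Finset.sum_le_sum fun w _ => h2 w
      _ = _ := by
          rw [Finset.sum_const, nsmul_eq_mul, Finset.card_univ, Fintype.card_fun, Fintype.card_fin,
            Fintype.card_fin]
          push_cast
          ring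
  calc ∑ t ∈ Finset.range (l + H), ∑ w : Fin l → Fin k, ∑ w' : Fin l → Fin k,
      ∑ t' ∈ Finset.range (l + H),
        (if Ag w w' t ∧ Ag w w' t' then ((3:ℝ)/4)^(max t t' + 1 - l) else 0)
      = ∑ t ∈ Finset.range (l + H), ∑ t' ∈ Finset.range (l + H),
        ∑ w : Fin l → Fin k, ∑ w' : Fin l → Fin k,
        (if Ag w w' t ∧ Ag w w' t' then ((3:ℝ)/4)^(max t t' + 1 - l) else 0) := by
        apply Finset.sum_congr rfl
        intro t _
        rw [swap3]
    _ ≤ ∑ t ∈ Finset.range (l + H), ∑ t' ∈ Finset.range (l + H),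
        ((k:ℝ)^l)^2 * (((1:ℝ)/2) ^ (l - 1 - min t t') * ((3:ℝ)/4)^(max t t' + 1 - l)) :=
        Finset.sum_le_sum fun t _ => Finset.sum_le_sum fun t' _ => h1 t t'
    _ = ((k:ℝ)^l)^2 * ∑ t ∈ Finset.range (l + H), ∑ t' ∈ Finset.range (l + H),
        ((1:ℝ)/2) ^ (l - 1 - min t t') * ((3:ℝ)/4)^(max t t' + 1 - l) := by
        rw [Finset.mul_sum]
        apply Finset.sum_congr rfl
        intro t _
        rw [Finset.mul_sum]
    _ ≤ ((k:ℝ)^l)^2 * 44 := mul_le_mul_of_nonneg_left (minmax_sum l H) (by positivity)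
    _ = 44 * ((k:ℝ)^l)^2 := by ring

end SI
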