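import Pool.Agent.Helper513.SI.B

set_option autoImplicit false

namespace SI
open RA
variable {V : Type} {k : ℕ}



theorem conn_card [DecidableEq V] (T : V → Fin k → V) (o : V) (W1 W2 : ℕ → Fin k) (L : ℕ) :
    (Y2 T o W1 W2 L).card ≤ (X2 T o W1 W2 L).card + 1 := by
  have hsub : Y2 T o W1 W2 L ⊆ insert o ((X2 T o W1 W2 L).image (fun c => T c.1 c.2)) := by
    intro y hy
    rw [Finset.mem_insert, Finset.mem_image]
    rcases Finset.mem_union.1 hy with h | h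
    · obtain ⟨t, ht, rfl⟩ := Finset.mem_image.1 h
      rw [Finset.mem_range] at ht
      cases t with
      | zero => exact Or.inl rfl
      | succ s =>
        right
        refine ⟨cell T o W1 s, ?_, rfl⟩
        exact Finset.mem_union_left _ (Finset.mem_image_of_mem _ (Finset.mem_range.2 (by omega)))
    · obtain ⟨t, ht, rfl⟩ := Finset.mem_image.1 h
      rw [Finset.mem_range] at ht
      cases t with
      | zero => exact Or.inl rfl
      | succ s =>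
        right
        refine ⟨cell T o W2 s, ?_, rfl⟩
        exact Finset.mem_union_right _ (Finset.mem_image_of_mem _ (Finset.mem_range.2 (by omega)))
  calc (Y2 T o W1 W2 L).card ≤ (insert o ((X2 T o W1 W2 L).image (fun c => T c.1 c.2))).card :=
        Finset.card_le_card hsub
    _ ≤ ((X2 T o W1 W2 L).image (fun c => T c.1 c.2)).card + 1 := Finset.card_insert_le _ _
    _ ≤ (X2 T o W1 W2 L).card + 1 := Nat.add_le_add_right Finset.card_image_le 1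

theorem exc_pair_count [Fintype V] [DecidableEq V] (o : V) (W1 W2 : ℕ → Fin k) (L : ℕ) :
    Set.ncard {p : (V → Fin k → V) × (V → Fin k → V) | Acc p.1 o ∧ Acc p.2 o ∧
        (Y2 p.1 o W1 W2 L).card + (Y2 p.2 o W1 W2 L).card + 1
          ≤ (X2 p.1 o W1 W2 L).card + (X2 p.2 o W1 W2 L).card} * (Fintype.card V)^3
      ≤ 4 * ((2*L+1)*(2*L+2))^3 * (Set.ncard {T : V → Fin k → V | Acc T o})^2 := by
  set E : ℕ → Set (V → Fin k → V) := fun c =>
    {T | Acc T o ∧ (Y2 T o W1 W2 L).card + c ≤ (X2 T o W1 W2 L).card + 1} with hE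
  set A : ℕ := Set.ncard {T : V → Fin k → V | Acc T o} with hA
  set Q : ℕ := (2*L+1)*(2*L+2) with hQ
  have hc : ∀ c, (E c).ncard * (Fintype.card V)^c ≤ Q^c * A := fun c =>
    excess2_count o W1 W2 L c
  have hsub : {p : (V → Fin k → V) × (V → Fin k → V) | Acc p.1 o ∧ Acc p.2 o ∧
        (Y2 p.1 o W1 W2 L).card + (Y2 p.2 o W1 W2 L).card + 1
          ≤ (X2 p.1 o W1 W2 L).card + (X2 p.2 o W1 W2 L).card} ⊆
      ((E 0 ×ˢ E 3 ∪ E 1 ×ˢ E 2) ∪ E 2 ×ˢ E 1) ∪ E 3 ×ˢ E 0 := by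
    rintro ⟨T1, T2⟩ ⟨h1, h2, h3⟩
    have c1 := conn_card T1 o W1 W2 L
    have c2 := conn_card T2 o W1 W2 L
    replace h3 : (Y2 T1 o W1 W2 L).card + (Y2 T2 o W1 W2 L).card + 1
          ≤ (X2 T1 o W1 W2 L).card + (X2 T2 o W1 W2 L).card := h3
    by_cases g3 : (Y2 T1 o W1 W2 L).card + 3 ≤ (X2 T1 o W1 W2 L).card + 1
    · right
      exact ⟨⟨h1, g3⟩, ⟨h2, (show (Y2 T2 o W1 W2 L).card + 0 ≤ (X2 T2 o W1 W2 L).card + 1 by omega)⟩⟩
    by_cases g2 : (Y2 T1 o W1 W2 L).card + 2 ≤ (X2 T1 o W1 W2 L).card + 1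
    · left; right
      exact ⟨⟨h1, g2⟩, ⟨h2, (show (Y2 T2 o W1 W2 L).card + 1 ≤ (X2 T2 o W1 W2 L).card + 1 by omega)⟩⟩
    by_cases g1 : (Y2 T1 o W1 W2 L).card + 1 ≤ (X2 T1 o W1 W2 L).card + 1
    · left; left; right
      exact ⟨⟨h1, g1⟩, ⟨h2, (show (Y2 T2 o W1 W2 L).card + 2 ≤ (X2 T2 o W1 W2 L).card + 1 by omega)⟩⟩
    · left; left; left
      exact ⟨⟨h1, (show (Y2 T1 o W1 W2 L).card + 0 ≤ (X2 T1 o W1 W2 L).card + 1 by omega)⟩, ⟨h2, (show (Y2 T2 o W1 W2 L).card + 3 ≤ (X2 T2 o W1 W2 L).card + 1 by omega)⟩⟩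
  have hcard := Set.ncard_le_ncard hsub (Set.toFinite _)
  have hu1 := Set.ncard_union_le ((E 0 ×ˢ E 3 ∪ E 1 ×ˢ E 2) ∪ E 2 ×ˢ E 1) (E 3 ×ˢ E 0)
  have hu2 := Set.ncard_union_le (E 0 ×ˢ E 3 ∪ E 1 ×ˢ E 2) (E 2 ×ˢ E 1)
  have hu3 := Set.ncard_union_le (E 0 ×ˢ E 3) (E 1 ×ˢ E 2)
  simp only [Set.ncard_prod] at hu1 hu2 hu3
  have hpair : ∀ c d, c + d = 3 →
      (E c).ncard * (E d).ncard * (Fintype.card V)^3 ≤ Q^3 * A^2 := by
    intro c d hcd
    calc (E c).ncard * (E d).ncard * (Fintype.card V)^3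
        = ((E c).ncard * (Fintype.card V)^c) * ((E d).ncard * (Fintype.card V)^d) := by
          rw [← hcd, pow_add]; ring
      _ ≤ (Q^c * A) * (Q^d * A) := Nat.mul_le_mul (hc c) (hc d)
      _ = Q^3 * A^2 := by rw [← hcd, pow_add]; ring
  have p1 := hpair 0 3 rfl
  have p2 := hpair 1 2 rfl
  have p3 := hpair 2 1 rfl
  have p4 := hpair 3 0 rfl
  generalize Set.ncard {p : (V → Fin k → V) × (V → Fin k → V) | Acc p.1 o ∧ Acc p.2 o ∧
        (Y2 p.1 o W1 W2 L).card + (Y2 p.2 o W1 W2 L).card + 1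
          ≤ (X2 p.1 o W1 W2 L).card + (X2 p.2 o W1 W2 L).card} = N at *
  have hN : N ≤ (E 0).ncard * (E 3).ncard + (E 1).ncard * (E 2).ncard
      + (E 2).ncard * (E 1).ncard + (E 3).ncard * (E 0).ncard := by
    omega
  calc N * (Fintype.card V)^3 ≤ ((E 0).ncard * (E 3).ncard + (E 1).ncard * (E 2).ncard
      + (E 2).ncard * (E 1).ncard + (E 3).ncard * (E 0).ncard) * (Fintype.card V)^3 :=
        Nat.mul_le_mul_right _ hN
    _ = (E 0).ncard * (E 3).ncard * (Fintype.card V)^3 + (E 1).ncard * (E 2).ncard * (Fintype.card V)^3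
      + (E 2).ncard * (E 1).ncard * (Fintype.card V)^3
      + (E 3).ncard * (E 0).ncard * (Fintype.card V)^3 := by ring
    _ ≤ Q^3 * A^2 + Q^3 * A^2 + Q^3 * A^2 + Q^3 * A^2 :=
        Nat.add_le_add (Nat.add_le_add (Nat.add_le_add p1 p2) p3) p4
    _ = 4 * Q^3 * A^2 := by ring

end SI
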