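import Pool.Agent.Helper513.SI.F
import Pool.Agent.Helper513.SI.G
import Pool.Agent.Helper513.SI.H

set_option autoImplicit false

namespace SI
open RA
variable {V : Type} {k : ℕ}






theorem uc_traj_congr (T : V → Fin k → V) (p : V) (W W' : ℕ → Fin k) (m : ℕ)
    (h : ∀ t < m, W t = W' t) : traj T p W m = traj T p W' m := by
  induction m with
  | zero => rfl
  | succ m ih =>
    simp only [traj]
    rw [ih (fun t ht => h t (by omega)), h m (by omega)]

theorem uc_traj_add (T : V → Fin k → V) (p : V) (W : ℕ → Fin k) (l i : ℕ) :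
    traj T p W (l + i) = traj T (traj T p W l) (fun t => W (l + t)) i := by
  induction i with
  | zero => rfl
  | succ i ih =>
    show T (traj T p W (l + i)) (W (l + i)) = _
    rw [ih]
    rfl

theorem uc_cat_lt [NeZero k] {l H : ℕ} (w : Fin l → Fin k) (z z' : Fin H → Fin k) (t : ℕ)
    (ht : t < l) : cat w z t = cat w z' t := by
  simp [cat, ht]

theorem uc_cat_add [NeZero k] {l H : ℕ} (w : Fin l → Fin k) (z : Fin H → Fin k) (t : ℕ) :
    cat w z (l + t) = ext z t := by
  simp [cat]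

/-- the state reached after the prefix -/
def uc_p [NeZero k] (T : V → Fin k → V) (o : V) {l : ℕ} (w : Fin l → Fin k) (H : ℕ) : V :=
  traj T o (cat w (fun _ : Fin H => 0)) l

theorem uc_shift [NeZero k] (T : V → Fin k → V) (o : V) {l H : ℕ} (w : Fin l → Fin k)
    (z : Fin H → Fin k) (i : ℕ) :
    traj T o (cat w z) (l + i) = traj T (uc_p T o w H) (ext z) i := by
  rw [uc_traj_add, uc_traj_congr T o (cat w z) (cat w (fun _ => 0)) l
    (fun t ht => uc_cat_lt w z _ t ht)]
  have : (fun t => cat w z (l + t)) = ext z := by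
    funext t; exact uc_cat_add w z t
  rw [this]
  rfl

theorem uc_cell [NeZero k] (T : V → Fin k → V) (o : V) {l H : ℕ} (w : Fin l → Fin k)
    (z : Fin H → Fin k) (i : ℕ) :
    cell T o (cat w z) (l + i) = cell T (uc_p T o w H) (ext z) i := by
  unfold cell
  rw [uc_shift, uc_cat_add]

theorem uc_img1 [NeZero k] [DecidableEq V] (T : V → Fin k → V) (o : V) {l H : ℕ}
    (w : Fin l → Fin k) (z : Fin H → Fin k) :
    (Finset.Ico l (l + H)).image (cell T o (cat w z)) =
      (Finset.range H).image (cell T (uc_p T o w H) (ext z)) := by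
  have h : Finset.Ico l (l + H) = (Finset.range H).image (fun i => l + i) := by
    ext x
    simp only [Finset.mem_Ico, Finset.mem_image, Finset.mem_range]
    constructor
    · rintro ⟨h1, h2⟩; exact ⟨x - l, by omega, by omega⟩
    · rintro ⟨i, h1, rfl⟩; omega
  rw [h, Finset.image_image]
  apply Finset.image_congr
  intro i _
  exact uc_cell T o w z i

theorem uc_img2 [NeZero k] [DecidableEq V] (T : V → Fin k → V) (o : V) {l H : ℕ}
    (w : Fin l → Fin k) (z : Fin H → Fin k) :
    (Finset.Icc l (l + H)).image (traj T o (cat w z)) =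
      (Finset.range (H + 1)).image (traj T (uc_p T o w H) (ext z)) := by
  have h : Finset.Icc l (l + H) = (Finset.range (H + 1)).image (fun i => l + i) := by
    ext x
    simp only [Finset.mem_Icc, Finset.mem_image, Finset.mem_range]
    constructor
    · rintro ⟨h1, h2⟩; exact ⟨x - l, by omega, by omega⟩
    · rintro ⟨i, h1, rfl⟩; omega
  rw [h, Finset.image_image]
  apply Finset.image_congr
  intro i _
  exact uc_shift T o w z i

theorem uc_NF [DecidableEq V] (u : ℕ → V) (H : ℕ) :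
    ((Finset.range (H + 1)).filter (fun i => ∃ j < i, u j = u i)).card +
      ((Finset.range (H + 1)).image u).card ≤ H + 1 := by
  classical
  have h1 := Finset.card_filter_add_card_filter_not (s := Finset.range (H + 1))
    (fun i => ∃ j < i, u j = u i)
  rw [Finset.card_range] at h1
  have h2 : (Finset.range (H + 1)).image u ⊆
      ((Finset.range (H + 1)).filter (fun i => ¬ ∃ j < i, u j = u i)).image u := by
    intro v hv
    obtain ⟨i, hi, rfl⟩ := Finset.mem_image.1 hv
    have hex : ∃ j, u j = u i := ⟨i, rfl⟩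
    have hle : Nat.find hex ≤ i := Nat.find_min' hex rfl
    refine Finset.mem_image.2 ⟨Nat.find hex, ?_, Nat.find_spec hex⟩
    rw [Finset.mem_filter, Finset.mem_range]
    refine ⟨by have := Finset.mem_range.1 hi; omega, ?_⟩
    rintro ⟨j, hj, hju⟩
    exact Nat.find_min hex hj (hju.trans (Nat.find_spec hex))
  have h3 := (Finset.card_le_card h2).trans Finset.card_image_le
  omega

theorem uc_greedy (R : ℕ → ℕ → Prop) (hsym : ∀ i j, R i j → R j i) (n : ℕ) :
    ∀ J : Finset ℕ, J.card ≤ n → (∀ i ∈ J, ∃ C : Finset ℕ, C.card ≤ 4 ∧ ∀ j ∈ J, j ≠ i → R i j → j ∈ C) →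
      ∃ J' ⊆ J, J.card ≤ 5 * J'.card ∧ ∀ i ∈ J', ∀ j ∈ J', i ≠ j → ¬ R i j := by
  classical
  induction n with
  | zero =>
    intro J hJ _
    refine ⟨∅, Finset.empty_subset _, by omega, ?_⟩
    intro i hi
    exact absurd hi (Finset.notMem_empty _)
  | succ n ih =>
    intro J hJ hC
    rcases J.eq_empty_or_nonempty with rfl | ⟨i, hi⟩
    · exact ⟨∅, Finset.empty_subset _, by simp, fun i hi => absurd hi (Finset.notMem_empty _)⟩
    · obtain ⟨C, hC4, hCR⟩ := hC i hi
      set J1 := J \ (insert i C) with hJ1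
      have hsub : J1 ⊆ J := Finset.sdiff_subset
      have hi1 : i ∉ J1 := by
        rw [hJ1, Finset.mem_sdiff]
        rintro ⟨-, h⟩
        exact h (Finset.mem_insert_self _ _)
      have hlt : J1.card < J.card := Finset.card_lt_card
        ⟨hsub, fun h => hi1 (h hi)⟩
      have hge : J.card ≤ J1.card + 5 := by
        have h1 : J.card ≤ J1.card + (insert i C).card := by
          rw [hJ1]
          have := Finset.card_le_card_sdiff_add_card (s := J) (t := insert i C)
          omega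
        have h2 := Finset.card_insert_le i C
        omega
      obtain ⟨J', hJ', hcard, hpair⟩ := ih J1 (by omega) (fun j hj => by
        obtain ⟨D, hD4, hD⟩ := hC j (hsub hj)
        exact ⟨D, hD4, fun x hx hne hR => hD x (hsub hx) hne hR⟩)
      have hnot : ∀ j ∈ J', ¬ R i j := by
        intro j hj hR
        have h1 := hJ' hj
        have h2 : j ≠ i := fun h => hi1 (h ▸ h1)
        have h3 := hCR j (hsub h1) h2 hR
        rw [hJ1, Finset.mem_sdiff] at h1
        exact h1.2 (Finset.mem_insert_of_mem h3)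
      have hiJ' : i ∉ J' := fun h => hi1 (hJ' h)
      refine ⟨insert i J', ?_, ?_, ?_⟩
      · intro x hx
        rcases Finset.mem_insert.1 hx with rfl | hx
        · exact hi
        · exact hsub (hJ' hx)
      · rw [Finset.card_insert_of_notMem hiJ']
        omega
      · intro x hx y hy hxy
        rcases Finset.mem_insert.1 hx with rfl | hx'
        · rcases Finset.mem_insert.1 hy with rfl | hy'
          · exact absurd rfl hxy
          · exact hnot y hy'
        · rcases Finset.mem_insert.1 hy with rfl | hy'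
          · exact fun hR => hnot x hx' (hsym _ _ hR)
          · exact hpair x hx' y hy' hxy

/-- the set of indices used by `fail_count` -/
theorem uc_J [DecidableEq V] (a b c d : ℕ → V) (H s : ℕ) (hH : H = 16 * (2 * s + 2))
    (ha : H + 1 < ((Finset.range (H + 1)).image a).card + (4 * s + 3))
    (hb : H + 1 < ((Finset.range (H + 1)).image b).card + (4 * s + 3))
    (hc : H + 1 < ((Finset.range (H + 1)).image c).card + (4 * s + 3))
    (hd : H + 1 < ((Finset.range (H + 1)).image d).card + (4 * s + 3)) :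
    ∃ J : Finset ℕ, s ≤ J.card ∧ (∀ i ∈ J, i ≤ H) ∧
      (∀ i ∈ J, ∀ j ∈ J, i ≠ j → a i ≠ a j ∧ a i ≠ b j ∧ b i ≠ b j) ∧
      (∀ i ∈ J, ∀ j ∈ J, i ≠ j → c i ≠ c j ∧ c i ≠ d j ∧ d i ≠ d j) := by
  classical
  have na := uc_NF a H
  have nb := uc_NF b H
  have nc := uc_NF c H
  have nd := uc_NF d H
  set A := (Finset.range (H + 1)).filter (fun i => ∃ j < i, a j = a i) with hA
  set B := (Finset.range (H + 1)).filter (fun i => ∃ j < i, b j = b i) with hB
  set C := (Finset.range (H + 1)).filter (fun i => ∃ j < i, c j = c i) with hC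
  set D := (Finset.range (H + 1)).filter (fun i => ∃ j < i, d j = d i) with hD
  set J := Finset.range (H + 1) \ (A ∪ B ∪ (C ∪ D)) with hJ
  have hJcard : 5 * s ≤ J.card := by
    have h1 : (A ∪ B ∪ (C ∪ D)).card ≤ A.card + B.card + (C.card + D.card) :=
      (Finset.card_union_le _ _).trans (add_le_add (Finset.card_union_le _ _)
        (Finset.card_union_le _ _))
    have h2 := Finset.card_le_card_sdiff_add_card (s := Finset.range (H + 1)) (t := A ∪ B ∪ (C ∪ D))
    rw [Finset.card_range, ← hJ] at h2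
    omega
  have key : ∀ (u : ℕ → V) (U : Finset ℕ), U = (Finset.range (H + 1)).filter
      (fun i => ∃ j < i, u j = u i) → (∀ i ∈ J, i ∉ U) → ∀ i ∈ J, ∀ j ∈ J, i ≠ j → u i ≠ u j := by
    intro u U hU hJU i hi j hj hij h
    have hr : ∀ x ∈ J, x ∈ Finset.range (H + 1) := fun x hx => (Finset.mem_sdiff.1 hx).1
    rcases lt_or_gt_of_ne hij with h1 | h1
    · exact hJU j hj (by rw [hU]; exact Finset.mem_filter.2 ⟨hr j hj, i, h1, h⟩)
    · exact hJU i hi (by rw [hU]; exact Finset.mem_filter.2 ⟨hr i hi, j, h1, h.symm⟩)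
  have ia := key a A hA (fun i hi h => (Finset.mem_sdiff.1 hi).2
    (Finset.mem_union_left _ (Finset.mem_union_left _ h)))
  have ib := key b B hB (fun i hi h => (Finset.mem_sdiff.1 hi).2
    (Finset.mem_union_left _ (Finset.mem_union_right _ h)))
  have ic := key c C hC (fun i hi h => (Finset.mem_sdiff.1 hi).2
    (Finset.mem_union_right _ (Finset.mem_union_left _ h)))
  have id' := key d D hD (fun i hi h => (Finset.mem_sdiff.1 hi).2
    (Finset.mem_union_right _ (Finset.mem_union_right _ h)))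
  have hone : ∀ (u : ℕ → V), (∀ i ∈ J, ∀ j ∈ J, i ≠ j → u i ≠ u j) → ∀ v : V,
      (J.filter (fun j => u j = v)).card ≤ 1 := by
    intro u hu v
    rw [Finset.card_le_one]
    intro x hx y hy
    rw [Finset.mem_filter] at hx hy
    by_contra hne
    exact hu x hx.1 y hy.1 hne (hx.2.trans hy.2.symm)
  obtain ⟨J', hJ', hcard, hpair⟩ := uc_greedy
    (fun i j => a i = b j ∨ b i = a j ∨ c i = d j ∨ d i = c j)
    (by
      rintro i j (h | h | h | h)
      · exact Or.inr (Or.inl h.symm)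
      · exact Or.inl h.symm
      · exact Or.inr (Or.inr (Or.inr h.symm))
      · exact Or.inr (Or.inr (Or.inl h.symm)))
    J.card J le_rfl (by
      intro i _
      refine ⟨(J.filter (fun j => b j = a i) ∪ J.filter (fun j => a j = b i)) ∪
        (J.filter (fun j => d j = c i) ∪ J.filter (fun j => c j = d i)), ?_, ?_⟩
      · have h1 := hone b ib (a i)
        have h2 := hone a ia (b i)
        have h3 := hone d id' (c i)
        have h4 := hone c ic (d i)
        refine (Finset.card_union_le _ _).trans ?_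
        have h5 := Finset.card_union_le (J.filter (fun j => b j = a i)) (J.filter (fun j => a j = b i))
        have h6 := Finset.card_union_le (J.filter (fun j => d j = c i)) (J.filter (fun j => c j = d i))
        omega
      · intro j hj _ hR
        rcases hR with h | h | h | h
        · exact Finset.mem_union_left _ (Finset.mem_union_left _ (Finset.mem_filter.2 ⟨hj, h.symm⟩))
        · exact Finset.mem_union_left _ (Finset.mem_union_right _ (Finset.mem_filter.2 ⟨hj, h.symm⟩))
        · exact Finset.mem_union_right _ (Finset.mem_union_left _ (Finset.mem_filter.2 ⟨hj, h.symm⟩))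
        · exact Finset.mem_union_right _ (Finset.mem_union_right _ (Finset.mem_filter.2 ⟨hj, h.symm⟩)))
  refine ⟨J', by omega, ?_, ?_, ?_⟩
  · intro i hi
    have := Finset.mem_range.1 (Finset.mem_sdiff.1 (hJ' hi)).1
    omega
  · intro i hi j hj hij
    have h1 := hpair i hi j hj hij
    refine ⟨ia i (hJ' hi) j (hJ' hj) hij, fun h => h1 (Or.inl h), ib i (hJ' hi) j (hJ' hj) hij⟩
  · intro i hi j hj hij
    have h1 := hpair i hi j hj hij
    refine ⟨ic i (hJ' hi) j (hJ' hj) hij, fun h => h1 (Or.inr (Or.inr (Or.inl h))),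
      id' i (hJ' hi) j (hJ' hj) hij⟩

/-- the words that are bad for one walk -/
def uc_Bd [NeZero k] [DecidableEq V] (T : V → Fin k → V) (p : V) (H s : ℕ) :
    Set (Fin H → Fin k) :=
  {z | ((Finset.range H).image (cell T p (ext z))).card
          ≤ ((Finset.range (H+1)).image (traj T p (ext z))).card + 1 ∧
        ((Finset.range (H+1)).image (traj T p (ext z))).card + (2*(2*s)+3) ≤ H+1}

theorem uc_Bd_card [NeZero k] [DecidableEq V] (T : V → Fin k → V) (p : V) (hk : 2 ≤ k)
    (hs : ∀ s, ∃ a, T s a ≠ s) (H s : ℕ) :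
    ((uc_Bd T p H s).ncard : ℝ) ≤ H * (1 - 1 / (k : ℝ) ^ 2) ^ s * (k : ℝ) ^ H := by
  have h := few_visits_count T p hk hs H (2 * s)
  rw [Nat.mul_div_cancel_left s (by norm_num : 0 < 2)] at h
  have h2 : (((uc_Bd T p H s).ncard * (k ^ 2) ^ s : ℕ) : ℝ) ≤
      ((H * (k ^ 2 - 1) ^ s * k ^ H : ℕ) : ℝ) := by exact_mod_cast h
  have hk1 : 1 ≤ k ^ 2 := Nat.one_le_pow _ _ (by omega)
  push_cast [Nat.cast_sub hk1] at h2
  have hkpos : (0 : ℝ) < (k : ℝ) ^ 2 := by
    have : (0 : ℝ) < k := by exact_mod_cast (by omega : 0 < k)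
    positivity
  have h3 : (1 - 1 / (k : ℝ) ^ 2) ^ s = ((k : ℝ) ^ 2 - 1) ^ s / ((k : ℝ) ^ 2) ^ s := by
    rw [← div_pow]
    congr 1
    field_simp
  rw [h3]
  rw [show (H : ℝ) * (((k : ℝ) ^ 2 - 1) ^ s / ((k : ℝ) ^ 2) ^ s) * (k : ℝ) ^ H =
    (H * ((k : ℝ) ^ 2 - 1) ^ s * (k : ℝ) ^ H) / ((k : ℝ) ^ 2) ^ s by ring]
  rw [le_div_iff₀ (by positivity)]
  exact h2

theorem unmerged_count [NeZero k] [Fintype V] [DecidableEq V] (o : V) (hk : 2 ≤ k)
    (T T' : V → Fin k → V) (hT : ∀ s, ∃ a, T s a ≠ s) (hT' : ∀ s, ∃ a, T' s a ≠ s) (l s : ℕ)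
    (w w' : Fin l → Fin k) :
    (Set.ncard {q : (Fin (16*(2*s+2)) → Fin k) × (V → Bool) × (V → Bool) |
        (X2 T o (cat w q.1) (cat w' q.1) (l + 16*(2*s+2))).card
          ≤ (Y2 T o (cat w q.1) (cat w' q.1) (l + 16*(2*s+2))).card + 1 ∧
        (X2 T' o (cat w q.1) (cat w' q.1) (l + 16*(2*s+2))).card
          ≤ (Y2 T' o (cat w q.1) (cat w' q.1) (l + 16*(2*s+2))).card + 1 ∧
        (∀ i, i ≤ 16*(2*s+2) →
          traj T o (cat w q.1) (l+i) ≠ traj T o (cat w' q.1) (l+i)) ∧
        Fail o (T, q.2.1) (T', q.2.2) w w' q.1} : ℝ)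
      ≤ (k:ℝ)^(16*(2*s+2)) * 4^(Fintype.card V) *
        (4*(16*(2*(s:ℝ)+2))*(1 - 1/(k:ℝ)^2)^s + (3/4:ℝ)^s) := by
  classical
  obtain ⟨H, hH⟩ : ∃ H, H = 16 * (2 * s + 2) := ⟨_, rfl⟩
  rw [← hH]
  have hHr : (16 * (2 * (s : ℝ) + 2)) = (H : ℝ) := by rw [hH]; push_cast; ring
  rw [hHr]
  set n := Fintype.card V with hn
  set ZZ := Fin H → Fin k
  -- the four bad sets
  set B1 := uc_Bd T (uc_p T o w H) H s with hB1
  set B2 := uc_Bd T (uc_p T o w' H) H s with hB2
  set B3 := uc_Bd T' (uc_p T' o w H) H s with hB3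
  set B4 := uc_Bd T' (uc_p T' o w' H) H s with hB4
  set Bad : Set ZZ := (B1 ∪ B2) ∪ (B3 ∪ B4) with hBad
  set S : Set (ZZ × (V → Bool) × (V → Bool)) := {q |
        (X2 T o (cat w q.1) (cat w' q.1) (l + H)).card
          ≤ (Y2 T o (cat w q.1) (cat w' q.1) (l + H)).card + 1 ∧
        (X2 T' o (cat w q.1) (cat w' q.1) (l + H)).card
          ≤ (Y2 T' o (cat w q.1) (cat w' q.1) (l + H)).card + 1 ∧
        (∀ i, i ≤ H →
          traj T o (cat w q.1) (l+i) ≠ traj T o (cat w' q.1) (l+i)) ∧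
        Fail o (T, q.2.1) (T', q.2.2) w w' q.1} with hS
  have hsub : S ⊆ (Bad ×ˢ (Set.univ : Set ((V → Bool) × (V → Bool)))) ∪ {q | q ∈ S ∧ q.1 ∉ Bad} := by
    intro q hq
    by_cases hb : q.1 ∈ Bad
    · exact Or.inl ⟨hb, Set.mem_univ _⟩
    · exact Or.inr ⟨hq, hb⟩
  have hcard1 : (S.ncard : ℝ) ≤ ((Bad ×ˢ (Set.univ : Set ((V → Bool) × (V → Bool)))).ncard : ℝ) +
      ({q | q ∈ S ∧ q.1 ∉ Bad}.ncard : ℝ) := by
    have h1 := (Set.ncard_le_ncard hsub (Set.toFinite _)).trans (Set.ncard_union_le _ _)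
    exact_mod_cast h1
  have hBB : Nat.card ((V → Bool) × (V → Bool)) = 4 ^ n := by
    rw [Nat.card_prod, Nat.card_fun, Nat.card_eq_fintype_card, Nat.card_eq_fintype_card,
      Fintype.card_bool, ← hn, ← mul_pow]
    norm_num
  have hBadcard : ((Bad ×ˢ (Set.univ : Set ((V → Bool) × (V → Bool)))).ncard : ℝ) ≤
      4 * ((H : ℝ) * (1 - 1 / (k : ℝ) ^ 2) ^ s * (k : ℝ) ^ H) * 4 ^ n := by
    rw [Set.ncard_prod, Set.ncard_univ, hBB]
    push_cast
    apply mul_le_mul_of_nonneg_right _ (by positivity)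
    have h1 : Bad.ncard ≤ (B1.ncard + B2.ncard) + (B3.ncard + B4.ncard) :=
      (Set.ncard_union_le _ _).trans (add_le_add (Set.ncard_union_le _ _) (Set.ncard_union_le _ _))
    have h2 : (Bad.ncard : ℝ) ≤ ((B1.ncard : ℝ) + B2.ncard) + ((B3.ncard : ℝ) + B4.ncard) := by
      exact_mod_cast h1
    have e1 := uc_Bd_card T (uc_p T o w H) hk hT H s
    have e2 := uc_Bd_card T (uc_p T o w' H) hk hT H s
    have e3 := uc_Bd_card T' (uc_p T' o w H) hk hT' H s
    have e4 := uc_Bd_card T' (uc_p T' o w' H) hk hT' H s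
    rw [← hB1] at e1
    rw [← hB2] at e2
    rw [← hB3] at e3
    rw [← hB4] at e4
    linarith
  -- the fibres
  have hfib : ∀ z : ZZ, (({x : (V → Bool) × (V → Bool) | (z, x) ∈ S ∧ z ∉ Bad}.ncard : ℕ) : ℝ) ≤
      (3 / 4 : ℝ) ^ s * 4 ^ n := by
    intro z
    by_cases hne : {x : (V → Bool) × (V → Bool) | (z, x) ∈ S ∧ z ∉ Bad}.Nonempty
    swap
    · rw [Set.not_nonempty_iff_eq_empty] at hne
      rw [hne, Set.ncard_empty]
      simp only [Nat.cast_zero]
      positivity
    obtain ⟨x0, ⟨hx1, hx2, hx3, -⟩, hzB⟩ := hne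
    simp only at hx1 hx2 hx3
    have t1 := tail_excess T o (cat w z) (cat w' z) l (l + H) 1 (by omega) hx1
    have t2 := tail_excess T' o (cat w z) (cat w' z) l (l + H) 1 (by omega) hx2
    rw [uc_img1, uc_img1, uc_img2, uc_img2] at t1 t2
    have hz1 : z ∉ B1 := fun h => hzB (Or.inl (Or.inl h))
    have hz2 : z ∉ B2 := fun h => hzB (Or.inl (Or.inr h))
    have hz3 : z ∉ B3 := fun h => hzB (Or.inr (Or.inl h))
    have hz4 : z ∉ B4 := fun h => hzB (Or.inr (Or.inr h))
    have g1 : H + 1 < ((Finset.range (H+1)).image (traj T (uc_p T o w H) (ext z))).card + (4*s+3) := by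
      by_contra hcon
      exact hz1 ⟨t1.1, by omega⟩
    have g2 : H + 1 < ((Finset.range (H+1)).image (traj T (uc_p T o w' H) (ext z))).card + (4*s+3) := by
      by_contra hcon
      exact hz2 ⟨t1.2, by omega⟩
    have g3 : H + 1 < ((Finset.range (H+1)).image (traj T' (uc_p T' o w H) (ext z))).card + (4*s+3) := by
      by_contra hcon
      exact hz3 ⟨t2.1, by omega⟩
    have g4 : H + 1 < ((Finset.range (H+1)).image (traj T' (uc_p T' o w' H) (ext z))).card + (4*s+3) := by
      by_contra hcon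
      exact hz4 ⟨t2.2, by omega⟩
    obtain ⟨J, hJs, hJH, hJ1, hJ2⟩ := uc_J _ _ _ _ H s hH g1 g2 g3 g4
    have hfc := fail_count V J (traj T (uc_p T o w H) (ext z)) (traj T (uc_p T o w' H) (ext z))
      (traj T' (uc_p T' o w H) (ext z)) (traj T' (uc_p T' o w' H) (ext z)) hJ1 hJ2 (by
        intro i hi
        left
        have := hx3 i (hJH i hi)
        rw [uc_shift, uc_shift] at this
        exact this)
    set N := Set.ncard {x : (V → Bool) × (V → Bool) |
        ∀ i ∈ J, (x.1 (traj T (uc_p T o w H) (ext z) i) && x.2 (traj T' (uc_p T' o w H) (ext z) i)) =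
          (x.1 (traj T (uc_p T o w' H) (ext z) i) && x.2 (traj T' (uc_p T' o w' H) (ext z) i))} with hN
    have hle : {x : (V → Bool) × (V → Bool) | (z, x) ∈ S ∧ z ∉ Bad}.ncard ≤ N := by
      apply Set.ncard_le_ncard _ (Set.toFinite _)
      rintro x ⟨⟨-, -, -, hF⟩, -⟩ i hi
      have := hF i (hJH i hi)
      simp only at this
      rw [uc_shift, uc_shift, uc_shift, uc_shift] at this
      exact this
    have hfc' : (4 : ℝ) ^ J.card * N ≤ 3 ^ J.card * 4 ^ n := by exact_mod_cast hfc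
    have hN2 : (N : ℝ) ≤ (3 / 4 : ℝ) ^ J.card * 4 ^ n := by
      rw [div_pow, div_mul_eq_mul_div, le_div_iff₀ (by positivity)]
      linarith
    have h5 : (3 / 4 : ℝ) ^ J.card ≤ (3 / 4 : ℝ) ^ s :=
      pow_le_pow_of_le_one (by norm_num) (by norm_num) hJs
    calc (({x : (V → Bool) × (V → Bool) | (z, x) ∈ S ∧ z ∉ Bad}.ncard : ℕ) : ℝ) ≤ (N : ℝ) := by
          exact_mod_cast hle
      _ ≤ (3 / 4 : ℝ) ^ J.card * 4 ^ n := hN2
      _ ≤ (3 / 4 : ℝ) ^ s * 4 ^ n := mul_le_mul_of_nonneg_right h5 (by positivity)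
  have hsum : {q | q ∈ S ∧ q.1 ∉ Bad}.ncard =
      ∑ z : ZZ, {x : (V → Bool) × (V → Bool) | (z, x) ∈ S ∧ z ∉ Bad}.ncard := by
    rw [Set.ncard_eq_toFinset_card', Finset.card_eq_sum_card_fiberwise (f := Prod.fst)
      (t := (Finset.univ : Finset ZZ)) (fun _ _ => Finset.mem_univ _)]
    apply Finset.sum_congr rfl
    intro z _
    rw [Set.ncard_eq_toFinset_card']
    apply Finset.card_bij (fun q _ => q.2)
    · intro q hq
      rw [Finset.mem_filter, Set.mem_toFinset] at hq
      rw [Set.mem_toFinset]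
      obtain ⟨hq1, rfl⟩ := hq
      exact hq1
    · intro q hq q' hq' h
      rw [Finset.mem_filter] at hq hq'
      exact Prod.ext (hq.2.trans hq'.2.symm) h
    · intro x hx
      rw [Set.mem_toFinset] at hx
      refine ⟨(z, x), ?_, rfl⟩
      rw [Finset.mem_filter, Set.mem_toFinset]
      exact ⟨hx, rfl⟩
  have hsecond : ({q | q ∈ S ∧ q.1 ∉ Bad}.ncard : ℝ) ≤ (k : ℝ) ^ H * ((3 / 4 : ℝ) ^ s * 4 ^ n) := by
    rw [hsum]
    push_cast
    refine (Finset.sum_le_sum (fun z _ => hfib z)).trans ?_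
    rw [Finset.sum_const, Finset.card_univ, nsmul_eq_mul, Fintype.card_fun, Fintype.card_fin,
      Fintype.card_fin]
    push_cast
    exact le_rfl
  calc (S.ncard : ℝ) ≤ 4 * ((H : ℝ) * (1 - 1 / (k : ℝ) ^ 2) ^ s * (k : ℝ) ^ H) * 4 ^ n +
        (k : ℝ) ^ H * ((3 / 4 : ℝ) ^ s * 4 ^ n) := hcard1.trans (add_le_add hBadcard hsecond)
    _ = (k : ℝ) ^ H * 4 ^ n * (4 * (H : ℝ) * (1 - 1 / (k : ℝ) ^ 2) ^ s + (3 / 4 : ℝ) ^ s) := by ring

end SI
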