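import Pool.Agent.Helper513.SI.F
import Pool.Agent.Helper513.SI.C
import Pool.Agent.Helper513.SI.E

set_option autoImplicit false

namespace SI
open RA
variable {V : Type} {k : ℕ}







theorem ncard_le_sum2 {α : Type} [Finite α] (P : Set α) (L : ℕ) (Q : ℕ → ℕ → Set α)
    (h : ∀ p ∈ P, ∃ t, t < L ∧ ∃ t', t' < L ∧ p ∈ Q t t') :
    P.ncard ≤ ∑ t ∈ Finset.range L, ∑ t' ∈ Finset.range L, (Q t t').ncard := by
  classical
  cases nonempty_fintype α
  have h1 : P.toFinset ⊆ (Finset.range L).biUnion fun t => (Finset.range L).biUnion fun t' =>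
      (Q t t').toFinset := by
    intro p hp
    rw [Set.mem_toFinset] at hp
    obtain ⟨t, ht, t', ht', hpq⟩ := h p hp
    simp only [Finset.mem_biUnion, Finset.mem_range, Set.mem_toFinset]
    exact ⟨t, ht, t', ht', hpq⟩
  rw [Set.ncard_eq_toFinset_card']
  refine (Finset.card_le_card h1).trans (Finset.card_biUnion_le.trans ?_)
  refine Finset.sum_le_sum fun t _ => ?_
  refine Finset.card_biUnion_le.trans ?_
  refine Finset.sum_le_sum fun t' _ => ?_
  rw [Set.ncard_eq_toFinset_card']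

theorem count_fib {A B : Type} [Finite A] [Finite B] (S S' : Set A) (R : (A × B) × (A × B) → Prop)
    (c : ℝ) (hc : ∀ T ∈ S, ∀ T' ∈ S', (Set.ncard {x : B × B | R ((T, x.1), (T', x.2))} : ℝ) ≤ c) :
    (Set.ncard {p : (A × B) × (A × B) | p.1.1 ∈ S ∧ p.2.1 ∈ S' ∧ R p} : ℝ) ≤
      (S.ncard : ℝ) * (S'.ncard : ℝ) * c := by
  classical
  cases nonempty_fintype A
  cases nonempty_fintype B
  rw [Set.ncard_eq_toFinset_card', Set.ncard_eq_toFinset_card' S, Set.ncard_eq_toFinset_card' S']
  have hmaps : ∀ p ∈ ({p : (A × B) × (A × B) | p.1.1 ∈ S ∧ p.2.1 ∈ S' ∧ R p} :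
      Set ((A × B) × (A × B))).toFinset, (fun p : (A × B) × (A × B) => (p.1.1, p.2.1)) p ∈
      S.toFinset ×ˢ S'.toFinset := by
    intro p hp
    rw [Set.mem_toFinset] at hp
    simp only [Finset.mem_product, Set.mem_toFinset]
    exact ⟨hp.1, hp.2.1⟩
  rw [Finset.card_eq_sum_card_fiberwise hmaps]
  push_cast
  have hb : ∀ b ∈ S.toFinset ×ˢ S'.toFinset,
      ((({p : (A × B) × (A × B) | p.1.1 ∈ S ∧ p.2.1 ∈ S' ∧ R p} :
        Set ((A × B) × (A × B))).toFinset.filter
          (fun p => (p.1.1, p.2.1) = b)).card : ℝ) ≤ c := by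
    rintro ⟨T, T'⟩ hb
    simp only [Finset.mem_product, Set.mem_toFinset] at hb
    refine le_trans ?_ (hc T hb.1 T' hb.2)
    rw [Set.ncard_eq_toFinset_card']
    norm_cast
    refine Finset.card_le_card_of_injOn (fun p => (p.1.2, p.2.2)) ?_ ?_
    · rintro ⟨⟨a, b⟩, ⟨a', b'⟩⟩ hp
      simp only [Finset.coe_filter, Set.mem_toFinset, Set.mem_setOf_eq, Prod.mk.injEq] at hp
      obtain ⟨⟨_, _, hR⟩, rfl, rfl⟩ := hp
      simp only [Finset.mem_coe, Set.mem_toFinset, Set.mem_setOf_eq]
      exact hR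
    · rintro ⟨⟨a, b⟩, ⟨a', b'⟩⟩ hp ⟨⟨a1, b1⟩, ⟨a1', b1'⟩⟩ hp1 he
      simp only [Finset.coe_filter, Set.mem_toFinset, Set.mem_setOf_eq, Prod.mk.injEq] at hp hp1 he
      obtain ⟨_, rfl, rfl⟩ := hp
      obtain ⟨_, rfl, rfl⟩ := hp1
      obtain ⟨rfl, rfl⟩ := he
      rfl
  refine (Finset.sum_le_sum hb).trans ?_
  rw [Finset.sum_const, Finset.card_product, nsmul_eq_mul]
  push_cast
  exact le_refl _

/-- the conclusion of `merge_structure` -/
def MS [NeZero k] [DecidableEq V] (o : V) (l H : ℕ) (W1 W2 : ℕ → Fin k) (T : V → Fin k → V)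
    (t : ℕ) : Prop :=
  t < l + H ∧ traj T o W1 (t+1) = traj T o W2 (t+1) ∧
      (∀ j, j ≤ t → cell T o W1 j ≠ cell T o W2 t) ∧
      (∀ j, j < t → cell T o W2 j ≠ cell T o W2 t) ∧
      (∀ j, t < j → j < l → W1 j = W2 j) ∧
      (∀ j, l ≤ j → j ≤ t → traj T o W1 j ≠ traj T o W2 j) ∧
      (∀ i j, i ≤ l + H → j ≤ l + H → traj T o W1 i = traj T o W1 j → i = j) ∧
      (∀ i j, i ≤ l + H → j ≤ l + H → traj T o W1 i = traj T o W2 j → i = j) ∧
      (∀ i j, i ≤ l + H → j ≤ l + H → traj T o W2 i = traj T o W2 j → i = j)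

theorem cat_lt [NeZero k] {l H : ℕ} (w : Fin l → Fin k) (z : Fin H → Fin k) {t : ℕ} (h : t < l) :
    cat w z t = w ⟨t, h⟩ := by
  unfold cat
  rw [dif_pos h]

theorem cat_ge [NeZero k] {l H : ℕ} (w : Fin l → Fin k) (z : Fin H → Fin k) {t : ℕ} (h : l ≤ t) :
    cat w z t = ext z (t - l) := by
  unfold cat
  rw [dif_neg (by omega)]

open Classical in
theorem merged_count [NeZero k] [Fintype V] [DecidableEq V] (o : V) (l H : ℕ)
    (w w' : Fin l → Fin k) (hne : w ≠ w') (z : Fin H → Fin k) :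
    (Set.ncard {p : ((V → Fin k → V) × (V → Bool)) × ((V → Fin k → V) × (V → Bool)) |
        Acc p.1.1 o ∧ Acc p.2.1 o ∧
        (X2 p.1.1 o (cat w z) (cat w' z) (l+H)).card + (X2 p.2.1 o (cat w z) (cat w' z) (l+H)).card
          ≤ (Y2 p.1.1 o (cat w z) (cat w' z) (l+H)).card
            + (Y2 p.2.1 o (cat w z) (cat w' z) (l+H)).card ∧
        (∃ i, i ≤ H ∧ traj p.1.1 o (cat w z) (l+i) = traj p.1.1 o (cat w' z) (l+i)) ∧
        (∃ i, i ≤ H ∧ traj p.2.1 o (cat w z) (l+i) = traj p.2.1 o (cat w' z) (l+i)) ∧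
        Fail o p.1 p.2 w w' z} : ℝ) * (Fintype.card V : ℝ)^2
      ≤ (∑ t ∈ Finset.range (l + H), ∑ t' ∈ Finset.range (l + H),
          (if Ag w w' t ∧ Ag w w' t' then ((3:ℝ)/4)^(max t t' + 1 - l) else 0))
        * (Set.ncard {T : V → Fin k → V | Acc T o} : ℝ)^2 * 4^(Fintype.card V) := by
  set n : ℕ := Fintype.card V with hn
  set A : ℕ := Set.ncard {T : V → Fin k → V | Acc T o} with hA
  have hdiff : ∃ j, j < l ∧ cat w z j ≠ cat w' z j := by
    by_contra hcon
    push Not at hcon
    apply hne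
    funext j
    have := hcon j j.2
    rw [cat_lt w z j.2, cat_lt w' z j.2] at this
    exact this
  have hagree : ∀ j, l ≤ j → j < l + H → cat w z j = cat w' z j := by
    intro j hj _
    rw [cat_ge w z hj, cat_ge w' z hj]
  let S : ℕ → Set (V → Fin k → V) := fun t => {T | Acc T o ∧ MS o l H (cat w z) (cat w' z) T t}
  have hS : ∀ t, ((S t).ncard : ℝ) * n ≤ A := by
    intro t
    have h1 := merge_count (V := V) o (cat w z) (cat w' z) t
    have h2 : (S t).ncard ≤ Set.ncard {T : V → Fin k → V | Acc T o ∧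
        traj T o (cat w z) (t+1) = traj T o (cat w' z) (t+1) ∧
        (∀ j, j ≤ t → cell T o (cat w z) j ≠ cell T o (cat w' z) t) ∧
        (∀ j, j < t → cell T o (cat w' z) j ≠ cell T o (cat w' z) t)} := by
      apply Set.ncard_le_ncard _ (Set.toFinite _)
      rintro T ⟨hT, hms⟩
      exact ⟨hT, hms.2.1, hms.2.2.1, hms.2.2.2.1⟩
    have h3 := (Nat.mul_le_mul_right (Fintype.card V) h2).trans h1
    exact_mod_cast h3
  let Q : ℕ → ℕ → Set (((V → Fin k → V) × (V → Bool)) × ((V → Fin k → V) × (V → Bool))) :=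
    fun t t' => {p | (Ag w w' t ∧ Ag w w' t') ∧ (p.1.1 ∈ S t ∧ p.2.1 ∈ S t' ∧
      Fail o p.1 p.2 w w' z)}
  have hAg : ∀ T t, MS o l H (cat w z) (cat w' z) T t → Ag w w' t := by
    intro T t hms j hj
    have := hms.2.2.2.2.1 j hj j.2
    rw [cat_lt w z j.2, cat_lt w' z j.2] at this
    exact this
  -- covering
  have hcov := ncard_le_sum2 {p : ((V → Fin k → V) × (V → Bool)) × ((V → Fin k → V) × (V → Bool)) |
        Acc p.1.1 o ∧ Acc p.2.1 o ∧
        (X2 p.1.1 o (cat w z) (cat w' z) (l+H)).card + (X2 p.2.1 o (cat w z) (cat w' z) (l+H)).card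
          ≤ (Y2 p.1.1 o (cat w z) (cat w' z) (l+H)).card
            + (Y2 p.2.1 o (cat w z) (cat w' z) (l+H)).card ∧
        (∃ i, i ≤ H ∧ traj p.1.1 o (cat w z) (l+i) = traj p.1.1 o (cat w' z) (l+i)) ∧
        (∃ i, i ≤ H ∧ traj p.2.1 o (cat w z) (l+i) = traj p.2.1 o (cat w' z) (l+i)) ∧
        Fail o p.1 p.2 w w' z} (l + H) Q (by
    rintro p ⟨hp1, hp2, hsum, ⟨i, hi, hm⟩, ⟨i', hi', hm'⟩, hfail⟩
    have e1 := merged_excess p.1.1 o (cat w z) (cat w' z) l (l+H) hdiff (l+i) (by omega) (by omega) hm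
    have e2 := merged_excess p.2.1 o (cat w z) (cat w' z) l (l+H) hdiff (l+i') (by omega)
      (by omega) hm'
    obtain ⟨t, ht⟩ := merge_structure p.1.1 o (cat w z) (cat w' z) l (l+H) (by omega) (by omega)
      hagree hdiff (l+i) (by omega) (by omega) hm
    obtain ⟨t', ht'⟩ := merge_structure p.2.1 o (cat w z) (cat w' z) l (l+H) (by omega) (by omega)
      hagree hdiff (l+i') (by omega) (by omega) hm'
    have hms : MS o l H (cat w z) (cat w' z) p.1.1 t := ht
    have hms' : MS o l H (cat w z) (cat w' z) p.2.1 t' := ht'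
    exact ⟨t, ht.1, t', ht'.1, ⟨hAg _ _ hms, hAg _ _ hms'⟩, ⟨hp1, hms⟩, ⟨hp2, hms'⟩, hfail⟩)
  -- the bound for one pair
  have hfib : ∀ t t', ((Q t t').ncard : ℝ) * (n:ℝ)^2 ≤
      (if Ag w w' t ∧ Ag w w' t' then ((3:ℝ)/4)^(max t t' + 1 - l) else 0) * (A:ℝ)^2 * 4^n := by
    intro t t'
    by_cases hag : Ag w w' t ∧ Ag w w' t'
    · rw [if_pos hag]
      have h1 : (Q t t').ncard = Set.ncard {p : ((V → Fin k → V) × (V → Bool)) ×
          ((V → Fin k → V) × (V → Bool)) | p.1.1 ∈ S t ∧ p.2.1 ∈ S t' ∧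
          Fail o p.1 p.2 w w' z} := by
        congr 1
        ext p
        exact ⟨fun h => h.2, fun h => ⟨hag, h⟩⟩
      have h2 := count_fib (S t) (S t') (fun p => Fail o p.1 p.2 w w' z)
        (((3:ℝ)/4)^(max t t' + 1 - l) * 4^n) (by
        rintro T ⟨hT, hms⟩ T' ⟨hT', hms'⟩
        have h3 := fail_count V (Finset.range (max t t' + 1 - l))
          (fun i => traj T o (cat w z) (l+i)) (fun i => traj T o (cat w' z) (l+i))
          (fun i => traj T' o (cat w z) (l+i)) (fun i => traj T' o (cat w' z) (l+i))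
          (by
            intro i hi j hj hij
            rw [Finset.mem_range] at hi hj
            have hlt := hms.1
            have hlt' := hms'.1
            have hmax : max t t' < l + H := max_lt hlt hlt'
            refine ⟨fun h => hij ?_, fun h => hij ?_, fun h => hij ?_⟩
            · have := hms.2.2.2.2.2.2.1 (l+i) (l+j) (by omega) (by omega) h
              omega
            · have := hms.2.2.2.2.2.2.2.1 (l+i) (l+j) (by omega) (by omega) h
              omega
            · have := hms.2.2.2.2.2.2.2.2 (l+i) (l+j) (by omega) (by omega) h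
              omega)
          (by
            intro i hi j hj hij
            rw [Finset.mem_range] at hi hj
            have hlt := hms.1
            have hlt' := hms'.1
            have hmax : max t t' < l + H := max_lt hlt hlt'
            refine ⟨fun h => hij ?_, fun h => hij ?_, fun h => hij ?_⟩
            · have := hms'.2.2.2.2.2.2.1 (l+i) (l+j) (by omega) (by omega) h
              omega
            · have := hms'.2.2.2.2.2.2.2.1 (l+i) (l+j) (by omega) (by omega) h
              omega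
            · have := hms'.2.2.2.2.2.2.2.2 (l+i) (l+j) (by omega) (by omega) h
              omega)
          (by
            intro i hi
            rw [Finset.mem_range] at hi
            have h4 : l + i ≤ max t t' := by omega
            rcases le_max_iff.1 h4 with h4 | h4
            · exact Or.inl (hms.2.2.2.2.2.1 (l+i) (by omega) h4)
            · exact Or.inr (hms'.2.2.2.2.2.1 (l+i) (by omega) h4))
        have h4 : Set.ncard {x : (V → Bool) × (V → Bool) | Fail o (T, x.1) (T', x.2) w w' z} ≤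
            Set.ncard {x : (V → Bool) × (V → Bool) |
              ∀ i ∈ Finset.range (max t t' + 1 - l),
                (x.1 (traj T o (cat w z) (l+i)) && x.2 (traj T' o (cat w z) (l+i))) =
                (x.1 (traj T o (cat w' z) (l+i)) && x.2 (traj T' o (cat w' z) (l+i)))} := by
          apply Set.ncard_le_ncard _ (Set.toFinite _)
          intro x hx i hi
          rw [Finset.mem_range] at hi
          have hmax : max t t' < l + H := max_lt hms.1 hms'.1
          exact hx i (by omega)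
        rw [Finset.card_range] at h3
        have h5 : ((4:ℝ)^(max t t' + 1 - l)) * (Set.ncard {x : (V → Bool) × (V → Bool) |
            Fail o (T, x.1) (T', x.2) w w' z} : ℝ) ≤ 3^(max t t' + 1 - l) * 4^n := by
          have h6 := (Nat.mul_le_mul_left (4^(max t t' + 1 - l)) h4).trans h3
          exact_mod_cast h6
        have h7 : (0:ℝ) < 4^(max t t' + 1 - l) := by positivity
        rw [div_pow, div_mul_eq_mul_div, le_div_iff₀ h7]
        linarith)
      rw [h1]
      calc (Set.ncard {p : ((V → Fin k → V) × (V → Bool)) ×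
          ((V → Fin k → V) × (V → Bool)) | p.1.1 ∈ S t ∧ p.2.1 ∈ S t' ∧
          Fail o p.1 p.2 w w' z} : ℝ) * (n:ℝ)^2
          ≤ ((S t).ncard : ℝ) * ((S t').ncard : ℝ) * (((3:ℝ)/4)^(max t t' + 1 - l) * 4^n) *
            (n:ℝ)^2 := mul_le_mul_of_nonneg_right h2 (by positivity)
        _ = (((S t).ncard : ℝ) * n) * (((S t').ncard : ℝ) * n) *
            (((3:ℝ)/4)^(max t t' + 1 - l) * 4^n) := by ring
        _ ≤ (A:ℝ) * A * (((3:ℝ)/4)^(max t t' + 1 - l) * 4^n) := by
            apply mul_le_mul_of_nonneg_right _ (by positivity)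
            exact mul_le_mul (hS t) (hS t') (by positivity) (by positivity)
        _ = _ := by ring
    · rw [if_neg hag]
      have h1 : Q t t' = ∅ := by
        ext p
        simp only [Set.mem_empty_iff_false, iff_false]
        exact fun h => hag h.1
      rw [h1]
      simp
  calc _ ≤ ((∑ t ∈ Finset.range (l + H), ∑ t' ∈ Finset.range (l + H), (Q t t').ncard : ℕ) : ℝ) *
        (n:ℝ)^2 := by
        apply mul_le_mul_of_nonneg_right _ (by positivity)
        exact_mod_cast hcov
    _ = ∑ t ∈ Finset.range (l + H), ∑ t' ∈ Finset.range (l + H), ((Q t t').ncard : ℝ) *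
        (n:ℝ)^2 := by
        push_cast
        rw [Finset.sum_mul]
        refine Finset.sum_congr rfl fun t _ => ?_
        rw [Finset.sum_mul]
    _ ≤ ∑ t ∈ Finset.range (l + H), ∑ t' ∈ Finset.range (l + H),
        (if Ag w w' t ∧ Ag w w' t' then ((3:ℝ)/4)^(max t t' + 1 - l) else 0) * (A:ℝ)^2 * 4^n :=
        Finset.sum_le_sum fun t _ => Finset.sum_le_sum fun t' _ => hfib t t'
    _ = _ := by
        rw [Finset.sum_mul, Finset.sum_mul]
        refine Finset.sum_congr rfl fun t _ => ?_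
        rw [Finset.sum_mul, Finset.sum_mul]

end SI
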