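import Pool.Agent.Helper513.SI.M1
import Pool.Agent.Helper513.SI.M2
import Pool.Agent.Helper513.SI.M3
import Pool.Agent.Helper513.SI.K

set_option autoImplicit false

namespace SI
open RA
variable {V : Type} {k : ℕ}








/-- accessible and without a sink state -/
def Good (T : V → Fin k → V) (o : V) : Prop := Acc T o ∧ ∀ s, ∃ a, T s a ≠ s

theorem mi_ncard {β : Type} [Fintype β] (R : β → Prop) [DecidablePred R] :
    Set.ncard {b : β | R b} = ∑ b, if R b then 1 else 0 := by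
  have h : {b : β | R b} = ↑(Finset.univ.filter R) := by
    ext b
    simp
  rw [h, Set.ncard_coe_finset, Finset.card_filter]

theorem mi_equiv {α γ : Type} (e : γ ≃ α) (P : γ → Prop) :
    Set.ncard {c : γ | P c} = Set.ncard {p : α | P (e.symm p)} := by
  have h : {p : α | P (e.symm p)} = e '' {c | P c} := by
    ext p
    constructor
    · intro hp
      exact ⟨e.symm p, hp, e.apply_symm_apply p⟩
    · rintro ⟨c, hc, rfl⟩
      show P (e.symm (e c))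
      rw [e.symm_apply_apply]
      exact hc
  rw [h, Set.ncard_image_of_injective _ e.injective]

open Classical in
theorem mi_fib {α β γ : Type} [Fintype α] [Fintype β] (e : γ ≃ α × β) (P : γ → Prop) :
    Set.ncard {c : γ | P c} = ∑ a, Set.ncard {b : β | P (e.symm (a, b))} := by
  rw [mi_equiv e P, mi_ncard, Fintype.sum_prod_type]
  apply Finset.sum_congr rfl
  intro a _
  rw [mi_ncard]

theorem mi_fib_le {α β γ : Type} [Fintype α] [Fintype β] (e : γ ≃ α × β) (P : γ → Prop)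
    (B : α → ℝ) (h : ∀ a, (Set.ncard {b : β | P (e.symm (a, b))} : ℝ) ≤ B a) :
    (Set.ncard {c : γ | P c} : ℝ) ≤ ∑ a, B a := by
  rw [mi_fib e P]
  push_cast
  exact Finset.sum_le_sum fun a _ => h a

open Classical in
theorem mi_fib_set {α β γ : Type} [Fintype α] [Fintype β] (e : γ ≃ α × β) (P : γ → Prop)
    (S : Set α) (B : ℝ) (h : ∀ a ∈ S, (Set.ncard {b : β | P (e.symm (a, b))} : ℝ) ≤ B)
    (h' : ∀ a b, P (e.symm (a, b)) → a ∈ S) :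
    (Set.ncard {c : γ | P c} : ℝ) ≤ S.ncard * B := by
  have h1 := mi_fib_le e P (fun a => if a ∈ S then B else 0) (by
    intro a
    by_cases ha : a ∈ S
    · rw [if_pos ha]
      exact h a ha
    · rw [if_neg ha]
      have h2 : {b : β | P (e.symm (a, b))} = ∅ := by
        ext b
        constructor
        · intro hb
          exact ha (h' a b hb)
        · intro hb
          exact hb.elim
      rw [h2, Set.ncard_empty]
      simp)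
  refine h1.trans (le_of_eq ?_)
  have h3 : S.ncard = ∑ a, if a ∈ S then 1 else 0 := mi_ncard (fun a => a ∈ S)
  rw [h3, ← Finset.sum_filter, Finset.sum_const, nsmul_eq_mul, ← Finset.card_filter]

/-- the type of all the data -/
abbrev mi_Q (V : Type) (k l H : ℕ) : Type :=
  (((V → Fin k → V) × (V → Bool)) × ((V → Fin k → V) × (V → Bool))) ×
    ((Fin l → Fin k) × (Fin l → Fin k)) × (Fin H → Fin k)

theorem mi_b1 [NeZero k] [Fintype V] [DecidableEq V] (o : V) (l H : ℕ) :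
    (Set.ncard {q : mi_Q V k l H | Acc q.1.1.1 o ∧ Acc q.1.2.1 o ∧ q.2.1.1 = q.2.1.2} : ℝ)
      ≤ (Set.ncard {T : V → Fin k → V | Acc T o} : ℝ)^2 * 4^(Fintype.card V)
        * (k:ℝ)^l * (k:ℝ)^H := by
  classical
  have h1 : Set.ncard {q : mi_Q V k l H | Acc q.1.1.1 o ∧ Acc q.1.2.1 o ∧ q.2.1.1 = q.2.1.2}
      ≤ (({T : V → Fin k → V | Acc T o} ×ˢ {T : V → Fin k → V | Acc T o}) ×ˢ
        (Set.univ : Set (((V → Bool) × (V → Bool)) × ((Fin l → Fin k) × (Fin H → Fin k))))).ncard := by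
    apply Set.ncard_le_ncard_of_injOn (fun q => ((q.1.1.1, q.1.2.1),
      ((q.1.1.2, q.1.2.2), (q.2.1.1, q.2.2))))
    · rintro q ⟨h1, h2, -⟩
      exact ⟨⟨h1, h2⟩, Set.mem_univ _⟩
    · rintro ⟨⟨⟨T, F⟩, ⟨T', F'⟩⟩, ⟨w, w'⟩, z⟩ ⟨-, -, hw⟩ ⟨⟨⟨S, G⟩, ⟨S', G'⟩⟩, ⟨v, v'⟩, y⟩ ⟨-, -, hv⟩ heq
      simp only [Prod.mk.injEq] at heq hw hv
      obtain ⟨⟨a1, a2⟩, ⟨a3, a4⟩, a5, a6⟩ := heq
      subst a1 a2 a3 a4 a5 a6 hw hv
      rfl
  have h2 : (({T : V → Fin k → V | Acc T o} ×ˢ {T : V → Fin k → V | Acc T o}) ×ˢ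
        (Set.univ : Set (((V → Bool) × (V → Bool)) × ((Fin l → Fin k) × (Fin H → Fin k))))).ncard
      = (Set.ncard {T : V → Fin k → V | Acc T o})^2 * (4^(Fintype.card V) * (k^l * k^H)) := by
    rw [Set.ncard_prod, Set.ncard_prod, Set.ncard_univ, Nat.card_eq_fintype_card]
    simp only [Fintype.card_prod, Fintype.card_fun, Fintype.card_bool, Fintype.card_fin]
    rw [← mul_pow]
    ring
  rw [h2] at h1
  have h3 : (Set.ncard {q : mi_Q V k l H | Acc q.1.1.1 o ∧ Acc q.1.2.1 o ∧ q.2.1.1 = q.2.1.2} : ℝ)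
      ≤ (((Set.ncard {T : V → Fin k → V | Acc T o})^2 * (4^(Fintype.card V) * (k^l * k^H)) : ℕ) : ℝ) := by
    exact_mod_cast h1
  refine h3.trans (le_of_eq ?_)
  push_cast
  ring

theorem mi_b2 [NeZero k] [Fintype V] [DecidableEq V] (o : V) (l H : ℕ) :
    (Set.ncard {q : mi_Q V k l H | Acc q.1.1.1 o ∧ Acc q.1.2.1 o ∧
        (Y2 q.1.1.1 o (cat q.2.1.1 q.2.2) (cat q.2.1.2 q.2.2) (l+H)).card
          + (Y2 q.1.2.1 o (cat q.2.1.1 q.2.2) (cat q.2.1.2 q.2.2) (l+H)).card + 1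
          ≤ (X2 q.1.1.1 o (cat q.2.1.1 q.2.2) (cat q.2.1.2 q.2.2) (l+H)).card
          + (X2 q.1.2.1 o (cat q.2.1.1 q.2.2) (cat q.2.1.2 q.2.2) (l+H)).card} : ℝ)
      ≤ 4^(Fintype.card V) * ((k:ℝ)^l)^2 * (k:ℝ)^H *
        (4 * ((2*((l:ℝ)+H)+1)*(2*((l:ℝ)+H)+2))^3 *
          (Set.ncard {T : V → Fin k → V | Acc T o} : ℝ)^2 / (Fintype.card V : ℝ)^3) := by
  classical
  have hn : 0 < (Fintype.card V : ℝ) := by
    have : 0 < Fintype.card V := Fintype.card_pos_iff.2 ⟨o⟩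
    exact_mod_cast this
  let e : mi_Q V k l H ≃
      ((((Fin l → Fin k) × (Fin l → Fin k)) × (Fin H → Fin k)) × ((V → Bool) × (V → Bool))) ×
        ((V → Fin k → V) × (V → Fin k → V)) :=
    ⟨fun q => ((q.2, (q.1.1.2, q.1.2.2)), (q.1.1.1, q.1.2.1)),
      fun r => (((r.2.1, r.1.2.1), (r.2.2, r.1.2.2)), r.1.1), fun _ => rfl, fun _ => rfl⟩
  have h1 := mi_fib_set e (fun q : mi_Q V k l H => Acc q.1.1.1 o ∧ Acc q.1.2.1 o ∧
        (Y2 q.1.1.1 o (cat q.2.1.1 q.2.2) (cat q.2.1.2 q.2.2) (l+H)).card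
          + (Y2 q.1.2.1 o (cat q.2.1.1 q.2.2) (cat q.2.1.2 q.2.2) (l+H)).card + 1
          ≤ (X2 q.1.1.1 o (cat q.2.1.1 q.2.2) (cat q.2.1.2 q.2.2) (l+H)).card
          + (X2 q.1.2.1 o (cat q.2.1.1 q.2.2) (cat q.2.1.2 q.2.2) (l+H)).card) Set.univ
    (4 * ((2*((l:ℝ)+H)+1)*(2*((l:ℝ)+H)+2))^3 *
          (Set.ncard {T : V → Fin k → V | Acc T o} : ℝ)^2 / (Fintype.card V : ℝ)^3)
    (by
      intro a _
      rw [le_div_iff₀ (by positivity)]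
      have h2 := exc_pair_count (k := k) o (cat a.1.1.1 a.1.2) (cat a.1.1.2 a.1.2) (l + H)
      have h3 : ((Set.ncard {p : (V → Fin k → V) × (V → Fin k → V) | Acc p.1 o ∧ Acc p.2 o ∧
        (Y2 p.1 o (cat a.1.1.1 a.1.2) (cat a.1.1.2 a.1.2) (l+H)).card
          + (Y2 p.2 o (cat a.1.1.1 a.1.2) (cat a.1.1.2 a.1.2) (l+H)).card + 1
          ≤ (X2 p.1 o (cat a.1.1.1 a.1.2) (cat a.1.1.2 a.1.2) (l+H)).card
            + (X2 p.2 o (cat a.1.1.1 a.1.2) (cat a.1.1.2 a.1.2) (l+H)).card}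
            * (Fintype.card V)^3 : ℕ) : ℝ)
        ≤ ((4 * ((2*(l+H)+1)*(2*(l+H)+2))^3 *
          (Set.ncard {T : V → Fin k → V | Acc T o})^2 : ℕ) : ℝ) := by exact_mod_cast h2
      push_cast at h3
      exact h3)
    (fun a b _ => Set.mem_univ a)
  refine h1.trans (le_of_eq ?_)
  congr 1
  rw [Set.ncard_univ, Nat.card_eq_fintype_card]
  simp only [Fintype.card_prod, Fintype.card_fun, Fintype.card_bool, Fintype.card_fin]
  push_cast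
  have h4 : (4 : ℝ) ^ (Fintype.card V) = 2 ^ (Fintype.card V) * 2 ^ (Fintype.card V) := by
    rw [← mul_pow]
    norm_num
  rw [h4]
  ring

/-- unmerged failures -/
def mi_P3 [NeZero k] [DecidableEq V] (o : V) (l H : ℕ) (q : mi_Q V k l H) : Prop :=
  Good q.1.1.1 o ∧ Good q.1.2.1 o ∧
        (X2 q.1.1.1 o (cat q.2.1.1 q.2.2) (cat q.2.1.2 q.2.2) (l + H)).card
          ≤ (Y2 q.1.1.1 o (cat q.2.1.1 q.2.2) (cat q.2.1.2 q.2.2) (l + H)).card + 1 ∧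
        (X2 q.1.2.1 o (cat q.2.1.1 q.2.2) (cat q.2.1.2 q.2.2) (l + H)).card
          ≤ (Y2 q.1.2.1 o (cat q.2.1.1 q.2.2) (cat q.2.1.2 q.2.2) (l + H)).card + 1 ∧
        (∀ i, i ≤ H →
          traj q.1.1.1 o (cat q.2.1.1 q.2.2) (l+i) ≠ traj q.1.1.1 o (cat q.2.1.2 q.2.2) (l+i)) ∧
        Fail o q.1.1 q.1.2 q.2.1.1 q.2.1.2 q.2.2

theorem mi_b3 [NeZero k] [Fintype V] [DecidableEq V] (o : V) (hk : 2 ≤ k) (l s H : ℕ)
    (hH : H = 16*(2*s+2)) :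
    (Set.ncard {q : mi_Q V k l H | mi_P3 o l H q} : ℝ)
      ≤ (Set.ncard {T : V → Fin k → V | Acc T o} : ℝ)^2 * ((k:ℝ)^l)^2 * ((k:ℝ)^H *
        4^(Fintype.card V) * (4*(16*(2*(s:ℝ)+2))*(1 - 1/(k:ℝ)^2)^s + (3/4:ℝ)^s)) := by
  classical
  subst hH
  have hk1 : 0 ≤ 1 - 1 / (k : ℝ) ^ 2 := by
    have h2 : (2 : ℝ) ≤ k := by exact_mod_cast hk
    rw [sub_nonneg, div_le_one (by positivity)]
    nlinarith
  let e : mi_Q V k l (16*(2*s+2)) ≃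
      (((V → Fin k → V) × (V → Fin k → V)) × ((Fin l → Fin k) × (Fin l → Fin k))) ×
        ((Fin (16*(2*s+2)) → Fin k) × (V → Bool) × (V → Bool)) :=
    ⟨fun q => (((q.1.1.1, q.1.2.1), q.2.1), (q.2.2, q.1.1.2, q.1.2.2)),
      fun r => (((r.1.1.1, r.2.2.1), (r.1.1.2, r.2.2.2)), (r.1.2, r.2.1)), fun _ => rfl, fun _ => rfl⟩
  have h1 := mi_fib_set e (fun q => mi_P3 o l (16*(2*s+2)) q)
    (({T : V → Fin k → V | Acc T o} ×ˢ {T : V → Fin k → V | Acc T o}) ×ˢ Set.univ)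
    ((k:ℝ)^(16*(2*s+2)) *
        4^(Fintype.card V) * (4*(16*(2*(s:ℝ)+2))*(1 - 1/(k:ℝ)^2)^s + (3/4:ℝ)^s))
    (by
      intro a _
      by_cases hg : Good a.1.1 o ∧ Good a.1.2 o
      · have h2 := unmerged_count o hk a.1.1 a.1.2 hg.1.2 hg.2.2 l s a.2.1 a.2.2
        refine le_trans ?_ h2
        have h3 : Set.ncard {b | mi_P3 o l (16*(2*s+2)) (e.symm (a, b))} ≤ _ :=
          Set.ncard_le_ncard (s := {b | mi_P3 o l (16*(2*s+2)) (e.symm (a, b))})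
            (t := {q : (Fin (16*(2*s+2)) → Fin k) × (V → Bool) × (V → Bool) |
        (X2 a.1.1 o (cat a.2.1 q.1) (cat a.2.2 q.1) (l + 16*(2*s+2))).card
          ≤ (Y2 a.1.1 o (cat a.2.1 q.1) (cat a.2.2 q.1) (l + 16*(2*s+2))).card + 1 ∧
        (X2 a.1.2 o (cat a.2.1 q.1) (cat a.2.2 q.1) (l + 16*(2*s+2))).card
          ≤ (Y2 a.1.2 o (cat a.2.1 q.1) (cat a.2.2 q.1) (l + 16*(2*s+2))).card + 1 ∧
        (∀ i, i ≤ 16*(2*s+2) →
          traj a.1.1 o (cat a.2.1 q.1) (l+i) ≠ traj a.1.1 o (cat a.2.2 q.1) (l+i)) ∧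
        Fail o (a.1.1, q.2.1) (a.1.2, q.2.2) a.2.1 a.2.2 q.1})
            (fun b hb => hb.2.2) (Set.toFinite _)
        exact_mod_cast h3
      · have h3 : {b | mi_P3 o l (16*(2*s+2)) (e.symm (a, b))} = ∅ := by
          ext b
          constructor
          · intro hb
            exact hg ⟨hb.1, hb.2.1⟩
          · intro hb
            exact hb.elim
        rw [h3, Set.ncard_empty, Nat.cast_zero]
        have h4 : 0 ≤ (1 - 1 / (k : ℝ) ^ 2) ^ s := pow_nonneg hk1 s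
        positivity)
    (by
      intro a b hb
      exact ⟨⟨hb.1.1, hb.2.1.1⟩, Set.mem_univ _⟩)
  refine h1.trans (le_of_eq ?_)
  congr 1
  rw [Set.ncard_prod, Set.ncard_prod, Set.ncard_univ, Nat.card_eq_fintype_card]
  simp only [Fintype.card_prod, Fintype.card_fun, Fintype.card_fin]
  push_cast
  ring

open Classical in
/-- the double sum of `merged_count` -/
noncomputable def mi_G (l H : ℕ) (w w' : Fin l → Fin k) : ℝ :=
  ∑ t ∈ Finset.range (l + H), ∑ t' ∈ Finset.range (l + H),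
          (if Ag w w' t ∧ Ag w w' t' then ((3:ℝ)/4)^(max t t' + 1 - l) else 0)

theorem mi_G_sum (l H : ℕ) (c : ℝ) :
    ∑ a : ((Fin l → Fin k) × (Fin l → Fin k)) × (Fin H → Fin k), mi_G l H a.1.1 a.1.2 * c
      = (k:ℝ)^H * ((∑ w : Fin l → Fin k, ∑ w' : Fin l → Fin k, mi_G l H w w') * c) := by
  rw [← Finset.sum_mul, Fintype.sum_prod_type]
  simp only [Finset.sum_const, Finset.card_univ, Fintype.card_fun, Fintype.card_fin, nsmul_eq_mul]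
  rw [← Finset.mul_sum, Fintype.sum_prod_type]
  push_cast
  ring

open Classical in
theorem mi_b5 [NeZero k] [Fintype V] [DecidableEq V] (o : V) (hk : 2 ≤ k) (l H : ℕ) :
    (Set.ncard {q : mi_Q V k l H | q.2.1.1 ≠ q.2.1.2 ∧ Acc q.1.1.1 o ∧ Acc q.1.2.1 o ∧
        (X2 q.1.1.1 o (cat q.2.1.1 q.2.2) (cat q.2.1.2 q.2.2) (l+H)).card
          + (X2 q.1.2.1 o (cat q.2.1.1 q.2.2) (cat q.2.1.2 q.2.2) (l+H)).card
          ≤ (Y2 q.1.1.1 o (cat q.2.1.1 q.2.2) (cat q.2.1.2 q.2.2) (l+H)).card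
          + (Y2 q.1.2.1 o (cat q.2.1.1 q.2.2) (cat q.2.1.2 q.2.2) (l+H)).card ∧
        (∃ i, i ≤ H ∧ traj q.1.1.1 o (cat q.2.1.1 q.2.2) (l+i)
          = traj q.1.1.1 o (cat q.2.1.2 q.2.2) (l+i)) ∧
        (∃ i, i ≤ H ∧ traj q.1.2.1 o (cat q.2.1.1 q.2.2) (l+i)
          = traj q.1.2.1 o (cat q.2.1.2 q.2.2) (l+i)) ∧
        Fail o q.1.1 q.1.2 q.2.1.1 q.2.1.2 q.2.2} : ℝ)
      ≤ (k:ℝ)^H * (44 * ((k:ℝ)^l)^2 * ((Set.ncard {T : V → Fin k → V | Acc T o} : ℝ)^2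
          * 4^(Fintype.card V) / (Fintype.card V : ℝ)^2)) := by
  have hn : 0 < (Fintype.card V : ℝ) := by
    have : 0 < Fintype.card V := Fintype.card_pos_iff.2 ⟨o⟩
    exact_mod_cast this
  obtain ⟨c, hc⟩ : ∃ c : ℝ, c = (Set.ncard {T : V → Fin k → V | Acc T o} : ℝ)^2
          * 4^(Fintype.card V) / (Fintype.card V : ℝ)^2 := ⟨_, rfl⟩
  have hc0 : 0 ≤ c := by
    rw [hc]
    positivity
  let e : mi_Q V k l H ≃ (((Fin l → Fin k) × (Fin l → Fin k)) × (Fin H → Fin k)) ×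
      (((V → Fin k → V) × (V → Bool)) × ((V → Fin k → V) × (V → Bool))) := Equiv.prodComm _ _
  have h1 := mi_fib_le e (fun q : mi_Q V k l H => q.2.1.1 ≠ q.2.1.2 ∧ Acc q.1.1.1 o ∧ Acc q.1.2.1 o ∧
        (X2 q.1.1.1 o (cat q.2.1.1 q.2.2) (cat q.2.1.2 q.2.2) (l+H)).card
          + (X2 q.1.2.1 o (cat q.2.1.1 q.2.2) (cat q.2.1.2 q.2.2) (l+H)).card
          ≤ (Y2 q.1.1.1 o (cat q.2.1.1 q.2.2) (cat q.2.1.2 q.2.2) (l+H)).card
          + (Y2 q.1.2.1 o (cat q.2.1.1 q.2.2) (cat q.2.1.2 q.2.2) (l+H)).card ∧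
        (∃ i, i ≤ H ∧ traj q.1.1.1 o (cat q.2.1.1 q.2.2) (l+i)
          = traj q.1.1.1 o (cat q.2.1.2 q.2.2) (l+i)) ∧
        (∃ i, i ≤ H ∧ traj q.1.2.1 o (cat q.2.1.1 q.2.2) (l+i)
          = traj q.1.2.1 o (cat q.2.1.2 q.2.2) (l+i)) ∧
        Fail o q.1.1 q.1.2 q.2.1.1 q.2.1.2 q.2.2)
    (fun a => mi_G l H a.1.1 a.1.2 * c)
    (by
      intro a
      have hsum0 : 0 ≤ mi_G l H a.1.1 a.1.2 := by
        unfold mi_G
        apply Finset.sum_nonneg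
        intro t _
        apply Finset.sum_nonneg
        intro t' _
        split_ifs
        · positivity
        · exact le_rfl
      by_cases hne : a.1.1 = a.1.2
      · have h3 : {b : (((V → Fin k → V) × (V → Bool)) × ((V → Fin k → V) × (V → Bool))) |
            (fun q : mi_Q V k l H => q.2.1.1 ≠ q.2.1.2 ∧ Acc q.1.1.1 o ∧ Acc q.1.2.1 o ∧
        (X2 q.1.1.1 o (cat q.2.1.1 q.2.2) (cat q.2.1.2 q.2.2) (l+H)).card
          + (X2 q.1.2.1 o (cat q.2.1.1 q.2.2) (cat q.2.1.2 q.2.2) (l+H)).card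
          ≤ (Y2 q.1.1.1 o (cat q.2.1.1 q.2.2) (cat q.2.1.2 q.2.2) (l+H)).card
          + (Y2 q.1.2.1 o (cat q.2.1.1 q.2.2) (cat q.2.1.2 q.2.2) (l+H)).card ∧
        (∃ i, i ≤ H ∧ traj q.1.1.1 o (cat q.2.1.1 q.2.2) (l+i)
          = traj q.1.1.1 o (cat q.2.1.2 q.2.2) (l+i)) ∧
        (∃ i, i ≤ H ∧ traj q.1.2.1 o (cat q.2.1.1 q.2.2) (l+i)
          = traj q.1.2.1 o (cat q.2.1.2 q.2.2) (l+i)) ∧
        Fail o q.1.1 q.1.2 q.2.1.1 q.2.1.2 q.2.2) (e.symm (a, b))} = ∅ := by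
          ext b
          constructor
          · intro hb
            exact hb.1 hne
          · intro hb
            exact hb.elim
        rw [h3, Set.ncard_empty]
        simp only [Nat.cast_zero]
        exact mul_nonneg hsum0 hc0
      · have h2 := merged_count o l H a.1.1 a.1.2 hne a.2
        rw [← le_div_iff₀ (by positivity)] at h2
        refine le_trans ?_ (h2.trans (le_of_eq ?_))
        · have h3 : Set.ncard {b : (((V → Fin k → V) × (V → Bool)) × ((V → Fin k → V) × (V → Bool))) |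
            (fun q : mi_Q V k l H => q.2.1.1 ≠ q.2.1.2 ∧ Acc q.1.1.1 o ∧ Acc q.1.2.1 o ∧
        (X2 q.1.1.1 o (cat q.2.1.1 q.2.2) (cat q.2.1.2 q.2.2) (l+H)).card
          + (X2 q.1.2.1 o (cat q.2.1.1 q.2.2) (cat q.2.1.2 q.2.2) (l+H)).card
          ≤ (Y2 q.1.1.1 o (cat q.2.1.1 q.2.2) (cat q.2.1.2 q.2.2) (l+H)).card
          + (Y2 q.1.2.1 o (cat q.2.1.1 q.2.2) (cat q.2.1.2 q.2.2) (l+H)).card ∧
        (∃ i, i ≤ H ∧ traj q.1.1.1 o (cat q.2.1.1 q.2.2) (l+i)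
          = traj q.1.1.1 o (cat q.2.1.2 q.2.2) (l+i)) ∧
        (∃ i, i ≤ H ∧ traj q.1.2.1 o (cat q.2.1.1 q.2.2) (l+i)
          = traj q.1.2.1 o (cat q.2.1.2 q.2.2) (l+i)) ∧
        Fail o q.1.1 q.1.2 q.2.1.1 q.2.1.2 q.2.2) (e.symm (a, b))} ≤ _ :=
            Set.ncard_le_ncard (t := {p : ((V → Fin k → V) × (V → Bool)) × ((V → Fin k → V) × (V → Bool)) |
        Acc p.1.1 o ∧ Acc p.2.1 o ∧
        (X2 p.1.1 o (cat a.1.1 a.2) (cat a.1.2 a.2) (l+H)).card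
          + (X2 p.2.1 o (cat a.1.1 a.2) (cat a.1.2 a.2) (l+H)).card
          ≤ (Y2 p.1.1 o (cat a.1.1 a.2) (cat a.1.2 a.2) (l+H)).card
            + (Y2 p.2.1 o (cat a.1.1 a.2) (cat a.1.2 a.2) (l+H)).card ∧
        (∃ i, i ≤ H ∧ traj p.1.1 o (cat a.1.1 a.2) (l+i) = traj p.1.1 o (cat a.1.2 a.2) (l+i)) ∧
        (∃ i, i ≤ H ∧ traj p.2.1 o (cat a.1.1 a.2) (l+i) = traj p.2.1 o (cat a.1.2 a.2) (l+i)) ∧
        Fail o p.1 p.2 a.1.1 a.1.2 a.2})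
              (fun b hb => hb.2) (Set.toFinite _)
          exact_mod_cast h3
        · rw [hc]
          unfold mi_G
          ring)
  refine h1.trans ?_
  rw [← hc, mi_G_sum]
  have h4 : ∑ w : Fin l → Fin k, ∑ w' : Fin l → Fin k, mi_G l H w w' ≤ 44 * ((k:ℝ)^l)^2 :=
    pair_sum k hk l H
  apply mul_le_mul_of_nonneg_left _ (by positivity)
  exact mul_le_mul_of_nonneg_right h4 hc0

theorem mi_fail_comm [NeZero k] (o : V) {l H : ℕ} (x y : (V → Fin k → V) × (V → Bool))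
    (w w' : Fin l → Fin k) (z : Fin H → Fin k) (h : Fail o x y w w' z) : Fail o y x w w' z := by
  intro i hi
  rw [Bool.and_comm, h i hi, Bool.and_comm]

theorem main_ineq [NeZero k] [Fintype V] [DecidableEq V] (o : V) (hk : 2 ≤ k) (l s H : ℕ)
    (hH : H = 16*(2*s+2)) :
    (Set.ncard {q : (((V → Fin k → V) × (V → Bool)) × ((V → Fin k → V) × (V → Bool))) ×
          ((Fin l → Fin k) × (Fin l → Fin k)) × (Fin H → Fin k) |
        Good q.1.1.1 o ∧ Good q.1.2.1 o ∧ Fail o q.1.1 q.1.2 q.2.1.1 q.2.1.2 q.2.2} : ℝ)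
        * (Fintype.card V : ℝ)^2
      ≤ (Set.ncard {T : V → Fin k → V | Acc T o} : ℝ)^2 * 4^(Fintype.card V)
          * ((k:ℝ)^l)^2 * (k:ℝ)^H *
        ((Fintype.card V : ℝ)^2 / (k:ℝ)^l
          + 4 * ((2*((l:ℝ)+H)+1)*(2*((l:ℝ)+H)+2))^3 / (Fintype.card V : ℝ)
          + 2 * (Fintype.card V : ℝ)^2 * (4*(16*(2*(s:ℝ)+2))*(1 - 1/(k:ℝ)^2)^s + (3/4:ℝ)^s)
          + 44) := by
  classical
  have hn : 0 < (Fintype.card V : ℝ) := by
    have : 0 < Fintype.card V := Fintype.card_pos_iff.2 ⟨o⟩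
    exact_mod_cast this
  have hkpos : 0 < (k : ℝ) := by
    have : 0 < k := by omega
    exact_mod_cast this
  have b1 := mi_b1 (k := k) o l H
  have b2 := mi_b2 (k := k) o l H
  have b3 := mi_b3 (k := k) o hk l s H hH
  have b5 := mi_b5 (k := k) o hk l H
  -- swap
  let sw : mi_Q V k l H ≃ mi_Q V k l H :=
    ⟨fun q => ((q.1.2, q.1.1), q.2), fun q => ((q.1.2, q.1.1), q.2), fun _ => rfl, fun _ => rfl⟩
  have b4 : Set.ncard {q : mi_Q V k l H | mi_P3 o l H (sw q)}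
      = Set.ncard {q : mi_Q V k l H | mi_P3 o l H q} := by
    rw [mi_equiv sw (fun q => mi_P3 o l H (sw q))]
    congr 1
  obtain ⟨B1, hB1⟩ : ∃ B : Set (mi_Q V k l H),
    B = {q : mi_Q V k l H | Acc q.1.1.1 o ∧ Acc q.1.2.1 o ∧ q.2.1.1 = q.2.1.2} := ⟨_, rfl⟩
  obtain ⟨B2, hB2⟩ : ∃ B : Set (mi_Q V k l H),
    B = {q : mi_Q V k l H | Acc q.1.1.1 o ∧ Acc q.1.2.1 o ∧
        (Y2 q.1.1.1 o (cat q.2.1.1 q.2.2) (cat q.2.1.2 q.2.2) (l+H)).card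
          + (Y2 q.1.2.1 o (cat q.2.1.1 q.2.2) (cat q.2.1.2 q.2.2) (l+H)).card + 1
          ≤ (X2 q.1.1.1 o (cat q.2.1.1 q.2.2) (cat q.2.1.2 q.2.2) (l+H)).card
          + (X2 q.1.2.1 o (cat q.2.1.1 q.2.2) (cat q.2.1.2 q.2.2) (l+H)).card} := ⟨_, rfl⟩
  obtain ⟨B3, hB3⟩ : ∃ B : Set (mi_Q V k l H), B = {q : mi_Q V k l H | mi_P3 o l H q} := ⟨_, rfl⟩
  obtain ⟨B4, hB4⟩ : ∃ B : Set (mi_Q V k l H), B = {q : mi_Q V k l H | mi_P3 o l H (sw q)} := ⟨_, rfl⟩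
  obtain ⟨B5, hB5⟩ : ∃ B : Set (mi_Q V k l H),
    B = {q : mi_Q V k l H | q.2.1.1 ≠ q.2.1.2 ∧ Acc q.1.1.1 o ∧ Acc q.1.2.1 o ∧
        (X2 q.1.1.1 o (cat q.2.1.1 q.2.2) (cat q.2.1.2 q.2.2) (l+H)).card
          + (X2 q.1.2.1 o (cat q.2.1.1 q.2.2) (cat q.2.1.2 q.2.2) (l+H)).card
          ≤ (Y2 q.1.1.1 o (cat q.2.1.1 q.2.2) (cat q.2.1.2 q.2.2) (l+H)).card
          + (Y2 q.1.2.1 o (cat q.2.1.1 q.2.2) (cat q.2.1.2 q.2.2) (l+H)).card ∧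
        (∃ i, i ≤ H ∧ traj q.1.1.1 o (cat q.2.1.1 q.2.2) (l+i)
          = traj q.1.1.1 o (cat q.2.1.2 q.2.2) (l+i)) ∧
        (∃ i, i ≤ H ∧ traj q.1.2.1 o (cat q.2.1.1 q.2.2) (l+i)
          = traj q.1.2.1 o (cat q.2.1.2 q.2.2) (l+i)) ∧
        Fail o q.1.1 q.1.2 q.2.1.1 q.2.1.2 q.2.2} := ⟨_, rfl⟩
  have hsub : {q : mi_Q V k l H | Good q.1.1.1 o ∧ Good q.1.2.1 o ∧
      Fail o q.1.1 q.1.2 q.2.1.1 q.2.1.2 q.2.2} ⊆ B1 ∪ (B2 ∪ (B3 ∪ (B4 ∪ B5))) := by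
    rintro q ⟨g1, g2, hf⟩
    by_cases hw : q.2.1.1 = q.2.1.2
    · left
      rw [hB1]
      exact ⟨g1.1, g2.1, hw⟩
    right
    by_cases hxy : (Y2 q.1.1.1 o (cat q.2.1.1 q.2.2) (cat q.2.1.2 q.2.2) (l+H)).card
          + (Y2 q.1.2.1 o (cat q.2.1.1 q.2.2) (cat q.2.1.2 q.2.2) (l+H)).card + 1
          ≤ (X2 q.1.1.1 o (cat q.2.1.1 q.2.2) (cat q.2.1.2 q.2.2) (l+H)).card
          + (X2 q.1.2.1 o (cat q.2.1.1 q.2.2) (cat q.2.1.2 q.2.2) (l+H)).card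
    · left
      rw [hB2]
      exact ⟨g1.1, g2.1, hxy⟩
    right
    have c1 := conn_card q.1.1.1 o (cat q.2.1.1 q.2.2) (cat q.2.1.2 q.2.2) (l+H)
    have c2 := conn_card q.1.2.1 o (cat q.2.1.1 q.2.2) (cat q.2.1.2 q.2.2) (l+H)
    by_cases hm1 : ∃ i, i ≤ H ∧ traj q.1.1.1 o (cat q.2.1.1 q.2.2) (l+i)
          = traj q.1.1.1 o (cat q.2.1.2 q.2.2) (l+i)
    · right
      by_cases hm2 : ∃ i, i ≤ H ∧ traj q.1.2.1 o (cat q.2.1.1 q.2.2) (l+i)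
          = traj q.1.2.1 o (cat q.2.1.2 q.2.2) (l+i)
      · right
        rw [hB5]
        exact ⟨hw, g1.1, g2.1, by omega, hm1, hm2, hf⟩
      · left
        rw [hB4]
        push Not at hm2
        exact ⟨g2, g1, by show _ ≤ _; simp only [sw, Equiv.coe_fn_mk]; omega,
          by show _ ≤ _; simp only [sw, Equiv.coe_fn_mk]; omega, hm2,
          mi_fail_comm o _ _ _ _ _ hf⟩
    · left
      rw [hB3]
      push Not at hm1
      exact ⟨g1, g2, by omega, by omega, hm1, hf⟩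
  have hcard : Set.ncard {q : mi_Q V k l H | Good q.1.1.1 o ∧ Good q.1.2.1 o ∧
      Fail o q.1.1 q.1.2 q.2.1.1 q.2.1.2 q.2.2}
      ≤ B1.ncard + (B2.ncard + (B3.ncard + (B4.ncard + B5.ncard))) := by
    refine (Set.ncard_le_ncard hsub (Set.toFinite _)).trans ?_
    refine (Set.ncard_union_le _ _).trans (Nat.add_le_add_left ?_ _)
    refine (Set.ncard_union_le _ _).trans (Nat.add_le_add_left ?_ _)
    refine (Set.ncard_union_le _ _).trans (Nat.add_le_add_left ?_ _)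
    exact Set.ncard_union_le _ _
  rw [← hB1] at b1
  rw [← hB2] at b2
  rw [← hB3] at b3 b4
  rw [← hB4] at b4
  rw [← hB5] at b5
  have hcardR : (Set.ncard {q : mi_Q V k l H | Good q.1.1.1 o ∧ Good q.1.2.1 o ∧
      Fail o q.1.1 q.1.2 q.2.1.1 q.2.1.2 q.2.2} : ℝ)
      ≤ B1.ncard + (B2.ncard + (B3.ncard + (B4.ncard + B5.ncard))) := by exact_mod_cast hcard
  rw [b4] at hcardR
  obtain ⟨η, hη⟩ : ∃ η : ℝ, η = 4*(16*(2*(s:ℝ)+2))*(1 - 1/(k:ℝ)^2)^s + (3/4:ℝ)^s := ⟨_, rfl⟩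
  rw [← hη] at b3 ⊢
  obtain ⟨P, hP⟩ : ∃ P : ℝ, P = ((2*((l:ℝ)+H)+1)*(2*((l:ℝ)+H)+2))^3 := ⟨_, rfl⟩
  rw [← hP] at b2 ⊢
  obtain ⟨A, hA⟩ : ∃ A : ℝ, A = (Set.ncard {T : V → Fin k → V | Acc T o} : ℝ) := ⟨_, rfl⟩
  rw [← hA] at b1 b2 b3 b5 ⊢
  obtain ⟨K, hK⟩ : ∃ K : ℝ, K = (k:ℝ)^l := ⟨_, rfl⟩
  have hKpos : 0 < K := by rw [hK]; positivity
  rw [← hK] at b1 b2 b3 b5 ⊢
  obtain ⟨Z, hZ⟩ : ∃ Z : ℝ, Z = (k:ℝ)^H := ⟨_, rfl⟩
  rw [← hZ] at b1 b2 b3 b5 ⊢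
  obtain ⟨F, hF⟩ : ∃ F : ℝ, F = (4:ℝ)^(Fintype.card V) := ⟨_, rfl⟩
  rw [← hF] at b1 b2 b3 b5 ⊢
  obtain ⟨n, hnn⟩ : ∃ n : ℝ, n = (Fintype.card V : ℝ) := ⟨_, rfl⟩
  rw [← hnn] at b2 b5 hn ⊢
  have hfin : (Set.ncard {q : mi_Q V k l H | Good q.1.1.1 o ∧ Good q.1.2.1 o ∧
      Fail o q.1.1 q.1.2 q.2.1.1 q.2.1.2 q.2.2} : ℝ)
      ≤ A ^ 2 * F * K * Z + (F * K ^ 2 * Z * (4 * P * A ^ 2 / n ^ 3)
        + (A ^ 2 * K ^ 2 * (Z * F * η) + (A ^ 2 * K ^ 2 * (Z * F * η)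
          + Z * (44 * K ^ 2 * (A ^ 2 * F / n ^ 2))))) := by linarith
  calc _ ≤ (A ^ 2 * F * K * Z + (F * K ^ 2 * Z * (4 * P * A ^ 2 / n ^ 3)
        + (A ^ 2 * K ^ 2 * (Z * F * η) + (A ^ 2 * K ^ 2 * (Z * F * η)
          + Z * (44 * K ^ 2 * (A ^ 2 * F / n ^ 2)))))) * n ^ 2 :=
        mul_le_mul_of_nonneg_right hfin (by positivity)
    _ = _ := by
        field_simp
        ring

end SI
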