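import Mathlib

set_option autoImplicit false

namespace SI

theorem params (k : ℕ) (hk : 2 ≤ k) : ∃ n0 : ℕ, ∀ n : ℕ, n0 ≤ n → ∃ l s : ℕ,
    (n:ℝ)^2 / (k:ℝ)^l
      + 4 * ((2*((l:ℝ)+((16*(2*s+2) : ℕ):ℝ))+1)*(2*((l:ℝ)+((16*(2*s+2) : ℕ):ℝ))+2))^3 / (n:ℝ)
      + 2 * (n:ℝ)^2 * (4*(16*(2*(s:ℝ)+2))*(1 - 1/(k:ℝ)^2)^s + (3/4:ℝ)^s)
      + 44 ≤ 50 := by
  have h6 := tendsto_pow_const_div_const_pow_of_one_lt 6 (r := (2:ℝ)) (by norm_num)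
  have h1 := tendsto_pow_const_div_const_pow_of_one_lt 1 (r := (2:ℝ)) (by norm_num)
  set C : ℝ := 192 * (k:ℝ)^2 + 70 with hC
  set D : ℝ := 384 * (k:ℝ)^2 + 129 with hD
  have h6' : Filter.Tendsto (fun L : ℕ => 8 * C^6 * ((L:ℝ)^6 / 2^L)) Filter.atTop (nhds 0) := by
    simpa using h6.const_mul (8 * C^6)
  have h1' : Filter.Tendsto (fun L : ℕ => 4 * D * ((L:ℝ)^1 / 2^L)) Filter.atTop (nhds 0) := by
    simpa using h1.const_mul (4 * D)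
  obtain ⟨L0, hL0⟩ := ((h6'.eventually (ge_mem_nhds one_pos)).and
    (h1'.eventually (ge_mem_nhds one_pos))).exists_forall_of_atTop
  refine ⟨2 ^ L0, fun n hn => ?_⟩
  have hnpos : n ≠ 0 := by
    have : 0 < 2 ^ L0 := by positivity
    omega
  obtain ⟨L, hL⟩ : ∃ L, L = Nat.log 2 n + 1 := ⟨_, rfl⟩
  have hle : 2 ^ L ≤ 2 * n := by
    have := Nat.pow_log_le_self 2 hnpos
    rw [hL, pow_succ]
    omega
  have hlt : n < 2 ^ L := by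
    rw [hL]
    exact Nat.lt_pow_succ_log_self (by norm_num) n
  have hLL : L0 ≤ L := by
    by_contra h
    have h2 : 2 ^ L ≤ 2 ^ L0 := Nat.pow_le_pow_right (by norm_num) (by omega)
    omega
  have hL1 : 1 ≤ L := by omega
  obtain ⟨e6, e1⟩ := hL0 L hLL
  have hleR : (2:ℝ) ^ L ≤ 2 * n := by exact_mod_cast hle
  have hltR : (n:ℝ) < 2 ^ L := by exact_mod_cast hlt
  have hN : (0:ℝ) < n := by exact_mod_cast Nat.pos_of_ne_zero hnpos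
  have hL1R : (1:ℝ) ≤ L := by exact_mod_cast hL1
  have hkR : (2:ℝ) ≤ k := by exact_mod_cast hk
  have hk2 : (0:ℝ) < (k:ℝ)^2 := by positivity
  have hpow : (0:ℝ) < 2 ^ L := by positivity
  have hinv : 1 / (n:ℝ) ≤ 2 / 2 ^ L := by
    rw [div_le_div_iff₀ hN hpow]
    linarith
  refine ⟨2 * L, k ^ 2 * (3 * L), ?_⟩
  have T1 : (n:ℝ)^2 / (k:ℝ)^(2 * L) ≤ 1 := by
    rw [div_le_one (by positivity), mul_comm 2 L, pow_mul]
    have h2 : (n:ℝ) ≤ (k:ℝ) ^ L := hltR.le.trans (pow_le_pow_left₀ (by norm_num) hkR L)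
    exact pow_le_pow_left₀ hN.le h2 2
  have T2 : 4 * ((2*(((2 * L : ℕ):ℝ)+((16*(2*(k ^ 2 * (3 * L))+2) : ℕ):ℝ))+1)*
      (2*(((2 * L : ℕ):ℝ)+((16*(2*(k ^ 2 * (3 * L))+2) : ℕ):ℝ))+2))^3 / (n:ℝ) ≤ 1 := by
    push_cast
    set x : ℝ := 2 * (2 * (L:ℝ) + 16 * (2 * ((k:ℝ) ^ 2 * (3 * L)) + 2)) with hx
    have hx0 : 0 ≤ x := by positivity
    have hx2 : x + 2 ≤ C * L := by
      rw [hx, hC]
      nlinarith
    have hprod : (x + 1) * (x + 2) ≤ (C * L) ^ 2 := by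
      rw [sq]
      exact mul_le_mul (by linarith) hx2 (by linarith) (by linarith)
    have hcube : ((x + 1) * (x + 2)) ^ 3 ≤ C ^ 6 * (L:ℝ) ^ 6 := by
      have : ((x + 1) * (x + 2)) ^ 3 ≤ ((C * L) ^ 2) ^ 3 :=
        pow_le_pow_left₀ (by positivity) hprod 3
      refine this.trans (le_of_eq ?_)
      ring
    calc 4 * ((x + 1) * (x + 2)) ^ 3 / (n:ℝ) = 4 * ((x + 1) * (x + 2)) ^ 3 * (1 / n) := by ring
      _ ≤ 4 * (C ^ 6 * (L:ℝ) ^ 6) * (2 / 2 ^ L) := by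
          refine mul_le_mul (by linarith) hinv (by positivity) (by positivity)
      _ = 8 * C^6 * ((L:ℝ)^6 / 2^L) := by ring
      _ ≤ 1 := e6
  have hhalf : ((1:ℝ) / 2) ^ (3 * L) ≤ 1 / (n:ℝ) ^ 3 := by
    rw [mul_comm 3 L, pow_mul, one_div_pow, one_div_pow]
    exact one_div_le_one_div_of_le (by positivity) (pow_le_pow_left₀ hN.le hltR.le 3)
  have hA : (1 - 1/(k:ℝ)^2)^(k ^ 2 * (3 * L)) ≤ 1 / (n:ℝ) ^ 3 := by
    rw [pow_mul]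
    refine le_trans (pow_le_pow_left₀ ?_ ?_ (3 * L)) hhalf
    · refine pow_nonneg (sub_nonneg.2 ?_) _
      rw [div_le_one hk2]
      nlinarith
    · have h2 := Real.one_sub_div_pow_le_exp_neg (n := k ^ 2) (t := 1) (by
        push_cast
        nlinarith)
      push_cast at h2
      refine h2.trans ?_
      rw [Real.exp_neg, ← one_div]
      exact one_div_le_one_div_of_le (by norm_num) (by
        have := Real.add_one_le_exp (1:ℝ)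
        linarith)
  have hB : (3/4:ℝ)^(k ^ 2 * (3 * L)) ≤ 1 / (n:ℝ) ^ 3 := by
    have h4 : 4 * (3 * L) ≤ k ^ 2 * (3 * L) := Nat.mul_le_mul_right _ (by nlinarith)
    calc (3/4:ℝ)^(k ^ 2 * (3 * L)) ≤ (3/4:ℝ)^(4 * (3 * L)) :=
          pow_le_pow_of_le_one (by norm_num) (by norm_num) h4
      _ = ((3/4:ℝ)^4)^(3 * L) := by rw [pow_mul]
      _ ≤ ((1:ℝ)/2)^(3 * L) := pow_le_pow_left₀ (by norm_num) (by norm_num) _
      _ ≤ _ := hhalf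
  have T3 : 2 * (n:ℝ)^2 * (4*(16*(2*((k ^ 2 * (3 * L) : ℕ):ℝ)+2))*
      (1 - 1/(k:ℝ)^2)^(k ^ 2 * (3 * L)) + (3/4:ℝ)^(k ^ 2 * (3 * L))) ≤ 1 := by
    have hs : (4*(16*(2*((k ^ 2 * (3 * L) : ℕ):ℝ)+2))) + 1 ≤ D * L := by
      push_cast
      rw [hD]
      nlinarith
    calc 2 * (n:ℝ)^2 * (4*(16*(2*((k ^ 2 * (3 * L) : ℕ):ℝ)+2))*
      (1 - 1/(k:ℝ)^2)^(k ^ 2 * (3 * L)) + (3/4:ℝ)^(k ^ 2 * (3 * L)))
        ≤ 2 * (n:ℝ)^2 * (4*(16*(2*((k ^ 2 * (3 * L) : ℕ):ℝ)+2)) * (1 / (n:ℝ) ^ 3) +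
            1 / (n:ℝ) ^ 3) := by
          refine mul_le_mul_of_nonneg_left ?_ (by positivity)
          exact add_le_add (mul_le_mul_of_nonneg_left hA (by positivity)) hB
      _ = 2 * ((4*(16*(2*((k ^ 2 * (3 * L) : ℕ):ℝ)+2))) + 1) * (1 / n) := by
          field_simp
      _ ≤ 2 * (D * L) * (2 / 2 ^ L) := by
          refine mul_le_mul (by linarith) hinv (by positivity) (by positivity)
      _ = 4 * D * ((L:ℝ)^1 / 2^L) := by ring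
      _ ≤ 1 := e1
  linarith

end SI
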