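import Pool.Agent.Helper513.SI.M5a
import Pool.Agent.Helper513.SI.M5b
import Pool.Agent.Helper513.SI.I
import Pool.Agent.Helper513.SI.D
import Pool.Agent.Helper513.SI.Jb

set_option autoImplicit false

namespace SI
open RA
variable {V : Type} {k : ℕ}











theorem cs_image_h845 {α β : Type*} [Fintype α] [DecidableEq α] [DecidableEq β] (f : α → β) :
    (Fintype.card α) ^ 2 ≤ (Finset.univ.image f).card *
      (Finset.univ.filter (fun p : α × α => f p.1 = f p.2)).card := by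
  have h1 : Fintype.card α = ∑ b ∈ Finset.univ.image f, (Finset.univ.filter (fun a => f a = b)).card := by
    rw [← Finset.card_univ]
    exact Finset.card_eq_sum_card_image f Finset.univ
  have h2 : (Finset.univ.filter (fun p : α × α => f p.1 = f p.2)).card =
      ∑ b ∈ Finset.univ.image f, (Finset.univ.filter (fun a => f a = b)).card ^ 2 := by
    rw [Finset.card_filter, Fintype.sum_prod_type]
    have h3 : ∀ a : α, ∑ a' : α, (if f a = f a' then 1 else 0) =
        (Finset.univ.filter (fun a' => f a' = f a)).card := by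
      intro a
      rw [Finset.card_filter]
      refine Finset.sum_congr rfl fun a' _ => ?_
      by_cases h : f a = f a'
      · rw [if_pos h, if_pos h.symm]
      · rw [if_neg h, if_neg (fun h' => h h'.symm)]
    simp only [h3]
    rw [Finset.sum_comp (fun b => (Finset.univ.filter (fun a' => f a' = b)).card) f]
    refine Finset.sum_congr rfl fun b _ => ?_
    rw [smul_eq_mul, sq]
  rw [h2]
  conv_lhs => rw [h1]
  exact sq_sum_le_card_mul_sum_sq

theorem map_cat_h845 [NeZero k] {l H : ℕ} (w : Fin l → Fin k) (z : Fin H → Fin k) (i : ℕ) :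
    (List.range (l + i)).map (cat w z) = List.ofFn w ++ (List.range i).map (ext z) := by
  rw [List.range_add, List.map_append, List.map_map]
  congr 1
  · apply List.ext_getElem
    · simp
    · intro t h1 h2
      simp only [List.length_map, List.length_range] at h1
      simp [cat, h1]
  · apply List.map_congr_left
    intro t _
    show cat w z (l + t) = ext z t
    unfold cat
    rw [dif_neg (by omega), Nat.add_sub_cancel_left]

/-- the quotients of the intersection -/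
noncomputable def qf_h845 {m : ℕ} (l : ℕ)
    (x y : (Fin (m+1) → Fin k → Fin (m+1)) × (Fin (m+1) → Bool)) (w : Fin l → Fin k) :
    Language (Fin k) := (lang x ⊓ lang y).leftQuotient (List.ofFn w)

theorem fail_of_qf_h845 [NeZero k] {m l H : ℕ}
    (x y : (Fin (m+1) → Fin k → Fin (m+1)) × (Fin (m+1) → Bool)) (w w' : Fin l → Fin k)
    (h : qf_h845 l x y w = qf_h845 l x y w') (z : Fin H → Fin k) :
    Fail 0 x y w w' z := by
  intro i hi
  have key : ∀ w : Fin l → Fin k, ((List.range i).map (ext z) ∈ qf_h845 l x y w) ↔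
      (x.2 (traj x.1 0 (cat w z) (l+i)) && y.2 (traj y.1 0 (cat w z) (l+i))) = true := by
    intro w
    rw [← run_traj', ← run_traj', map_cat_h845, Bool.and_eq_true]
    rfl
  rw [Bool.eq_iff_iff, ← key w, ← key w', h]

open Classical in
theorem sc_lower_h845 {m : ℕ} (l : ℕ)
    (x y : (Fin (m+1) → Fin k → Fin (m+1)) × (Fin (m+1) → Bool)) :
    (k ^ l) ^ 2 ≤ sc (lang x ⊓ lang y) *
      (Finset.univ.filter (fun p : (Fin l → Fin k) × (Fin l → Fin k) =>
        qf_h845 l x y p.1 = qf_h845 l x y p.2)).card := by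
  have h1 := cs_image_h845 (qf_h845 l x y)
  rw [Fintype.card_fun, Fintype.card_fin, Fintype.card_fin] at h1
  refine h1.trans (Nat.mul_le_mul_right _ ?_)
  have h2 := le_sc (lang x ⊓ lang y) (inter_regular _ _ (lang_regular x) (lang_regular y))
    (Set.range (fun w : Fin l → Fin k => List.ofFn w))
  have h3 : (lang x ⊓ lang y).leftQuotient '' Set.range (fun w : Fin l → Fin k => List.ofFn w) =
      ((Finset.univ.image (qf_h845 l x y) : Finset (Language (Fin k))) : Set (Language (Fin k))) := by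
    rw [← Set.range_comp, Finset.coe_image, Finset.coe_univ, Set.image_univ]
    rfl
  rw [h3, Set.ncard_coe_finset] at h2
  exact h2

/-- minimal automata without sink -/
def GS_h845 (k m : ℕ) : Set ((Fin (m+1) → Fin k → Fin (m+1)) × (Fin (m+1) → Bool)) :=
  {x | x ∈ MinAut (Fin k) m ∧ ∀ s, ∃ a, x.1 s a ≠ s}

theorem GS_card_h845 (hk : 2 ≤ k) (m : ℕ) (hm : 12 ≤ m + 1)
    (h : Set.ncard {T : Fin (m+1) → Fin k → Fin (m+1) | Acc T 0} * 2^(m+1)
      ≤ 3 * Set.ncard {x : (Fin (m+1) → Fin k → Fin (m+1)) × (Fin (m+1) → Bool) |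
          Acc x.1 0 ∧ ∀ p q, (∀ w, x.2 (run x.1 p w) = x.2 (run x.1 q w)) → p = q}) :
    Set.ncard {T : Fin (m+1) → Fin k → Fin (m+1) | Acc T 0} * 2^(m+1) ≤ 4 * (GS_h845 k m).ncard := by
  have hMA : {x : (Fin (m+1) → Fin k → Fin (m+1)) × (Fin (m+1) → Bool) |
          Acc x.1 0 ∧ ∀ p q, (∀ w, x.2 (run x.1 p w) = x.2 (run x.1 q w)) → p = q} = MinAut (Fin k) m := rfl
  rw [hMA] at h
  have hsub : MinAut (Fin k) m ⊆ GS_h845 k m ∪
      ({T : Fin (m+1) → Fin k → Fin (m+1) | Acc T 0 ∧ ∃ s, ∀ a, T s a = s} ×ˢ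
        (Set.univ : Set (Fin (m+1) → Bool))) := by
    intro x hx
    by_cases hs : ∀ s, ∃ a, x.1 s a ≠ s
    · exact Or.inl ⟨hx, hs⟩
    · right
      push Not at hs
      exact ⟨⟨hx.1, hs⟩, Set.mem_univ _⟩
  have h1 := (Set.ncard_le_ncard hsub (Set.toFinite _)).trans (Set.ncard_union_le _ _)
  rw [Set.ncard_prod, Set.ncard_univ, Nat.card_fun, Nat.card_eq_fintype_card (α := Bool), Fintype.card_bool,
    Nat.card_fin] at h1
  have h2 := sink_count (Fin (m+1)) k 0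
  rw [Fintype.card_fin] at h2
  generalize {T : Fin (m+1) → Fin k → Fin (m+1) | Acc T 0 ∧ ∃ s, ∀ a, T s a = s}.ncard = S at *
  generalize {T : Fin (m+1) → Fin k → Fin (m+1) | Acc T 0}.ncard = A at *
  generalize (GS_h845 k m).ncard = G at *
  generalize (MinAut (Fin k) m).ncard = MM at *
  have h3 : S * (m + 1) ≤ A := by
    have h4 : (m + 1) ^ 2 ≤ (m + 1) ^ k := Nat.pow_le_pow_right (by omega) hk
    have h5 : S * (m + 1) ^ 2 ≤ (m + 1) * A := (Nat.mul_le_mul_left _ h4).trans h2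
    have h6 : (m + 1) * (S * (m + 1)) ≤ (m + 1) * A := by
      calc (m + 1) * (S * (m + 1)) = S * (m + 1) ^ 2 := by ring
        _ ≤ _ := h5
    exact Nat.le_of_mul_le_mul_left h6 (by omega)
  have h7 : S * 12 ≤ A := (Nat.mul_le_mul_left _ hm).trans h3
  have h8 : S * 12 * 2 ^ (m + 1) ≤ A * 2 ^ (m + 1) := Nat.mul_le_mul_right _ h7
  have h9 : 12 * (S * 2 ^ (m + 1)) ≤ A * 2 ^ (m + 1) := by linarith
  generalize S * 2 ^ (m + 1) = X at *
  generalize A * 2 ^ (m + 1) = Y at *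
  omega

theorem MinAut_card_h845 (m : ℕ) :
    (MinAut (Fin k) m).ncard ≤ Set.ncard {T : Fin (m+1) → Fin k → Fin (m+1) | Acc T 0} * 2^(m+1) := by
  have hsub : MinAut (Fin k) m ⊆ ({T : Fin (m+1) → Fin k → Fin (m+1) | Acc T 0} ×ˢ
        (Set.univ : Set (Fin (m+1) → Bool))) := by
    intro x hx
    exact ⟨hx.1, Set.mem_univ _⟩
  have h1 := Set.ncard_le_ncard hsub (Set.toFinite _)
  rwa [Set.ncard_prod, Set.ncard_univ, Nat.card_fun, Nat.card_eq_fintype_card (α := Bool), Fintype.card_bool,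
    Nat.card_fin] at h1

open Classical in
theorem sumM_h845 [NeZero k] (m l H : ℕ) :
    ∑ g ∈ (GS_h845 k m).toFinset ×ˢ (GS_h845 k m).toFinset,
      ((Finset.univ.filter (fun p : (Fin l → Fin k) × (Fin l → Fin k) =>
        qf_h845 l g.1 g.2 p.1 = qf_h845 l g.1 g.2 p.2)).card * k ^ H) ≤
    Set.ncard {q : (((Fin (m+1) → Fin k → Fin (m+1)) × (Fin (m+1) → Bool)) ×
        ((Fin (m+1) → Fin k → Fin (m+1)) × (Fin (m+1) → Bool))) ×
          ((Fin l → Fin k) × (Fin l → Fin k)) × (Fin H → Fin k) |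
        Good q.1.1.1 0 ∧ Good q.1.2.1 0 ∧ Fail 0 q.1.1 q.1.2 q.2.1.1 q.2.1.2 q.2.2} := by
  have h1 : ∑ g ∈ (GS_h845 k m).toFinset ×ˢ (GS_h845 k m).toFinset,
      ((Finset.univ.filter (fun p : (Fin l → Fin k) × (Fin l → Fin k) =>
        qf_h845 l g.1 g.2 p.1 = qf_h845 l g.1 g.2 p.2)).card * k ^ H) =
      ((((GS_h845 k m).toFinset ×ˢ (GS_h845 k m).toFinset) ×ˢ
        (Finset.univ : Finset (((Fin l → Fin k) × (Fin l → Fin k)) × (Fin H → Fin k)))).filter
        (fun q => qf_h845 l q.1.1 q.1.2 q.2.1.1 = qf_h845 l q.1.1 q.1.2 q.2.1.2)).card := by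
    symm
    rw [Finset.card_filter]
    rw [Finset.sum_product ((GS_h845 k m).toFinset ×ˢ (GS_h845 k m).toFinset)
      (Finset.univ : Finset (((Fin l → Fin k) × (Fin l → Fin k)) × (Fin H → Fin k)))]
    refine Finset.sum_congr rfl fun g _ => ?_
    rw [Fintype.sum_prod_type, Finset.card_filter, Finset.sum_mul]
    refine Finset.sum_congr rfl fun p _ => ?_
    show (∑ _y : Fin H → Fin k, if qf_h845 l g.1 g.2 p.1 = qf_h845 l g.1 g.2 p.2 then 1 else 0) = _
    rw [Finset.sum_const, Finset.card_univ, Fintype.card_fun, Fintype.card_fin, Fintype.card_fin,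
      smul_eq_mul, mul_comm]
  rw [h1, ← Set.ncard_coe_finset]
  refine Set.ncard_le_ncard ?_ (Set.toFinite _)
  intro q hq
  rw [Finset.mem_coe, Finset.mem_filter, Finset.mem_product, Finset.mem_product, Set.mem_toFinset,
    Set.mem_toFinset] at hq
  obtain ⟨⟨⟨g1, g2⟩, -⟩, h2⟩ := hq
  exact ⟨⟨g1.1.1, g1.2⟩, ⟨g2.1.1, g2.2⟩, fail_of_qf_h845 _ _ _ _ h2 _⟩

open Classical in
theorem lower_sum (k : ℕ) (hk : 2 ≤ k) : ∃ m0 : ℕ, ∀ m, m0 ≤ m →
    ((m:ℝ)+1)^2 * ((MinAut (Fin k) m).ncard : ℝ)^2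
      ≤ 12800 * ∑ x ∈ (MinAut (Fin k) m).toFinset, ∑ y ∈ (MinAut (Fin k) m).toFinset,
          (sc (lang x ⊓ lang y) : ℝ) := by
  obtain ⟨n0, hn0⟩ := params k hk
  obtain ⟨m1, hm1⟩ := min_fraction k hk
  haveI : NeZero k := ⟨by omega⟩
  refine ⟨n0 + m1 + 12, fun m hm => ?_⟩
  obtain ⟨l, s, hls⟩ := hn0 (m + 1) (by omega)
  have hG := GS_card_h845 hk m (by omega) (hm1 m (by omega))
  have hMA := MinAut_card_h845 (k := k) m
  have hmain := main_ineq (V := Fin (m+1)) (k := k) 0 hk l s (16*(2*s+2)) rfl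
  have hsum := sumM_h845 (k := k) m l (16*(2*s+2))
  have hkR : (0 : ℝ) < k := by exact_mod_cast (by omega : 0 < k)
  rw [Fintype.card_fin] at hmain
  have hcs := Finset.sum_sq_le_sum_mul_sum_of_sq_le_mul
    ((GS_h845 k m).toFinset ×ˢ (GS_h845 k m).toFinset)
    (r := fun _ => (k : ℝ) ^ l) (f := fun g => (sc (lang g.1 ⊓ lang g.2) : ℝ))
    (g := fun g => ((Finset.univ.filter (fun p : (Fin l → Fin k) × (Fin l → Fin k) =>
        qf_h845 l g.1 g.2 p.1 = qf_h845 l g.1 g.2 p.2)).card : ℝ))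
    (fun _ _ => Nat.cast_nonneg _) (fun _ _ => Nat.cast_nonneg _) (fun g _ => by
      have := sc_lower_h845 l g.1 g.2
      exact_mod_cast this)
  rw [Finset.sum_const, Finset.card_product, nsmul_eq_mul] at hcs
  have hGc : (GS_h845 k m).toFinset.card = (GS_h845 k m).ncard := by
    rw [← Set.ncard_coe_finset, Set.coe_toFinset]
  rw [hGc] at hcs
  rw [← Finset.sum_mul] at hsum
  have hsumR : (∑ g ∈ (GS_h845 k m).toFinset ×ˢ (GS_h845 k m).toFinset,
      ((Finset.univ.filter (fun p : (Fin l → Fin k) × (Fin l → Fin k) =>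
        qf_h845 l g.1 g.2 p.1 = qf_h845 l g.1 g.2 p.2)).card : ℝ)) * (k : ℝ) ^ (16*(2*s+2)) ≤
      (Set.ncard {q : (((Fin (m+1) → Fin k → Fin (m+1)) × (Fin (m+1) → Bool)) ×
        ((Fin (m+1) → Fin k → Fin (m+1)) × (Fin (m+1) → Bool))) ×
          ((Fin l → Fin k) × (Fin l → Fin k)) × (Fin (16*(2*s+2)) → Fin k) |
        Good q.1.1.1 0 ∧ Good q.1.2.1 0 ∧ Fail 0 q.1.1 q.1.2 q.2.1.1 q.2.1.2 q.2.2} : ℝ) := by
    exact_mod_cast hsum
  have hsc : ∑ g ∈ (GS_h845 k m).toFinset ×ˢ (GS_h845 k m).toFinset, (sc (lang g.1 ⊓ lang g.2) : ℝ) ≤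
      ∑ x ∈ (MinAut (Fin k) m).toFinset, ∑ y ∈ (MinAut (Fin k) m).toFinset,
          (sc (lang x ⊓ lang y) : ℝ) := by
    rw [← Finset.sum_product']
    refine Finset.sum_le_sum_of_subset_of_nonneg ?_ (fun _ _ _ => Nat.cast_nonneg _)
    have h1 : (GS_h845 k m).toFinset ⊆ (MinAut (Fin k) m).toFinset := by
      intro x hx
      rw [Set.mem_toFinset] at hx ⊢
      exact hx.1
    exact Finset.product_subset_product h1 h1
  have hGR : (Set.ncard {T : Fin (m+1) → Fin k → Fin (m+1) | Acc T 0} : ℝ) * 2 ^ (m+1) ≤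
      4 * ((GS_h845 k m).ncard : ℝ) := by exact_mod_cast hG
  have hMAR : ((MinAut (Fin k) m).ncard : ℝ) ≤
      (Set.ncard {T : Fin (m+1) → Fin k → Fin (m+1) | Acc T 0} : ℝ) * 2 ^ (m+1) := by
    exact_mod_cast hMA
  refine le_trans ?_ (mul_le_mul_of_nonneg_left hsc (by norm_num))
  have hS0 : 0 ≤ ∑ g ∈ (GS_h845 k m).toFinset ×ˢ (GS_h845 k m).toFinset, (sc (lang g.1 ⊓ lang g.2) : ℝ) :=
    Finset.sum_nonneg fun _ _ => Nat.cast_nonneg _
  have hMM0 : (0 : ℝ) ≤ ((MinAut (Fin k) m).ncard : ℝ) := Nat.cast_nonneg _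
  have hA0 : (0 : ℝ) ≤ (Set.ncard {T : Fin (m+1) → Fin k → Fin (m+1) | Acc T 0} : ℝ) := Nat.cast_nonneg _
  rw [Nat.cast_mul] at hcs
  have hmain2 := hmain.trans (mul_le_mul_of_nonneg_left hls (by positivity))
  clear hmain hls hsum hG hMA
  have h4 : (4 : ℝ) ^ (m + 1) = (2 ^ (m + 1)) ^ 2 := by
    rw [← pow_mul, mul_comm, pow_mul]; norm_num
  rw [h4] at hmain2
  generalize (Set.ncard {T : Fin (m+1) → Fin k → Fin (m+1) | Acc T 0} : ℝ) = A at *
  generalize ((GS_h845 k m).ncard : ℝ) = G at *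
  generalize (∑ g ∈ (GS_h845 k m).toFinset ×ˢ (GS_h845 k m).toFinset, (sc (lang g.1 ⊓ lang g.2) : ℝ)) = S at *
  generalize (∑ g ∈ (GS_h845 k m).toFinset ×ˢ (GS_h845 k m).toFinset,
      ((Finset.univ.filter (fun p : (Fin l → Fin k) × (Fin l → Fin k) =>
        qf_h845 l g.1 g.2 p.1 = qf_h845 l g.1 g.2 p.2)).card : ℝ)) = M at *
  generalize (Set.ncard {q : (((Fin (m+1) → Fin k → Fin (m+1)) × (Fin (m+1) → Bool)) ×
        ((Fin (m+1) → Fin k → Fin (m+1)) × (Fin (m+1) → Bool))) ×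
          ((Fin l → Fin k) × (Fin l → Fin k)) × (Fin (16*(2*s+2)) → Fin k) |
        Good q.1.1.1 0 ∧ Good q.1.2.1 0 ∧ Fail 0 q.1.1 q.1.2 q.2.1.1 q.2.1.2 q.2.2} : ℝ) = Q at *
  generalize ((MinAut (Fin k) m).ncard : ℝ) = MM at *
  have hK : (0 : ℝ) < (k : ℝ) ^ l := by positivity
  have hKH : (0 : ℝ) < (k : ℝ) ^ (16 * (2 * s + 2)) := by positivity
  push_cast at hmain2
  generalize (k : ℝ) ^ l = K at *
  generalize (k : ℝ) ^ (16 * (2 * s + 2)) = KH at *
  have hn : (0 : ℝ) ≤ ((m : ℝ) + 1) ^ 2 := by positivity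
  generalize ((m : ℝ) + 1) ^ 2 = n2 at *
  have hmain3 : Q * n2 ≤ (A * 2 ^ (m + 1)) ^ 2 * K ^ 2 * KH * 50 := by
    calc Q * n2 ≤ _ := hmain2
      _ = _ := by ring
  have ha0 : 0 ≤ A * 2 ^ (m + 1) := by positivity
  generalize A * 2 ^ (m + 1) = a at *
  have h6 : M * n2 ≤ 50 * a ^ 2 * K ^ 2 := by
    have h7 : KH * (M * n2) ≤ KH * (50 * a ^ 2 * K ^ 2) := by
      calc KH * (M * n2) = (M * KH) * n2 := by ring
        _ ≤ Q * n2 := mul_le_mul_of_nonneg_right hsumR hn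
        _ ≤ _ := hmain3
        _ = _ := by ring
    exact le_of_mul_le_mul_left h7 hKH
  rcases ha0.eq_or_lt with ha | ha
  · have hMM : MM = 0 := le_antisymm (by rw [ha]; exact hMAR) hMM0
    rw [hMM]
    have : (0:ℝ) ≤ 12800 * S := by positivity
    simpa using this
  · have h8 : (G * G * K) ^ 2 * n2 ≤ S * (50 * a ^ 2 * K ^ 2) := by
      calc (G * G * K) ^ 2 * n2 ≤ S * M * n2 := mul_le_mul_of_nonneg_right hcs hn
        _ = S * (M * n2) := by ring
        _ ≤ _ := mul_le_mul_of_nonneg_left h6 hS0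
    have h9 : G ^ 4 * n2 ≤ 50 * a ^ 2 * S := by
      have h10 : K ^ 2 * (G ^ 4 * n2) ≤ K ^ 2 * (50 * a ^ 2 * S) := by
        calc K ^ 2 * (G ^ 4 * n2) = (G * G * K) ^ 2 * n2 := by ring
          _ ≤ _ := h8
          _ = _ := by ring
      exact le_of_mul_le_mul_left h10 (by positivity)
    have h11 : a ^ 4 ≤ 256 * G ^ 4 := by
      calc a ^ 4 ≤ (4 * G) ^ 4 := pow_le_pow_left₀ ha.le hGR 4
        _ = _ := by ring
    have h12 : a ^ 2 * (a ^ 2 * n2) ≤ a ^ 2 * (12800 * S) := by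
      calc a ^ 2 * (a ^ 2 * n2) = a ^ 4 * n2 := by ring
        _ ≤ 256 * G ^ 4 * n2 := mul_le_mul_of_nonneg_right h11 hn
        _ = 256 * (G ^ 4 * n2) := by ring
        _ ≤ 256 * (50 * a ^ 2 * S) := mul_le_mul_of_nonneg_left h9 (by norm_num)
        _ = _ := by ring
    have h13 : a ^ 2 * n2 ≤ 12800 * S := le_of_mul_le_mul_left h12 (by positivity)
    refine le_trans ?_ h13
    rw [mul_comm]
    exact mul_le_mul_of_nonneg_right (pow_le_pow_left₀ hMM0 hMAR 2) hn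

end SI
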